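import Pool.Agent.H72.BT.H3

/-!
# The coordinate rings

For a commutative ring `S` and `τ : S` the ring `Dy ε δ τ` is
`S[w, u, y] / (y² + ε y - (u² - τ w)³ - δ (u² - τ w))`, presented as a quadratic extension of
`S[w][u]`, and `Du ε δ τ` is the same ring presented as a quadratic extension of `(Cr S)[w]`
where `Cr S = S[x, y] / (y² + ε y - x³ - δ x)` and `x = u² - τ w`.
-/

open Polynomial

namespace Pool.Agent.H72.BT

section quad

variable {Q : Type*} [CommRing Q]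

/-- The monic quadratic polynomial `X² + b X - a`. -/
noncomputable def quad (b a : Q) : Q[X] := X ^ 2 + C b * X - C a

lemma quad_monic [Nontrivial Q] (b a : Q) : (quad b a).Monic := by
  unfold quad
  monicity!

lemma quad_natDegree [Nontrivial Q] (b a : Q) : (quad b a).natDegree = 2 := by
  unfold quad
  compute_degree!

lemma quad_map {Q' : Type*} [CommRing Q'] (φ : Q →+* Q') (b a : Q) :
    (quad b a).map φ = quad (φ b) (φ a) := by
  simp [quad]

lemma quad_root (b a : Q) : (AdjoinRoot.root (quad b a)) ^ 2 +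
    AdjoinRoot.of _ b * AdjoinRoot.root (quad b a) = AdjoinRoot.of _ a := by
  have h : AdjoinRoot.mk (quad b a) (X ^ 2 + C b * X - C a) = 0 := AdjoinRoot.mk_self
  rw [map_sub, map_add, map_pow, map_mul, AdjoinRoot.mk_X, AdjoinRoot.mk_C,
    AdjoinRoot.mk_C] at h
  exact sub_eq_zero.1 h

lemma quad_exists [Nontrivial Q] (b a : Q) (d : AdjoinRoot (quad b a)) :
    ∃ p q : Q, d = AdjoinRoot.of _ p + AdjoinRoot.of _ q * AdjoinRoot.root (quad b a) := by
  obtain ⟨f, rfl⟩ := AdjoinRoot.mk_surjective d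
  have hm := quad_monic b a
  have h1 : AdjoinRoot.mk (quad b a) f = AdjoinRoot.mk (quad b a) (f %ₘ quad b a) := by
    rw [AdjoinRoot.mk_eq_mk]
    refine ⟨f /ₘ quad b a, ?_⟩
    nth_rw 1 [← modByMonic_add_div f (quad b a)]
    ring
  have h2 : (f %ₘ quad b a).natDegree < 2 := by
    have := natDegree_modByMonic_lt f hm (by
      intro h
      have := congrArg natDegree h
      rw [quad_natDegree, natDegree_one] at this
      lia)
    rwa [quad_natDegree] at this
  refine ⟨(f %ₘ quad b a).coeff 0, (f %ₘ quad b a).coeff 1, ?_⟩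
  rw [h1]
  conv_lhs => rw [(f %ₘ quad b a).as_sum_range' 2 h2]
  simp [Finset.sum_range_succ, ← C_mul_X_pow_eq_monomial]

lemma quad_indep [Nontrivial Q] (b a : Q) (p q : Q)
    (h : AdjoinRoot.of _ p + AdjoinRoot.of _ q * AdjoinRoot.root (quad b a) = 0) :
    p = 0 ∧ q = 0 := by
  have h1 : AdjoinRoot.mk (quad b a) (C p + C q * X) = 0 := by
    simpa using h
  rw [AdjoinRoot.mk_eq_zero] at h1
  have h2 : C p + C q * X = (0 : Q[X]) := by
    by_contra hne
    refine (quad_monic b a).not_dvd_of_natDegree_lt hne ?_ h1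
    rw [quad_natDegree]
    have : (C p + C q * X : Q[X]).natDegree ≤ 1 := by compute_degree
    lia
  constructor
  · simpa using congrArg (fun f => f.coeff 0) h2
  · simpa using congrArg (fun f => f.coeff 1) h2

/-- A quadratic extension without roots is a domain. -/
lemma quad_isDomain [IsDomain Q] {M : Type*} [Field M] (i : Q →+* M)
    (hi : Function.Injective i) (b a : Q) (h : ∀ r : M, r ^ 2 + i b * r ≠ i a) :
    IsDomain (AdjoinRoot (quad b a)) := by
  have hirr : Irreducible ((quad b a).map i) := by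
    rw [Monic.irreducible_iff_roots_eq_zero_of_degree_le_three]
    · rw [Multiset.eq_zero_iff_forall_notMem]
      intro r hr
      rw [quad_map] at hr
      have := (mem_roots'.1 hr).2
      simp only [quad, IsRoot.def, eval_sub, eval_add, eval_pow, eval_X, eval_mul, eval_C] at this
      exact h r (sub_eq_zero.1 this)
    · exact (quad_monic b a).map i
    · rw [quad_map, quad_natDegree]
    · rw [quad_map, quad_natDegree]; norm_num
  have : Fact (Irreducible ((quad b a).map i)) := ⟨hirr⟩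
  let φ : AdjoinRoot (quad b a) →+* AdjoinRoot ((quad b a).map i) :=
    AdjoinRoot.lift ((AdjoinRoot.of _).comp i) (AdjoinRoot.root _) (by
      rw [← eval₂_map]
      exact AdjoinRoot.eval₂_root _)
  have hφ : Function.Injective φ := by
    rw [injective_iff_map_eq_zero]
    intro d hd
    obtain ⟨p, q, rfl⟩ := quad_exists b a d
    have h1 : AdjoinRoot.of ((quad b a).map i) (i p) +
        AdjoinRoot.of ((quad b a).map i) (i q) * AdjoinRoot.root ((quad b a).map i) = 0 := by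
      simpa [φ] using hd
    have h2 : i p = 0 ∧ i q = 0 := by
      have key : ∀ g : M[X], g = quad (i b) (i a) →
          AdjoinRoot.of g (i p) + AdjoinRoot.of g (i q) * AdjoinRoot.root g = 0 →
          i p = 0 ∧ i q = 0 := by
        rintro g rfl h
        exact quad_indep _ _ _ _ h
      exact key _ (quad_map i b a) h1
    have hp : p = 0 := hi (by rw [h2.1, map_zero])
    have hq : q = 0 := hi (by rw [h2.2, map_zero])
    simp [hp, hq]
  exact hφ.isDomain φ

end quad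

section rings

variable {S : Type*} [CommRing S] (ε δ : ℕ) (τ : S)

/-- The polynomial `u² - τ w` in `S[w][u]`. -/
noncomputable def cc : S[X][X] := X ^ 2 - C (C τ * X)

/-- The polynomial `(u² - τ w)³ + δ (u² - τ w)` in `S[w][u]`. -/
noncomputable def gg : S[X][X] := cc τ ^ 3 + (δ : S[X][X]) * cc τ

/-- The ring `S[w, u, y] / (y² + ε y - (u² - τ w)³ - δ (u² - τ w))`. -/
def Dy : Type _ := AdjoinRoot (quad (ε : S[X][X]) (gg δ τ))

noncomputable instance : CommRing (Dy ε δ τ) :=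
  inferInstanceAs (CommRing (AdjoinRoot (quad (ε : S[X][X]) (gg δ τ))))

namespace Dy

/-- The inclusion of `S[w][u]`. -/
noncomputable def qc : S[X][X] →+* Dy ε δ τ := AdjoinRoot.of _

/-- The structure map. -/
noncomputable def sc : S →+* Dy ε δ τ := (qc ε δ τ).comp (C.comp C)

/-- The coordinate `u`. -/
noncomputable def uu : Dy ε δ τ := qc ε δ τ X

/-- The coordinate `w`. -/
noncomputable def ww : Dy ε δ τ := qc ε δ τ (C X)

/-- The coordinate `y`. -/
noncomputable def yy : Dy ε δ τ := AdjoinRoot.root (quad (ε : S[X][X]) (gg δ τ))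

/-- The quotient map. -/
noncomputable def mk : S[X][X][X] →+* Dy ε δ τ := AdjoinRoot.mk (quad (ε : S[X][X]) (gg δ τ))

lemma mk_C (q : S[X][X]) : mk ε δ τ (C q) = qc ε δ τ q := AdjoinRoot.mk_C _

lemma mk_X : mk ε δ τ X = yy ε δ τ := AdjoinRoot.mk_X

lemma mk_surjective : Function.Surjective (mk ε δ τ) := AdjoinRoot.mk_surjective

lemma mk_eq_zero (p : S[X][X][X]) : mk ε δ τ p = 0 ↔ quad (ε : S[X][X]) (gg δ τ) ∣ p :=
  AdjoinRoot.mk_eq_zero

lemma qc_cc : qc ε δ τ (cc τ) =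
    uu ε δ τ ^ 2 - sc ε δ τ τ * ww ε δ τ := by
  simp [cc, uu, ww, sc]

lemma yy_eq : yy ε δ τ ^ 2 + ε * yy ε δ τ = qc ε δ τ (gg δ τ) := by
  have h1 : yy ε δ τ ^ 2 + qc ε δ τ (ε : S[X][X]) * yy ε δ τ = qc ε δ τ (gg δ τ) :=
    quad_root (ε : S[X][X]) (gg δ τ)
  rwa [map_natCast] at h1

lemma eqn : yy ε δ τ ^ 2 + ε * yy ε δ τ = (uu ε δ τ ^ 2 - sc ε δ τ τ * ww ε δ τ) ^ 3 +
    δ * (uu ε δ τ ^ 2 - sc ε δ τ τ * ww ε δ τ) := by
  rw [yy_eq, ← qc_cc, gg, map_add, map_pow, map_mul, map_natCast]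

variable {ε δ τ} {E : Type*} [CommRing E]

/-- The universal property of `Dy`. -/
noncomputable def lift (σ : S →+* E) (u y w : E)
    (h : y ^ 2 + ε * y = (u ^ 2 - σ τ * w) ^ 3 + δ * (u ^ 2 - σ τ * w)) : Dy ε δ τ →+* E :=
  AdjoinRoot.lift (eval₂RingHom (eval₂RingHom σ w) u) y (by
    simp only [quad, gg, cc, eval₂_sub, eval₂_add, eval₂_pow, eval₂_X, eval₂_mul, eval₂_C,
      coe_eval₂RingHom, eval₂_natCast]
    rw [sub_eq_zero]
    exact h)

variable (σ : S →+* E) (u y w : E)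
    (h : y ^ 2 + ε * y = (u ^ 2 - σ τ * w) ^ 3 + δ * (u ^ 2 - σ τ * w))

lemma lift_qc (q : S[X][X]) : lift σ u y w h (qc ε δ τ q) = eval₂ (eval₂RingHom σ w) u q :=
  AdjoinRoot.lift_of _
@[simp] lemma lift_uu : lift σ u y w h (uu ε δ τ) = u := by rw [uu, lift_qc, eval₂_X]
@[simp] lemma lift_ww : lift σ u y w h (ww ε δ τ) = w := by
  rw [ww, lift_qc, eval₂_C, coe_eval₂RingHom, eval₂_X]
@[simp] lemma lift_yy : lift σ u y w h (yy ε δ τ) = y := AdjoinRoot.lift_root _
@[simp] lemma lift_sc (s : S) : lift σ u y w h (sc ε δ τ s) = σ s := by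
  rw [sc, RingHom.comp_apply, RingHom.comp_apply, lift_qc, eval₂_C, coe_eval₂RingHom, eval₂_C]

lemma hom_ext' {f g : Dy ε δ τ →+* E} (hq : f.comp (qc ε δ τ) = g.comp (qc ε δ τ))
    (hy : f (yy ε δ τ) = g (yy ε δ τ)) : f = g :=
  AdjoinRoot.ringHom_ext hq hy

lemma hom_ext {f g : Dy ε δ τ →+* E} (hs : f.comp (sc ε δ τ) = g.comp (sc ε δ τ))
    (hu : f (uu ε δ τ) = g (uu ε δ τ)) (hy : f (yy ε δ τ) = g (yy ε δ τ))
    (hw : f (ww ε δ τ) = g (ww ε δ τ)) : f = g := by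
  apply hom_ext' _ hy
  apply Polynomial.ringHom_ext'
  · apply Polynomial.ringHom_ext'
    · exact hs
    · exact hw
  · exact hu

end Dy

/-- The ring `S[x, y] / (y² + ε y - x³ - δ x)`. -/
def Cr (S : Type*) [CommRing S] (ε δ : ℕ) : Type _ :=
  AdjoinRoot (quad (ε : S[X]) (X ^ 3 + (δ : S[X]) * X))

noncomputable instance : CommRing (Cr S ε δ) :=
  inferInstanceAs (CommRing (AdjoinRoot (quad (ε : S[X]) (X ^ 3 + (δ : S[X]) * X))))

namespace Cr

variable {ε δ}

/-- The inclusion of `S[x]`. -/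
noncomputable def qc : S[X] →+* Cr S ε δ := AdjoinRoot.of _

/-- The structure map. -/
noncomputable def sc : S →+* Cr S ε δ := qc.comp C

/-- The coordinate `x`. -/
noncomputable def xx : Cr S ε δ := qc X

/-- The coordinate `y`. -/
noncomputable def yy : Cr S ε δ := AdjoinRoot.root (quad (ε : S[X]) (X ^ 3 + (δ : S[X]) * X))

lemma eqn : (yy : Cr S ε δ) ^ 2 + (ε : Cr S ε δ) * (yy : Cr S ε δ) =
    (xx : Cr S ε δ) ^ 3 + (δ : Cr S ε δ) * (xx : Cr S ε δ) := by
  have h1 : (yy : Cr S ε δ) ^ 2 + (qc (ε : S[X])) * (yy : Cr S ε δ) =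
    qc (X ^ 3 + (δ : S[X]) * X) := quad_root (ε : S[X]) (X ^ 3 + (δ : S[X]) * X)
  rw [map_natCast] at h1
  rw [h1, map_add, map_pow, map_mul, map_natCast, xx]

variable {E : Type*} [CommRing E]

/-- The universal property of `Cr`. -/
noncomputable def lift (σ : S →+* E) (x y : E)
    (h : y ^ 2 + ε * y = x ^ 3 + δ * x) : Cr S ε δ →+* E :=
  AdjoinRoot.lift (eval₂RingHom σ x) y (by
    simp only [quad, eval₂_sub, eval₂_add, eval₂_pow, eval₂_X, eval₂_mul, eval₂_C,
      coe_eval₂RingHom, eval₂_natCast]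
    rw [sub_eq_zero]
    exact h)

variable (σ : S →+* E) (x y : E) (h : y ^ 2 + ε * y = x ^ 3 + δ * x)

lemma lift_qc (q : S[X]) : lift σ x y h (qc q) = eval₂ σ x q := AdjoinRoot.lift_of _
@[simp] lemma lift_xx : lift σ x y h xx = x := by simp [lift_qc, xx]
@[simp] lemma lift_yy : lift σ x y h yy = y := AdjoinRoot.lift_root _
@[simp] lemma lift_sc (s : S) : lift σ x y h (sc s) = σ s := by simp [lift_qc, sc]

lemma hom_ext {f g : Cr S ε δ →+* E} (hs : f.comp sc = g.comp sc)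
    (hx : f xx = g xx) (hy : f yy = g yy) : f = g := by
  have hq : f.comp qc = g.comp qc := by
    apply Polynomial.ringHom_ext'
    · exact hs
    · exact hx
  exact AdjoinRoot.ringHom_ext hq hy

end Cr

/-- The ring `(Cr S)[w][u] / (u² - τ w - x)`. -/
def Du : Type _ := AdjoinRoot (quad (0 : (Cr S ε δ)[X]) (C (Cr.sc τ) * X + C Cr.xx))

noncomputable instance : CommRing (Du ε δ τ) :=
  inferInstanceAs (CommRing
    (AdjoinRoot (quad (0 : (Cr S ε δ)[X]) (C (Cr.sc τ) * X + C Cr.xx))))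

namespace Du

/-- The inclusion of `(Cr S)[w]`. -/
noncomputable def qc : (Cr S ε δ)[X] →+* Du ε δ τ := AdjoinRoot.of _

/-- The structure map. -/
noncomputable def sc : S →+* Du ε δ τ := (qc ε δ τ).comp (C.comp Cr.sc)

/-- The coordinate `u`. -/
noncomputable def uu : Du ε δ τ :=
  AdjoinRoot.root (quad (0 : (Cr S ε δ)[X]) (C (Cr.sc τ) * X + C Cr.xx))

/-- The coordinate `w`. -/
noncomputable def ww : Du ε δ τ := qc ε δ τ X

/-- The coordinate `y`. -/
noncomputable def yy : Du ε δ τ := qc ε δ τ (C Cr.yy)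

/-- The coordinate `x = u² - τ w`. -/
noncomputable def xx : Du ε δ τ := qc ε δ τ (C Cr.xx)

lemma uu_sq : uu ε δ τ ^ 2 = sc ε δ τ τ * ww ε δ τ + xx ε δ τ := by
  have h1 : uu ε δ τ ^ 2 + (qc ε δ τ 0) * uu ε δ τ =
    qc ε δ τ (C (Cr.sc τ) * X + C Cr.xx) :=
    quad_root (0 : (Cr S ε δ)[X]) (C (Cr.sc τ) * X + C Cr.xx)
  rw [map_zero, zero_mul, add_zero] at h1
  rw [h1, map_add, map_mul, ww, xx, sc]
  rfl

lemma xx_eq : xx ε δ τ = uu ε δ τ ^ 2 - sc ε δ τ τ * ww ε δ τ := by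
  rw [uu_sq]; ring

lemma eqn_xx : yy ε δ τ ^ 2 + ε * yy ε δ τ = xx ε δ τ ^ 3 + δ * xx ε δ τ := by
  have h1 := congrArg (fun a => qc ε δ τ (C a)) (Cr.eqn (S := S) (ε := ε) (δ := δ))
  simp only [map_add, map_mul, map_pow, map_natCast] at h1
  exact h1

lemma eqn : yy ε δ τ ^ 2 + ε * yy ε δ τ = (uu ε δ τ ^ 2 - sc ε δ τ τ * ww ε δ τ) ^ 3 +
    δ * (uu ε δ τ ^ 2 - sc ε δ τ τ * ww ε δ τ) := by
  rw [eqn_xx, xx_eq]

variable {ε δ τ} {E : Type*} [CommRing E]

/-- The universal property of `Du`. -/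
noncomputable def lift (σ : S →+* E) (u y w : E)
    (h : y ^ 2 + ε * y = (u ^ 2 - σ τ * w) ^ 3 + δ * (u ^ 2 - σ τ * w)) : Du ε δ τ →+* E :=
  AdjoinRoot.lift (eval₂RingHom (Cr.lift σ (u ^ 2 - σ τ * w) y h) w) u (by
    simp only [quad, eval₂_sub, eval₂_add, eval₂_pow, eval₂_X, eval₂_mul, eval₂_C,
      coe_eval₂RingHom, map_zero, zero_mul, Cr.lift_xx, Cr.lift_sc, eval₂_zero]
    ring)

variable (σ : S →+* E) (u y w : E)
    (h : y ^ 2 + ε * y = (u ^ 2 - σ τ * w) ^ 3 + δ * (u ^ 2 - σ τ * w))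

lemma lift_qc (q : (Cr S ε δ)[X]) : lift σ u y w h (qc ε δ τ q) =
    eval₂ (Cr.lift σ (u ^ 2 - σ τ * w) y h) w q := AdjoinRoot.lift_of _
@[simp] lemma lift_uu : lift σ u y w h (uu ε δ τ) = u := AdjoinRoot.lift_root _
@[simp] lemma lift_ww : lift σ u y w h (ww ε δ τ) = w := by rw [ww, lift_qc, eval₂_X]
@[simp] lemma lift_yy : lift σ u y w h (yy ε δ τ) = y := by
  rw [yy, lift_qc, eval₂_C, Cr.lift_yy]
@[simp] lemma lift_sc (s : S) : lift σ u y w h (sc ε δ τ s) = σ s := by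
  rw [sc, RingHom.comp_apply, RingHom.comp_apply, lift_qc, eval₂_C, Cr.lift_sc]

lemma hom_ext {f g : Du ε δ τ →+* E} (hs : f.comp (sc ε δ τ) = g.comp (sc ε δ τ))
    (hu : f (uu ε δ τ) = g (uu ε δ τ)) (hy : f (yy ε δ τ) = g (yy ε δ τ))
    (hw : f (ww ε δ τ) = g (ww ε δ τ)) : f = g := by
  have hx : f (xx ε δ τ) = g (xx ε δ τ) := by
    rw [xx_eq, map_sub, map_sub, map_pow, map_pow, map_mul, map_mul, hu, hw]
    rw [show f (sc ε δ τ τ) = g (sc ε δ τ τ) from RingHom.congr_fun hs τ]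
  have hs' : ∀ s, f (sc ε δ τ s) = g (sc ε δ τ s) := fun s => RingHom.congr_fun hs s
  have hq : f.comp (qc ε δ τ) = g.comp (qc ε δ τ) := by
    apply Polynomial.ringHom_ext'
    · apply Cr.hom_ext
      · ext s
        exact hs' s
      · exact hx
      · exact hy
    · exact hw
  exact AdjoinRoot.ringHom_ext hq hu

end Du

/-- The two presentations agree. -/
noncomputable def DuDy : Du ε δ τ ≃+* Dy ε δ τ :=
  RingEquiv.ofRingHom
    (Du.lift (Dy.sc ε δ τ) (Dy.uu ε δ τ) (Dy.yy ε δ τ) (Dy.ww ε δ τ) (Dy.eqn ε δ τ))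
    (Dy.lift (Du.sc ε δ τ) (Du.uu ε δ τ) (Du.yy ε δ τ) (Du.ww ε δ τ) (Du.eqn ε δ τ))
    (by refine Dy.hom_ext (RingHom.ext fun s => ?_) ?_ ?_ ?_ <;>
      simp only [RingHom.comp_apply, RingHom.id_apply, Du.lift_uu, Du.lift_ww, Du.lift_yy,
        Du.lift_sc, Dy.lift_uu, Dy.lift_ww, Dy.lift_yy, Dy.lift_sc])
    (by refine Du.hom_ext (RingHom.ext fun s => ?_) ?_ ?_ ?_ <;>
      simp only [RingHom.comp_apply, RingHom.id_apply, Du.lift_uu, Du.lift_ww, Du.lift_yy,
        Du.lift_sc, Dy.lift_uu, Dy.lift_ww, Dy.lift_yy, Dy.lift_sc])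

end rings

end Pool.Agent.H72.BT
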