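import Pool.Agent.H72.BT.Key

/-!
# The algebraic form of the obstruction
-/

open Polynomial

namespace Pool.Agent.H72.BT

section red

variable {k : Type*} [Field k] {S : Type*} [CommRing S] {ε δ : ℕ} {τ : S}
  (e₀ : S →+* k) (h0 : e₀ τ = 0)

/-- The reduction of the coordinate ring of the family to that of the special fibre. -/
noncomputable def redDy : Dy ε δ τ →+* Dy ε δ (0 : k) :=
  Dy.lift ((Dy.sc ε δ 0).comp e₀) (Dy.uu ε δ 0) (Dy.yy ε δ 0) (Dy.ww ε δ 0) (by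
    rw [RingHom.comp_apply, h0]; exact Dy.eqn ε δ 0)

/-- The reduction map for the coordinate ring of the curve. -/
noncomputable def redCr : Cr S ε δ →+* Cr k ε δ := Cr.lift (Cr.sc.comp e₀) Cr.xx Cr.yy Cr.eqn

/-- The reduction map for the second presentation. -/
noncomputable def redDu : Du ε δ τ →+* Du ε δ (0 : k) :=
  Du.lift ((Du.sc ε δ 0).comp e₀) (Du.uu ε δ 0) (Du.yy ε δ 0) (Du.ww ε δ 0) (by
    rw [RingHom.comp_apply, h0]; exact Du.eqn ε δ 0)

lemma redDu_comp_qc : (redDu (ε := ε) (δ := δ) e₀ h0).comp (Du.qc ε δ τ) =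
    (Du.qc ε δ 0).comp (mapRingHom (redCr e₀)) := by
  have hsc : ∀ s, redDu (ε := ε) (δ := δ) e₀ h0 (Du.sc ε δ τ s) = Du.sc ε δ 0 (e₀ s) :=
    fun s => Du.lift_sc _ _ _ _ _ s
  have huu : redDu (ε := ε) (δ := δ) e₀ h0 (Du.uu ε δ τ) = Du.uu ε δ 0 := Du.lift_uu ..
  have hww : redDu (ε := ε) (δ := δ) e₀ h0 (Du.ww ε δ τ) = Du.ww ε δ 0 := Du.lift_ww ..
  have hyy : redDu (ε := ε) (δ := δ) e₀ h0 (Du.yy ε δ τ) = Du.yy ε δ 0 := Du.lift_yy ..
  apply Polynomial.ringHom_ext'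
  · apply Cr.hom_ext
    · refine RingHom.ext fun s => ?_
      rw [RingHom.comp_apply, RingHom.comp_apply, RingHom.comp_apply, RingHom.comp_apply,
        RingHom.comp_apply, RingHom.comp_apply, coe_mapRingHom, map_C]
      refine (hsc s).trans ?_
      rw [redCr, Cr.lift_sc]
      rfl
    · rw [RingHom.comp_apply, RingHom.comp_apply, RingHom.comp_apply, RingHom.comp_apply,
        coe_mapRingHom, map_C]
      change redDu (ε := ε) (δ := δ) e₀ h0 (Du.xx ε δ τ) = _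
      rw [Du.xx_eq, map_sub, map_pow, map_mul, huu, hww, hsc, h0, redCr, Cr.lift_xx]
      exact (Du.xx_eq ε δ (0 : k)).symm
    · rw [RingHom.comp_apply, RingHom.comp_apply, RingHom.comp_apply, RingHom.comp_apply,
        coe_mapRingHom, map_C, redCr, Cr.lift_yy]
      exact hyy
  · rw [RingHom.comp_apply, RingHom.comp_apply, coe_mapRingHom, map_X]
    exact hww

lemma redDu_qc (p : (Cr S ε δ)[X]) : redDu (ε := ε) (δ := δ) e₀ h0 (Du.qc ε δ τ p) =
    Du.qc ε δ 0 (p.map (redCr e₀)) := RingHom.congr_fun (redDu_comp_qc e₀ h0) p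

lemma redDy_DuDy (x : Du ε δ τ) : redDy e₀ h0 (DuDy ε δ τ x) =
    DuDy ε δ 0 (redDu e₀ h0 x) := by
  have h : (redDy (ε := ε) (δ := δ) e₀ h0).comp (DuDy ε δ τ : Du ε δ τ →+* Dy ε δ τ) =
      (DuDy ε δ (0 : k) : Du ε δ (0 : k) →+* Dy ε δ (0 : k)).comp (redDu e₀ h0) := by
    refine Du.hom_ext (RingHom.ext fun s => ?_) ?_ ?_ ?_ <;>
      simp only [RingHom.comp_apply, RingEquiv.coe_toRingHom, DuDy, RingEquiv.ofRingHom_apply,
        redDu, redDy, Du.lift_sc, Dy.lift_sc, Du.lift_uu, Dy.lift_uu, Du.lift_yy, Dy.lift_yy,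
        Du.lift_ww, Dy.lift_ww]
  exact RingHom.congr_fun h x

variable [IsDomain S] [IsAlgClosed k] (hg : Good k ε δ)

include hg in
theorem key' (φ : k →+* S) (hφ : ∀ a, e₀ (φ a) = a) (hτ : τ ≠ 0) {κ : Type*} [Field κ]
    (ι : Dy ε δ (0 : k) →+* κ) (hι : Function.Injective ι)
    {Loc : Type*} [CommRing Loc] [Algebra (Dy ε δ τ) Loc]
    [(RingHom.ker (ι.comp (redDy (ε := ε) (δ := δ) e₀ h0))).IsPrime]
    [IsLocalization.AtPrime Loc (RingHom.ker (ι.comp (redDy (ε := ε) (δ := δ) e₀ h0)))]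
    (res : Loc →+* κ) (hres : ∀ d, res (algebraMap (Dy ε δ τ) Loc d) = ι (redDy e₀ h0 d))
    (x y : Loc) (hxy : y ^ 2 + ε * y = x ^ 3 + δ * x)
    (a b c d : k) (hdet : a * d - b * c ≠ 0)
    (hx : (ι (Dy.sc ε δ 0 a) * ι (Dy.uu ε δ 0) + ι (Dy.sc ε δ 0 b)) * res x =
      ι (Dy.sc ε δ 0 c) * ι (Dy.uu ε δ 0) + ι (Dy.sc ε δ 0 d)) : False := by
  let red : Du ε δ τ →+* κ :=
    (ι.comp (redDy (ε := ε) (δ := δ) e₀ h0)).comp (DuDy ε δ τ : Du ε δ τ →+* Dy ε δ τ)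
  have hred : ∀ z, red z = ι (DuDy ε δ 0 (redDu e₀ h0 z)) := fun z => by
    rw [← redDy_DuDy]; rfl
  let alg : Algebra (Du ε δ τ) Loc :=
    ((algebraMap (Dy ε δ τ) Loc).comp (DuDy ε δ τ : Du ε δ τ →+* Dy ε δ τ)).toAlgebra
  have hprime : (RingHom.ker red).IsPrime := RingHom.ker_isPrime _
  have hloc : IsLocalization.AtPrime Loc (RingHom.ker red) := by
    refine IsLocalization.of_ringEquiv_left (R := Du ε δ τ) (S := Dy ε δ τ) (K := Loc)
      (DuDy ε δ τ)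
      (M₁ := (RingHom.ker (ι.comp (redDy (ε := ε) (δ := δ) e₀ h0))).primeCompl) ?_ ?_
    · ext z
      constructor
      · rintro ⟨w, hw, rfl⟩
        intro h
        apply hw
        have h1 : ι (redDy e₀ h0 (DuDy ε δ τ w)) = 0 := h
        have h2 : red w = 0 := h1
        exact h2
      · intro hz
        refine ⟨(DuDy ε δ τ).symm z, ?_, (DuDy ε δ τ).apply_symm_apply z⟩
        intro h
        apply hz
        have h1 : red ((DuDy ε δ τ).symm z) = 0 := h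
        have h2 : ι (redDy e₀ h0 (DuDy ε δ τ ((DuDy ε δ τ).symm z))) = 0 := h1
        rw [RingEquiv.apply_symm_apply] at h2
        exact h2
    · intro z
      rfl
  have hCk : Nontrivial (Cr k ε δ) := by
    have := Cr_sc_injective (S := k) (ε := ε) (δ := δ)
    exact this.nontrivial
  have hinj : ∀ z : Du ε δ (0 : k), ι (DuDy ε δ 0 z) = 0 → z = 0 := by
    intro z hz
    apply (DuDy ε δ (0 : k)).injective
    apply hι
    rw [hz, map_zero, map_zero]
  refine key (k := k) φ hg τ hτ red ?_ (Loc := Loc) res ?_ x y hxy a b c d hdet ?_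
  · intro p q h
    rw [hred, hred, hred, ← map_mul ι, ← map_add ι, ← map_mul, ← map_add] at h
    have h1 := hinj _ h
    rw [redDu_qc, redDu_qc] at h1
    have huu : redDu (ε := ε) (δ := δ) e₀ h0 (Du.uu ε δ τ) = Du.uu ε δ 0 := Du.lift_uu ..
    rw [huu] at h1
    obtain ⟨h2, h3⟩ := Du_indep (0 : k) _ _ h1
    constructor
    · rw [hred, redDu_qc, h2, map_zero, map_zero, map_zero]
    · rw [hred, redDu_qc, h3, map_zero, map_zero, map_zero]
  · intro z
    have h1 := hres (DuDy ε δ τ z)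
    exact h1
  · have h1 : ∀ a : k, red (Du.sc ε δ τ (φ a)) = ι (Dy.sc ε δ 0 a) := by
      intro a
      change ι (redDy e₀ h0 (DuDy ε δ τ (Du.sc ε δ τ (φ a)))) = _
      have h2 : DuDy ε δ τ (Du.sc ε δ τ (φ a)) = Dy.sc ε δ τ (φ a) := Du.lift_sc ..
      have h3 : redDy (ε := ε) (δ := δ) e₀ h0 (Dy.sc ε δ τ (φ a)) =
        Dy.sc ε δ 0 (e₀ (φ a)) := Dy.lift_sc ..
      rw [h2, h3, hφ]
    have h4 : red (Du.uu ε δ τ) = ι (Dy.uu ε δ 0) := by
      change ι (redDy e₀ h0 (DuDy ε δ τ (Du.uu ε δ τ))) = _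
      have h2 : DuDy ε δ τ (Du.uu ε δ τ) = Dy.uu ε δ τ := Du.lift_uu ..
      have h3 : redDy (ε := ε) (δ := δ) e₀ h0 (Dy.uu ε δ τ) = Dy.uu ε δ 0 := Dy.lift_uu ..
      rw [h2, h3]
    rw [h1, h1, h1, h1, h4]
    exact hx

end red

end Pool.Agent.H72.BT
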