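import Pool.Agent.H72.BT.Flat

/-!
# The fibres of the family are birational to one another
-/

open CategoryTheory Limits AlgebraicGeometry

universe u

namespace Pool.Agent.H72.BT

section general

variable {k R₁ R₂ : Type u} [CommRing k] [CommRing R₁] [CommRing R₂]

lemma birationalOver_localization [IsDomain R₁] (σ : k →+* R₁) {f : R₁} (hf : f ≠ 0) :
    Scheme.BirationalOver
      (Spec.map (CommRingCat.ofHom ((algebraMap R₁ (Localization.Away f)).comp σ)))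
      (Spec.map (CommRingCat.ofHom σ)) := by
  have : Nontrivial (Localization.Away f) := by
    have := IsLocalization.Away.isDomain (Localization.Away f) hf
    infer_instance
  have : Nonempty (Spec (.of (Localization.Away f))) :=
    inferInstanceAs (Nonempty (PrimeSpectrum (Localization.Away f)))
  have h1 : IsDominant (Spec.map (CommRingCat.ofHom (algebraMap R₁ (Localization.Away f)))) :=
    isDominant_of_isOpenImmersion _
  refine Scheme.Hom.birationalOver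
    (Spec.map (CommRingCat.ofHom (algebraMap R₁ (Localization.Away f)))) _ _ ?_
  rw [← Spec.map_comp, ← CommRingCat.ofHom_comp]

lemma birationalOver_equiv (σ₁ : k →+* R₁) (σ₂ : k →+* R₂) (e : R₁ ≃+* R₂)
    (he : e.toRingHom.comp σ₁ = σ₂) :
    Scheme.BirationalOver (Spec.map (CommRingCat.ofHom σ₂)) (Spec.map (CommRingCat.ofHom σ₁)) := by
  have h1 : IsIso (Spec.map (CommRingCat.ofHom e.toRingHom)) := by
    have : IsIso (CommRingCat.ofHom e.toRingHom) := (e.toCommRingCatIso).isIso_hom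
    infer_instance
  refine Scheme.Hom.birationalOver (Spec.map (CommRingCat.ofHom e.toRingHom)) _ _ ?_
  rw [← Spec.map_comp, ← CommRingCat.ofHom_comp, he]

lemma birationalOver_of_localization [IsDomain R₁] [IsDomain R₂] (σ₁ : k →+* R₁) (σ₂ : k →+* R₂)
    {f : R₁} {g : R₂} (hf : f ≠ 0) (hg : g ≠ 0)
    (φ : R₁ →+* Localization.Away g) (ψ : R₂ →+* Localization.Away f)
    (hφ : IsUnit (φ f)) (hψ : IsUnit (ψ g))
    (hσ : φ.comp σ₁ = (algebraMap R₂ (Localization.Away g)).comp σ₂)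
    (h₁ : (IsLocalization.Away.lift (S := Localization.Away f) f hφ).comp ψ =
      algebraMap R₂ (Localization.Away g))
    (h₂ : (IsLocalization.Away.lift (S := Localization.Away g) g hψ).comp φ =
      algebraMap R₁ (Localization.Away f)) :
    Scheme.BirationalOver (Spec.map (CommRingCat.ofHom σ₁)) (Spec.map (CommRingCat.ofHom σ₂)) := by
  let Φ : Localization.Away f →+* Localization.Away g := IsLocalization.Away.lift f hφ
  let Ψ : Localization.Away g →+* Localization.Away f := IsLocalization.Away.lift g hψ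
  have hΦ : Φ.comp (algebraMap R₁ (Localization.Away f)) = φ := IsLocalization.Away.lift_comp f hφ
  have hΨ : Ψ.comp (algebraMap R₂ (Localization.Away g)) = ψ := IsLocalization.Away.lift_comp g hψ
  let e : Localization.Away f ≃+* Localization.Away g := RingEquiv.ofRingHom Φ Ψ
    (by
      apply IsLocalization.ringHom_ext (Submonoid.powers g)
      rw [RingHom.comp_assoc, hΨ, RingHom.id_comp]
      exact h₁)
    (by
      apply IsLocalization.ringHom_ext (Submonoid.powers f)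
      rw [RingHom.comp_assoc, hΦ, RingHom.id_comp]
      exact h₂)
  refine ((birationalOver_localization σ₁ hf).symm.trans ?_).trans
    (birationalOver_localization σ₂ hg)
  refine (birationalOver_equiv _ _ e ?_).symm
  rw [← RingHom.comp_assoc, ← hσ]
  congr 1

end general

section concrete

variable {k : Type u} [Field k]

/-- Rescaling the coordinate `w`. -/
noncomputable def scaleEquiv (ε δ : ℕ) {a : k} (ha : a ≠ 0) :
    Dy ε δ a ≃+* Dy ε δ (1 : k) :=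
  have h1 : Dy.sc ε δ (1 : k) a * Dy.sc ε δ (1 : k) a⁻¹ = 1 := by
    rw [← map_mul, mul_inv_cancel₀ ha, map_one]
  have h2 : Dy.sc ε δ a a * Dy.sc ε δ a a⁻¹ = 1 := by
    rw [← map_mul, mul_inv_cancel₀ ha, map_one]
  RingEquiv.ofRingHom
    (Dy.lift (Dy.sc ε δ (1 : k)) (Dy.uu ε δ 1) (Dy.yy ε δ 1)
      (Dy.sc ε δ (1 : k) a⁻¹ * Dy.ww ε δ 1) (by
        have h3 := Dy.eqn ε δ (1 : k)
        rw [map_one, one_mul] at h3
        rw [← mul_assoc, h1, one_mul, h3]))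
    (Dy.lift (Dy.sc ε δ a) (Dy.uu ε δ a) (Dy.yy ε δ a)
      (Dy.sc ε δ a a * Dy.ww ε δ a) (by
        rw [map_one, one_mul]
        exact Dy.eqn ε δ a))
    (by
      refine Dy.hom_ext (RingHom.ext fun s => ?_) ?_ ?_ ?_
      · simp only [RingHom.comp_apply, RingHom.id_apply, Dy.lift_sc]
      · simp only [RingHom.comp_apply, RingHom.id_apply, Dy.lift_uu]
      · simp only [RingHom.comp_apply, RingHom.id_apply, Dy.lift_yy]
      · simp only [RingHom.comp_apply, RingHom.id_apply, Dy.lift_ww, map_mul, Dy.lift_sc]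
        rw [← mul_assoc, h1, one_mul])
    (by
      refine Dy.hom_ext (RingHom.ext fun s => ?_) ?_ ?_ ?_
      · simp only [RingHom.comp_apply, RingHom.id_apply, Dy.lift_sc]
      · simp only [RingHom.comp_apply, RingHom.id_apply, Dy.lift_uu]
      · simp only [RingHom.comp_apply, RingHom.id_apply, Dy.lift_yy]
      · simp only [RingHom.comp_apply, RingHom.id_apply, Dy.lift_ww, map_mul, Dy.lift_sc]
        rw [← mul_assoc, mul_comm (Dy.sc ε δ a a⁻¹), h2, one_mul])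

lemma birationalOver_scale (ε δ : ℕ) {a : k} (ha : a ≠ 0) :
    Scheme.BirationalOver (Spec.map (CommRingCat.ofHom (Dy.sc ε δ (1 : k))))
      (Spec.map (CommRingCat.ofHom (Dy.sc ε δ a))) := by
  refine birationalOver_equiv _ _ (scaleEquiv ε δ ha) (RingHom.ext fun s => ?_)
  rw [RingHom.comp_apply, RingEquiv.toRingHom_eq_coe, RingEquiv.coe_toRingHom, scaleEquiv,
    RingEquiv.ofRingHom_apply, Dy.lift_sc]

/-- In characteristic two the fibres over `0` and `1` have isomorphic charts. -/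
noncomputable def charTwoEquiv (h2 : (2 : k) = 0) : Dy 1 0 (0 : k) ≃+* Dy 1 0 (1 : k) :=
  have h0 : (2 : Dy 1 0 (0 : k)) = 0 := by
    have := congrArg (Dy.sc 1 0 (0 : k)) h2
    rwa [map_ofNat, map_zero] at this
  have h1 : (2 : Dy 1 0 (1 : k)) = 0 := by
    have := congrArg (Dy.sc 1 0 (1 : k)) h2
    rwa [map_ofNat, map_zero] at this
  have e0 : Dy.yy 1 0 (0 : k) ^ 2 + Dy.yy 1 0 (0 : k) = Dy.uu 1 0 (0 : k) ^ 6 := by
    have := Dy.eqn 1 0 (0 : k)
    rw [map_zero] at this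
    push_cast at this
    linear_combination this
  have e1 : Dy.yy 1 0 (1 : k) ^ 2 + Dy.yy 1 0 (1 : k) =
      (Dy.uu 1 0 (1 : k) ^ 2 - Dy.ww 1 0 (1 : k)) ^ 3 := by
    have := Dy.eqn 1 0 (1 : k)
    rw [map_one] at this
    push_cast at this
    linear_combination this
  RingEquiv.ofRingHom
    (Dy.lift (Dy.sc 1 0 (1 : k)) (Dy.uu 1 0 1 ^ 2 - Dy.ww 1 0 1)
      (Dy.yy 1 0 1 + (Dy.uu 1 0 1 ^ 2 - Dy.ww 1 0 1) ^ 3) (Dy.uu 1 0 1) (by
        rw [map_zero, zero_mul]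
        push_cast
        linear_combination e1 + (Dy.uu 1 0 (1 : k) ^ 2 - Dy.ww 1 0 (1 : k)) ^ 3 *
          (Dy.yy 1 0 (1 : k) + 1) * h1))
    (Dy.lift (Dy.sc 1 0 (0 : k)) (Dy.ww 1 0 0) (Dy.yy 1 0 0 + Dy.uu 1 0 0 ^ 3)
      (Dy.ww 1 0 0 ^ 2 - Dy.uu 1 0 0) (by
        rw [map_one, one_mul]
        push_cast
        linear_combination e0 + (Dy.uu 1 0 (0 : k) ^ 6 + Dy.yy 1 0 (0 : k) *
          Dy.uu 1 0 (0 : k) ^ 3) * h0))
    (by
      refine Dy.hom_ext (RingHom.ext fun s => ?_) ?_ ?_ ?_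
      · simp only [RingHom.comp_apply, RingHom.id_apply, Dy.lift_sc]
      · simp only [RingHom.comp_apply, RingHom.id_apply, Dy.lift_uu, Dy.lift_ww]
      · simp only [RingHom.comp_apply, RingHom.id_apply, Dy.lift_yy, Dy.lift_uu, map_add, map_pow]
        linear_combination (Dy.uu 1 0 (1 : k) ^ 2 - Dy.ww 1 0 (1 : k)) ^ 3 * h1
      · simp only [RingHom.comp_apply, RingHom.id_apply, Dy.lift_ww, Dy.lift_uu, map_sub, map_pow]
        ring)
    (by
      refine Dy.hom_ext (RingHom.ext fun s => ?_) ?_ ?_ ?_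
      · simp only [RingHom.comp_apply, RingHom.id_apply, Dy.lift_sc]
      · simp only [RingHom.comp_apply, RingHom.id_apply, Dy.lift_uu, Dy.lift_ww, map_sub, map_pow]
        ring
      · simp only [RingHom.comp_apply, RingHom.id_apply, Dy.lift_yy, Dy.lift_uu, Dy.lift_ww,
          map_add, map_pow, map_sub]
        linear_combination (Dy.uu 1 0 (0 : k)) ^ 3 * h0
      · simp only [RingHom.comp_apply, RingHom.id_apply, Dy.lift_ww, Dy.lift_uu])

lemma birationalOver_charTwo (h2 : (2 : k) = 0) :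
    Scheme.BirationalOver (Spec.map (CommRingCat.ofHom (Dy.sc 1 0 (1 : k))))
      (Spec.map (CommRingCat.ofHom (Dy.sc 1 0 (0 : k)))) := by
  refine birationalOver_equiv _ _ (charTwoEquiv h2) (RingHom.ext fun s => ?_)
  rw [RingHom.comp_apply, RingEquiv.toRingHom_eq_coe, RingEquiv.coe_toRingHom, charTwoEquiv,
    RingEquiv.ofRingHom_apply, Dy.lift_sc]

end concrete

section identities

variable {E : Type*} [CommRing E]

lemma alg1 (z ρ X y p : E) (hz : z ^ 4 = -1) (hρ : ρ ^ 2 = 2) (e1 : y ^ 2 = X ^ 3 + X)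
    (hq : p * (1 - X) = 1) : (2 * ρ * z ^ 3 * y * (1 + X) * p ^ 3) ^ 2 =
      (z * (1 + X) * p) ^ 6 + (z * (1 + X) * p) ^ 2 := by
  linear_combination 4 * z ^ 6 * y ^ 2 * (1 + X) ^ 2 * p ^ 6 * hρ +
    8 * z ^ 6 * (1 + X) ^ 2 * p ^ 6 * e1 -
    z ^ 2 * (1 + X) ^ 2 * p ^ 2 * z ^ 4 *
      ((p * (1 - X)) ^ 3 + (p * (1 - X)) ^ 2 + (p * (1 - X)) + 1) * hq -
    z ^ 2 * (1 + X) ^ 2 * p ^ 2 * hz

lemma alg2 (z ρ u y s t : E) (hz : z ^ 4 = -1) (hρ : ρ ^ 2 = 2) (e0 : y ^ 2 = u ^ 6 + u ^ 2)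
    (hs : s * (u + z) = 1) (ht : t * u = 1) :
    (ρ * y * t * s ^ 2) ^ 2 = ((u - z) * s) ^ 3 + (u - z) * s := by
  linear_combination y ^ 2 * t ^ 2 * s ^ 4 * hρ + 2 * t ^ 2 * s ^ 4 * e0 +
    2 * (u ^ 4 + 1) * s ^ 4 * (t * u + 1) * ht + 2 * s ^ 4 * hz +
    (2 * (u - z) * s ^ 3 * (u ^ 2 + z ^ 2) + (u - z) * s * (s * (u + z) + 1)) * hs

lemma alg3 (z X p : E) (hq : p * (1 - X) = 1) : z * (1 + X) * p + z = 2 * z * p := by
  linear_combination (-z) * hq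

lemma alg3' (z X p : E) (hq : p * (1 - X) = 1) : z * (1 + X) * p - z = 2 * z * X * p := by
  linear_combination z * hq

lemma alg5 (z u s : E) (hs : s * (u + z) = 1) : 1 - (u - z) * s = 2 * z * s := by
  linear_combination -hs

lemma alg5' (z u s : E) (hs : s * (u + z) = 1) : 1 + (u - z) * s = 2 * u * s := by
  linear_combination -hs

end identities

section odd

variable {k : Type u} [Field k]

lemma birationalOver_odd (ζ r : k) (hζ : ζ ^ 4 = -1) (hr : r ^ 2 = 2) (h2 : (2 : k) ≠ 0)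
    [IsDomain (Dy 0 1 (0 : k))] [IsDomain (Dy 0 1 (1 : k))] :
    Scheme.BirationalOver (Spec.map (CommRingCat.ofHom (Dy.sc 0 1 (0 : k))))
      (Spec.map (CommRingCat.ofHom (Dy.sc 0 1 (1 : k)))) := by
  -- the functions to invert
  let f : Dy 0 1 (0 : k) := Dy.uu 0 1 0 * (Dy.uu 0 1 0 + Dy.sc 0 1 (0 : k) ζ)
  let g : Dy 0 1 (1 : k) := (1 - (Dy.uu 0 1 1 ^ 2 - Dy.ww 0 1 1)) *
    (1 + (Dy.uu 0 1 1 ^ 2 - Dy.ww 0 1 1))
  have hf : f ≠ 0 := mul_ne_zero Dy.uu_ne_zero (by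
    intro h
    have h1 := (Dy.indep (ε := 0) (δ := 1) (τ := (0 : k))
      (Polynomial.X + Polynomial.C (Polynomial.C ζ)) 0 (by
        rw [map_zero, zero_mul, add_zero, map_add]; exact h)).1
    have h3 := congrArg (fun p => Polynomial.coeff p 1) h1
    simp at h3)
  have hcc : ∀ e : (Polynomial k), (Polynomial.C e + cc (1 : k)) ≠ 0 := by
    intro e h1
    have h3 := congrArg (fun p => Polynomial.coeff p 2) h1
    simp [cc] at h3
  have hqc : Dy.qc 0 1 (1 : k) (cc (1 : k)) = Dy.uu 0 1 1 ^ 2 - Dy.ww 0 1 1 := by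
    rw [Dy.qc_cc, map_one, one_mul]
  have hg : g ≠ 0 := by
    refine mul_ne_zero ?_ ?_
    · intro h
      refine hcc (-1) (Dy.indep (ε := 0) (δ := 1) (τ := (1 : k)) _ 0 ?_).1
      rw [map_zero, zero_mul, add_zero, map_add, hqc, map_neg, map_neg, map_one, map_one]
      linear_combination -h
    · intro h
      refine hcc 1 (Dy.indep (ε := 0) (δ := 1) (τ := (1 : k)) _ 0 ?_).1
      rw [map_zero, zero_mul, add_zero, map_add, hqc, map_one, map_one]
      linear_combination h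
  -- the two localizations
  let α₁ := algebraMap (Dy 0 1 (0 : k)) (Localization.Away f)
  let α₂ := algebraMap (Dy 0 1 (1 : k)) (Localization.Away g)
  obtain ⟨fi, hfi⟩ : ∃ fi, α₁ f * fi = 1 := ⟨_, IsLocalization.Away.mul_invSelf f⟩
  obtain ⟨gi, hgi⟩ : ∃ gi, α₂ g * gi = 1 := ⟨_, IsLocalization.Away.mul_invSelf g⟩
  have hz₁ : α₁ (Dy.sc 0 1 0 ζ) ^ 4 = -1 := by
    rw [← map_pow, ← map_pow, hζ, map_neg, map_neg, map_one, map_one]
  have hz₂ : α₂ (Dy.sc 0 1 1 ζ) ^ 4 = -1 := by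
    rw [← map_pow, ← map_pow, hζ, map_neg, map_neg, map_one, map_one]
  have hr₁ : α₁ (Dy.sc 0 1 0 r) ^ 2 = 2 := by
    rw [← map_pow, ← map_pow, hr, map_ofNat, map_ofNat]
  have hr₂ : α₂ (Dy.sc 0 1 1 r) ^ 2 = 2 := by
    rw [← map_pow, ← map_pow, hr, map_ofNat, map_ofNat]
  have hh₁ : 2 * α₁ (Dy.sc 0 1 0 (2⁻¹)) = 1 := by
    rw [← map_ofNat α₁, ← map_ofNat (Dy.sc 0 1 (0 : k)), ← map_mul, ← map_mul,
      mul_inv_cancel₀ h2, map_one, map_one]
  have hh₂ : 2 * α₂ (Dy.sc 0 1 1 (2⁻¹)) = 1 := by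
    rw [← map_ofNat α₂, ← map_ofNat (Dy.sc 0 1 (1 : k)), ← map_mul, ← map_mul,
      mul_inv_cancel₀ h2, map_one, map_one]
  have e₁ : α₁ (Dy.yy 0 1 0) ^ 2 = α₁ (Dy.uu 0 1 0) ^ 6 + α₁ (Dy.uu 0 1 0) ^ 2 := by
    have := congrArg α₁ (Dy.eqn 0 1 (0 : k))
    rw [map_zero, zero_mul] at this
    simp only [map_add, map_mul, map_pow, map_sub, map_natCast, map_zero] at this
    push_cast at this
    linear_combination this
  have e₂ : α₂ (Dy.yy 0 1 1) ^ 2 = (α₂ (Dy.uu 0 1 1) ^ 2 - α₂ (Dy.ww 0 1 1)) ^ 3 +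
      (α₂ (Dy.uu 0 1 1) ^ 2 - α₂ (Dy.ww 0 1 1)) := by
    have := congrArg α₂ (Dy.eqn 0 1 (1 : k))
    rw [map_one, one_mul] at this
    simp only [map_add, map_mul, map_pow, map_sub, map_natCast] at this
    push_cast at this
    linear_combination this
  have hfi' : α₁ (Dy.uu 0 1 0) * (α₁ (Dy.uu 0 1 0) + α₁ (Dy.sc 0 1 0 ζ)) * fi = 1 := by
    rw [← map_add, ← map_mul]; exact hfi
  have hgi' : (1 - (α₂ (Dy.uu 0 1 1) ^ 2 - α₂ (Dy.ww 0 1 1))) *
      (1 + (α₂ (Dy.uu 0 1 1) ^ 2 - α₂ (Dy.ww 0 1 1))) * gi = 1 := by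
    have h3 : α₂ g = (1 - (α₂ (Dy.uu 0 1 1) ^ 2 - α₂ (Dy.ww 0 1 1))) *
        (1 + (α₂ (Dy.uu 0 1 1) ^ 2 - α₂ (Dy.ww 0 1 1))) := by
      simp only [g, map_add, map_mul, map_pow, map_sub, map_one]
    rw [← h3]; exact hgi
  -- abbreviations
  set z₁ := α₁ (Dy.sc 0 1 0 ζ) with hz₁d
  set z₂ := α₂ (Dy.sc 0 1 1 ζ) with hz₂d
  set r₁ := α₁ (Dy.sc 0 1 0 r) with hr₁d
  set r₂ := α₂ (Dy.sc 0 1 1 r) with hr₂d
  set u₁ := α₁ (Dy.uu 0 1 0) with hu₁d
  set y₁ := α₁ (Dy.yy 0 1 0) with hy₁d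
  set w₁ := α₁ (Dy.ww 0 1 0) with hw₁d
  set u₂ := α₂ (Dy.uu 0 1 1) with hu₂d
  set y₂ := α₂ (Dy.yy 0 1 1) with hy₂d
  set w₂ := α₂ (Dy.ww 0 1 1) with hw₂d
  set X₂ := u₂ ^ 2 - w₂ with hX₂
  -- inverses
  obtain ⟨p, hp⟩ : ∃ p, p * (1 - X₂) = 1 := ⟨(1 + X₂) * gi, by linear_combination hgi'⟩
  obtain ⟨q, hq⟩ : ∃ q, q * (1 + X₂) = 1 := ⟨(1 - X₂) * gi, by linear_combination hgi'⟩
  obtain ⟨s, hs⟩ : ∃ s, s * (u₁ + z₁) = 1 := ⟨u₁ * fi, by linear_combination hfi'⟩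
  obtain ⟨t, ht⟩ : ∃ t, t * u₁ = 1 := ⟨(u₁ + z₁) * fi, by linear_combination hfi'⟩
  -- the two homomorphisms
  let φ : Dy 0 1 (0 : k) →+* Localization.Away g := Dy.lift (α₂.comp (Dy.sc 0 1 1))
    (z₂ * (1 + X₂) * p) (2 * r₂ * z₂ ^ 3 * y₂ * (1 + X₂) * p ^ 3) u₂ (by
      rw [map_zero, zero_mul]
      push_cast
      linear_combination alg1 z₂ r₂ X₂ y₂ p hz₂ hr₂ e₂ hp)
  let ψ : Dy 0 1 (1 : k) →+* Localization.Away f := Dy.lift (α₁.comp (Dy.sc 0 1 0))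
    w₁ (r₁ * y₁ * t * s ^ 2) (w₁ ^ 2 - (u₁ - z₁) * s) (by
      rw [map_one, one_mul]
      push_cast
      linear_combination alg2 z₁ r₁ u₁ y₁ s t hz₁ hr₁ e₁ hs ht)
  have φsc : ∀ a, φ (Dy.sc 0 1 0 a) = α₂ (Dy.sc 0 1 1 a) := fun a => Dy.lift_sc _ _ _ _ _ a
  have ψsc : ∀ a, ψ (Dy.sc 0 1 1 a) = α₁ (Dy.sc 0 1 0 a) := fun a => Dy.lift_sc _ _ _ _ _ a
  have φu : φ (Dy.uu 0 1 0) = z₂ * (1 + X₂) * p := Dy.lift_uu _ _ _ _ _
  have φy : φ (Dy.yy 0 1 0) = 2 * r₂ * z₂ ^ 3 * y₂ * (1 + X₂) * p ^ 3 := Dy.lift_yy _ _ _ _ _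
  have φw : φ (Dy.ww 0 1 0) = u₂ := Dy.lift_ww _ _ _ _ _
  have ψu : ψ (Dy.uu 0 1 1) = w₁ := Dy.lift_uu _ _ _ _ _
  have ψy : ψ (Dy.yy 0 1 1) = r₁ * y₁ * t * s ^ 2 := Dy.lift_yy _ _ _ _ _
  have ψw : ψ (Dy.ww 0 1 1) = w₁ ^ 2 - (u₁ - z₁) * s := Dy.lift_ww _ _ _ _ _
  have hφ : IsUnit (φ f) := by
    have h3 : φ f = z₂ * (1 + X₂) * p * (2 * z₂ * p) := by
      rw [← alg3 z₂ X₂ p hp]
      simp only [f, map_mul, map_add, φu, φsc]
      rfl
    rw [h3]
    refine IsUnit.of_mul_eq_one (α₂ (Dy.sc 0 1 1 (2⁻¹)) * z₂ ^ 6 * q * (1 - X₂) ^ 2) ?_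
    linear_combination (z₂ ^ 8 * (q * (1 + X₂)) * (p * (1 - X₂)) ^ 2) * hh₂ +
      (z₂ ^ 4 - 1) * (q * (1 + X₂)) * (p * (1 - X₂)) ^ 2 * hz₂ +
      (p * (1 - X₂)) ^ 2 * hq + (p * (1 - X₂) + 1) * hp
  have hψ : IsUnit (ψ g) := by
    have h3 : ψ g = (2 * z₁ * s) * (2 * u₁ * s) := by
      rw [← alg5 z₁ u₁ s hs, ← alg5' z₁ u₁ s hs]
      simp only [g, map_mul, map_add, map_sub, map_pow, map_one, ψu, ψw]
      ring
    rw [h3]
    refine IsUnit.of_mul_eq_one (α₁ (Dy.sc 0 1 0 (2⁻¹)) ^ 2 * z₁ ^ 7 * t * (u₁ + z₁) ^ 2) ?_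
    linear_combination (2 * α₁ (Dy.sc 0 1 0 (2⁻¹)) + 1) * (z₁ ^ 8 * (t * u₁) *
        (s * (u₁ + z₁)) ^ 2) * hh₁ +
      (z₁ ^ 4 - 1) * (t * u₁) * (s * (u₁ + z₁)) ^ 2 * hz₁ +
      (s * (u₁ + z₁)) ^ 2 * ht + (s * (u₁ + z₁) + 1) * hs
  refine birationalOver_of_localization _ _ hf hg φ ψ hφ hψ (RingHom.ext φsc) ?_ ?_
  · have hΦ : ∀ x, (IsLocalization.Away.lift (S := Localization.Away f) f hφ) (α₁ x) = φ x :=
      IsLocalization.Away.lift_eq f hφ
    generalize (IsLocalization.Away.lift (S := Localization.Away f) f hφ) = Φ at hΦ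
    have hs' : Φ s * (2 * z₂ * p) = 1 := by
      rw [← alg3 z₂ X₂ p hp, ← φu, hz₂d, ← φsc, ← hΦ, ← hΦ, ← map_add, ← map_mul, ← hz₁d, ← hu₁d,
        hs, map_one]
    have ht' : Φ t * (z₂ * (1 + X₂) * p) = 1 := by
      rw [← φu, ← hΦ, ← map_mul, ← hu₁d, ht, map_one]
    refine Dy.hom_ext (RingHom.ext fun a => ?_) ?_ ?_ ?_
    · rw [RingHom.comp_apply, RingHom.comp_apply, RingHom.comp_apply, ψsc, hΦ, φsc]
    · rw [RingHom.comp_apply, ψu, hw₁d, hΦ, φw]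
    · rw [RingHom.comp_apply, ψy, map_mul, map_mul, map_mul, map_pow, hr₁d, hΦ, φsc, ← hr₂d, hy₁d,
        hΦ, φy]
      linear_combination 2 * z₂ ^ 3 * y₂ * (1 + X₂) * p ^ 3 * Φ t * Φ s ^ 2 * hr₂ +
        y₂ * (Φ s * (2 * z₂ * p)) ^ 2 * ht' + y₂ * (Φ s * (2 * z₂ * p) + 1) * hs'
    · rw [RingHom.comp_apply, ψw, map_sub, map_pow, map_mul, map_sub, hw₁d, hu₁d, hz₁d, hΦ, hΦ,
        hΦ, φw, φu, φsc, ← hz₂d, alg3' z₂ X₂ p hp]
      linear_combination -hX₂ - X₂ * hs'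
  · have hΨ : ∀ x, (IsLocalization.Away.lift (S := Localization.Away g) g hψ) (α₂ x) = ψ x :=
      IsLocalization.Away.lift_eq g hψ
    generalize (IsLocalization.Away.lift (S := Localization.Away g) g hψ) = Ψ at hΨ
    have hX' : Ψ X₂ = (u₁ - z₁) * s := by
      rw [hX₂, map_sub, map_pow, hu₂d, hw₂d, hΨ, hΨ, ψu, ψw]
      ring
    have hp' : Ψ p * (2 * z₁ * s) = 1 := by
      have := congrArg Ψ hp
      rwa [map_mul, map_sub, map_one, hX', alg5 z₁ u₁ s hs] at this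
    refine Dy.hom_ext (RingHom.ext fun a => ?_) ?_ ?_ ?_
    · rw [RingHom.comp_apply, RingHom.comp_apply, RingHom.comp_apply, φsc, hΨ, ψsc]
    · rw [RingHom.comp_apply, φu, map_mul, map_mul, map_add, map_one, hX', hz₂d, hΨ, ψsc, ← hz₁d,
        alg5' z₁ u₁ s hs]
      linear_combination u₁ * hp'
    · rw [RingHom.comp_apply, φy]
      simp only [map_mul, map_pow, map_add, map_one, map_ofNat]
      rw [hX', hr₂d, hz₂d, hy₂d, hΨ, hΨ, hΨ, ψsc, ψsc, ψy, ← hz₁d, ← hr₁d, alg5' z₁ u₁ s hs]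
      linear_combination 4 * z₁ ^ 3 * y₁ * t * u₁ * s ^ 3 * Ψ p ^ 3 * hr₁ +
        y₁ * (Ψ p * (2 * z₁ * s)) ^ 3 * ht +
        y₁ * ((Ψ p * (2 * z₁ * s)) ^ 2 + Ψ p * (2 * z₁ * s) + 1) * hp'
    · rw [RingHom.comp_apply, φw, hu₂d, hΨ, ψu]

end odd

section final

variable {k : Type u} [Field k] [IsAlgClosed k] {ε δ : ℕ} (hg : Good k ε δ)

include hg

lemma isDomain_DD : IsDomain (DD k ε δ) :=
  Dy_isDomain (Polynomial.C : k →+* Polynomial k) hg (Polynomial.X : Polynomial k)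

lemma isDomain_Dy (a : k) : IsDomain (Dy ε δ a) := Dy_isDomain (RingHom.id k) hg a

lemma birationalOver_one (a : k) :
    Scheme.BirationalOver (Spec.map (CommRingCat.ofHom (Dy.sc ε δ a)))
      (Spec.map (CommRingCat.ofHom (Dy.sc ε δ (1 : k)))) := by
  by_cases ha : a = 0
  · subst ha
    rcases hg with ⟨rfl, rfl, h2⟩ | ⟨rfl, rfl, h2⟩
    · obtain ⟨ζ, hζ⟩ := IsAlgClosed.exists_pow_nat_eq (-1 : k) (n := 4) (by norm_num)
      obtain ⟨r, hr⟩ := IsAlgClosed.exists_pow_nat_eq (2 : k) (n := 2) (by norm_num)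
      have := isDomain_Dy (Or.inl ⟨rfl, rfl, h2⟩ : Good k 0 1) (0 : k)
      have := isDomain_Dy (Or.inl ⟨rfl, rfl, h2⟩ : Good k 0 1) (1 : k)
      exact birationalOver_odd ζ r hζ hr h2
    · exact (birationalOver_charTwo h2).symm
  · exact (birationalOver_scale ε δ ha).symm

lemma birationalOver_fibres (b c : Spec (.of k) ⟶ BB k) (hb : b ≫ sBB k = 𝟙 _)
    (hc : c ≫ sBB k = 𝟙 _) :
    Scheme.BirationalOver (pullback.snd (fX k ε δ) b) (pullback.snd (fX k ε δ) c) := by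
  obtain ⟨b, rfl⟩ := exists_pt k b hb
  obtain ⟨c, rfl⟩ := exists_pt k c hc
  have := isDomain_DD hg
  have := isDomain_Dy hg b
  have := isDomain_Dy hg c
  have h : ∀ a : k, IsDomain (Dy ε δ a) →
      Scheme.BirationalOver (Spec.map (CommRingCat.ofHom (Dy.sc ε δ a)))
        (pullback.snd (fX k ε δ) (pt k a)) := by
    intro a ha
    exact Scheme.Hom.birationalOver (jZ k ε δ a) _ _ (jZ_snd k ε δ a)
  exact ((h b inferInstance).symm.trans ((birationalOver_one hg b).trans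
    (birationalOver_one hg c).symm)).trans (h c inferInstance)

omit [IsAlgClosed k] hg in
variable (k ε δ) in
/-- The data of the family. -/
noncomputable def FamData : FamilyData k where
  B := BB k
  sB := sBB k
  n := 3
  X := XX k ε δ
  incl := inclX k ε δ

/-- The family. -/
noncomputable def Fam : Family k where
  toFamilyData := FamData k ε δ
  isVariety_base := isVariety_base k
  isIntegral_total := by
    have := isDomain_DD hg
    exact (inferInstance : IsIntegral (XX k ε δ))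
  isClosedImmersion_incl := (inferInstance : IsClosedImmersion (inclX k ε δ))
  flat := by
    have := isDomain_DD hg
    exact flat_fX k ε δ
  isVariety_fibre := by
    intro b hb
    obtain ⟨b, rfl⟩ := exists_pt k b hb
    have := isDomain_DD hg
    have := isDomain_Dy hg b
    exact isVariety_fibre k ε δ b
  birational_fibres := birationalOver_fibres hg

end final

end Pool.Agent.H72.BT
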