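import Pool.Agent.H72.BT.PS

/-!
# The affine chart of the family as an immersion
-/

open CategoryTheory Limits AlgebraicGeometry

universe u

attribute [local instance] MvPolynomial.gradedAlgebra

namespace Pool.Agent.H72.BT

section closure

variable {S : Type*} [CommRing S] {ε δ : ℕ} {τ : S}

lemma Dy.exists_eq (d : Dy ε δ τ) :
    ∃ p q : Polynomial (Polynomial S), d = Dy.qc ε δ τ p + Dy.qc ε δ τ q * Dy.yy ε δ τ := by
  rcases subsingleton_or_nontrivial S with h | h
  · have : Subsingleton (Dy ε δ τ) := by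
      have h1 : (1 : Dy ε δ τ) = 0 := by
        rw [← map_one (Dy.sc ε δ τ), ← map_zero (Dy.sc ε δ τ)]
        congr 1
        exact Subsingleton.elim _ _
      exact subsingleton_of_zero_eq_one h1.symm
    exact ⟨0, 0, Subsingleton.elim _ _⟩
  · exact quad_exists (ε : Polynomial (Polynomial S)) (gg δ τ) d

lemma Dy.closure (R : Subring (Dy ε δ τ)) (hs : ∀ s, Dy.sc ε δ τ s ∈ R) (hu : Dy.uu ε δ τ ∈ R)
    (hy : Dy.yy ε δ τ ∈ R) (hw : Dy.ww ε δ τ ∈ R) : R = ⊤ := by
  rw [eq_top_iff]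
  rintro d -
  have h1 : ∀ p : Polynomial S, Dy.qc ε δ τ (Polynomial.C p) ∈ R := by
    intro p
    induction p using Polynomial.induction_on' with
    | add p q hp hq => rw [map_add, map_add]; exact R.add_mem hp hq
    | monomial n a =>
      rw [← Polynomial.C_mul_X_pow_eq_monomial, map_mul, map_mul, map_pow, map_pow]
      exact R.mul_mem (hs a) (R.pow_mem hw n)
  have h2 : ∀ p : Polynomial (Polynomial S), Dy.qc ε δ τ p ∈ R := by
    intro p
    induction p using Polynomial.induction_on' with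
    | add p q hp hq => rw [map_add]; exact R.add_mem hp hq
    | monomial n a =>
      rw [← Polynomial.C_mul_X_pow_eq_monomial, map_mul, map_pow]
      exact R.mul_mem (h1 a) (R.pow_mem hu n)
  obtain ⟨p, q, rfl⟩ := Dy.exists_eq d
  exact R.add_mem (h2 p) (R.mul_mem (h2 q) hy)

end closure

section chart

variable {k : Type u} [Field k] {S : Type u} [CommRing S] (φ : k →+* S) (ε δ : ℕ) (τ : S)

lemma isUnit_ev : IsUnit (ev φ ε δ τ (MvPolynomial.X 3)) := by
  rw [ev_three]; exact isUnit_one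

lemma X_mem (i : Fin (3 + 1)) : (MvPolynomial.X i : MvPolynomial (Fin (3 + 1)) k) ∈
    MvPolynomial.homogeneousSubmodule (Fin (3 + 1)) k 1 := MvPolynomial.isHomogeneous_X k i

/-- The morphism from the chart to projective space. -/
noncomputable def gP : Spec (.of (Dy ε δ τ)) ⟶ PSpace k 3 :=
  Ev (ev φ ε δ τ) (isUnit_ev φ ε δ τ) (X_mem 3) one_pos

lemma ev_comp_C : (ev φ ε δ τ).comp MvPolynomial.C = (Dy.sc ε δ τ).comp φ := by
  ext a
  exact ev_C φ ε δ τ a

lemma gP_toSpec : gP φ ε δ τ ≫ PSpace.toSpec k 3 =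
    Spec.map (CommRingCat.ofHom ((Dy.sc ε δ τ).comp φ)) := by
  rw [gP, Ev_toSpec, ev_comp_C]

lemma evA_mem (a : MvPolynomial (Fin (3 + 1)) k) (n : ℕ)
    (ha : a ∈ MvPolynomial.homogeneousSubmodule (Fin (3 + 1)) k n) :
    ev φ ε δ τ a ∈ (evA (MvPolynomial.homogeneousSubmodule (Fin (3 + 1)) k) (ev φ ε δ τ)
      (MvPolynomial.X 3) (isUnit_ev φ ε δ τ)).range := by
  have h1 := evA_spec (ev φ ε δ τ) (isUnit_ev φ ε δ τ) (X_mem 3) n a (by simpa using ha)
  rw [ev_three, one_pow, mul_one] at h1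
  exact ⟨_, h1⟩

/-- The affine chart of `B × ℙ³`. -/
noncomputable abbrev WW : Scheme.{u} :=
  pullback (Spec.map (CommRingCat.ofHom φ))
    (Proj.awayι (MvPolynomial.homogeneousSubmodule (Fin (3 + 1)) k) (MvPolynomial.X 3)
      (X_mem 3) one_pos ≫ PSpace.toSpec k 3)

/-- The inclusion of the chart of `B × ℙ³`. -/
noncomputable def cW : WW φ ⟶ pullback (Spec.map (CommRingCat.ofHom φ)) (PSpace.toSpec k 3) :=
  pullback.map _ _ _ _ (𝟙 _)
    (Proj.awayι (MvPolynomial.homogeneousSubmodule (Fin (3 + 1)) k) (MvPolynomial.X 3)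
      (X_mem 3) one_pos) (𝟙 _) (by simp) (by simp)

instance : IsOpenImmersion (cW φ) := by
  unfold cW
  infer_instance

/-- The inclusion of the chart of the family in the chart of `B × ℙ³`. -/
noncomputable def qW : Spec (.of (Dy ε δ τ)) ⟶ WW φ :=
  pullback.lift (Spec.map (CommRingCat.ofHom (Dy.sc ε δ τ)))
    (Spec.map (CommRingCat.ofHom (evA (MvPolynomial.homogeneousSubmodule (Fin (3 + 1)) k)
      (ev φ ε δ τ) (MvPolynomial.X 3) (isUnit_ev φ ε δ τ)))) (by
    have h1 := gP_toSpec φ ε δ τ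
    rw [gP, Ev, Category.assoc] at h1
    rw [h1, ← Spec.map_comp, ← CommRingCat.ofHom_comp])

instance : IsClosedImmersion (qW φ ε δ τ) := by
  apply IsClosedImmersion.of_surjective_of_isAffine
  let i := Scheme.ΓSpecIso (.of (Dy ε δ τ))
  let Aw := HomogeneousLocalization.Away
    (MvPolynomial.homogeneousSubmodule (Fin (3 + 1)) k) (MvPolynomial.X 3)
  have h0 : ∀ x : Aw, evA (MvPolynomial.homogeneousSubmodule (Fin (3 + 1)) k)
      (ev φ ε δ τ) (MvPolynomial.X 3) (isUnit_ev φ ε δ τ) x ∈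
        ((qW φ ε δ τ).appTop ≫ i.hom).hom.range := by
    intro x
    refine ⟨((Scheme.ΓSpecIso (.of Aw)).inv ≫ (pullback.snd _ _ : WW φ ⟶ _).appTop).hom x, ?_⟩
    have h2 : ((Scheme.ΓSpecIso (.of Aw)).inv ≫ (pullback.snd _ _ : WW φ ⟶ _).appTop) ≫
        ((qW φ ε δ τ).appTop ≫ i.hom) =
        CommRingCat.ofHom (evA (MvPolynomial.homogeneousSubmodule (Fin (3 + 1)) k)
          (ev φ ε δ τ) (MvPolynomial.X 3) (isUnit_ev φ ε δ τ)) := by
      rw [Category.assoc, ← Category.assoc (Scheme.Hom.appTop _), ← Scheme.Hom.comp_appTop,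
        qW, pullback.lift_snd]
      simp [i, Scheme.ΓSpecIso_naturality]
    exact congrArg (fun f => f.hom x) h2
  have h00 : ∀ (a : MvPolynomial (Fin (3 + 1)) k) (n : ℕ),
      a ∈ MvPolynomial.homogeneousSubmodule (Fin (3 + 1)) k n →
      ev φ ε δ τ a ∈ ((qW φ ε δ τ).appTop ≫ i.hom).hom.range := by
    intro a n ha
    obtain ⟨x, hx⟩ := evA_mem φ ε δ τ a n ha
    rw [← hx]
    exact h0 x
  have h1 : Function.Surjective ((qW φ ε δ τ).appTop ≫ i.hom).hom := by
    rw [← RingHom.range_eq_top]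
    apply Dy.closure
    · intro s
      refine ⟨((Scheme.ΓSpecIso (.of S)).inv ≫ (pullback.fst _ _ : WW φ ⟶ _).appTop).hom s, ?_⟩
      have h2 : ((Scheme.ΓSpecIso (.of S)).inv ≫ (pullback.fst _ _ : WW φ ⟶ _).appTop) ≫
          ((qW φ ε δ τ).appTop ≫ i.hom) = CommRingCat.ofHom (Dy.sc ε δ τ) := by
        rw [Category.assoc, ← Category.assoc (Scheme.Hom.appTop _), ← Scheme.Hom.comp_appTop,
          qW, pullback.lift_fst]
        simp [i, Scheme.ΓSpecIso_naturality]
      exact congrArg (fun f => f.hom s) h2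
    · rw [← ev_zero φ]; exact h00 _ 1 (X_mem 0)
    · rw [← ev_one φ]; exact h00 _ 1 (X_mem 1)
    · rw [← ev_two φ]; exact h00 _ 1 (X_mem 2)
  intro y
  obtain ⟨x, hx⟩ := h1 (i.hom y)
  refine ⟨x, ?_⟩
  have h3 := congrArg i.inv.hom hx
  have h4 : ∀ z, i.inv.hom (i.hom.hom z) = z := fun z => by
    rw [← RingHom.comp_apply, ← CommRingCat.hom_comp, Iso.hom_inv_id]; rfl
  rw [CommRingCat.hom_comp, RingHom.comp_apply, h4] at h3
  exact h3.trans (h4 y)

/-- The immersion of the chart of the family in `B × ℙ³`. -/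
noncomputable def gg3 : Spec (.of (Dy ε δ τ)) ⟶
    pullback (Spec.map (CommRingCat.ofHom φ)) (PSpace.toSpec k 3) := qW φ ε δ τ ≫ cW φ

instance : IsImmersion (gg3 φ ε δ τ) := by
  unfold gg3; infer_instance

lemma cW_fst : cW φ ≫ pullback.fst _ _ = pullback.fst _ _ := by
  unfold cW
  exact (pullback.lift_fst _ _ _).trans (Category.comp_id _)

lemma cW_snd : cW φ ≫ pullback.snd _ _ = pullback.snd _ _ ≫
    (Proj.awayι (MvPolynomial.homogeneousSubmodule (Fin (3 + 1)) k) (MvPolynomial.X 3)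
      (X_mem 3) one_pos) := by
  unfold cW
  exact pullback.lift_snd _ _ _

lemma gg3_fst : gg3 φ ε δ τ ≫ pullback.fst _ _ = Spec.map (CommRingCat.ofHom (Dy.sc ε δ τ)) := by
  rw [gg3, Category.assoc, cW_fst, qW, pullback.lift_fst]

lemma gg3_snd : gg3 φ ε δ τ ≫ pullback.snd _ _ = gP φ ε δ τ := by
  rw [gg3, Category.assoc, cW_snd, qW, pullback.lift_snd_assoc]
  rfl

instance : QuasiCompact (gg3 φ ε δ τ) := by
  have h1 : QuasiCompact (gg3 φ ε δ τ ≫ pullback.fst _ _) := by
    rw [gg3_fst]; infer_instance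
  exact QuasiCompact.of_comp _ (pullback.fst _ _)

end chart

section chartk

variable {k : Type u} [Field k] (ε δ : ℕ) (a : k)

instance : IsImmersion (gP (RingHom.id k) ε δ a) := by
  have h1 : IsClosedImmersion (Spec.map (CommRingCat.ofHom
      (evA (MvPolynomial.homogeneousSubmodule (Fin (3 + 1)) k)
      (ev (RingHom.id k) ε δ a) (MvPolynomial.X 3) (isUnit_ev (RingHom.id k) ε δ a)))) := by
    apply IsClosedImmersion.spec_of_surjective
    change Function.Surjective (evA (MvPolynomial.homogeneousSubmodule (Fin (3 + 1)) k)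
      (ev (RingHom.id k) ε δ a) (MvPolynomial.X 3) (isUnit_ev (RingHom.id k) ε δ a))
    rw [← RingHom.range_eq_top]
    apply Dy.closure
    · intro s
      have := evA_mem (RingHom.id k) ε δ a (MvPolynomial.C s) 0 (MvPolynomial.isHomogeneous_C _ _)
      rwa [ev_C] at this
    · rw [← ev_zero (RingHom.id k)]; exact evA_mem _ _ _ _ _ 1 (X_mem 0)
    · rw [← ev_one (RingHom.id k)]; exact evA_mem _ _ _ _ _ 1 (X_mem 1)
    · rw [← ev_two (RingHom.id k)]; exact evA_mem _ _ _ _ _ 1 (X_mem 2)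
  unfold gP Ev
  infer_instance

instance : QuasiCompact (gP (RingHom.id k) ε δ a) := by
  have h1 : QuasiCompact (gP (RingHom.id k) ε δ a ≫ PSpace.toSpec k 3) := by
    rw [gP_toSpec]; infer_instance
  exact QuasiCompact.of_comp _ (PSpace.toSpec k 3)

end chartk

end Pool.Agent.H72.BT
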