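import Mathlib

/-!
# Families of projective varieties and birational trivializations

All schemes are over a field `k`.  The `k`-points of a `k`-scheme are the sections of its
structure morphism.
-/

open CategoryTheory Limits AlgebraicGeometry

universe u

attribute [local instance] MvPolynomial.gradedAlgebra

namespace Pool.Agent.H72.BT

section schemes

variable {X Y Z : Scheme.{u}}

/-- The fibre product `X ×_Z Y`. -/
noncomputable abbrev FP (f : X ⟶ Z) (g : Y ⟶ Z) : Scheme.{u} := pullback f g

/-- The first projection `X ×_Z Y → X`. -/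
noncomputable abbrev FP.fst (f : X ⟶ Z) (g : Y ⟶ Z) : FP f g ⟶ X := pullback.fst f g

/-- The second projection `X ×_Z Y → Y`. -/
noncomputable abbrev FP.snd (f : X ⟶ Z) (g : Y ⟶ Z) : FP f g ⟶ Y := pullback.snd f g

end schemes

variable (k : Type u) [Field k]

/-- The spectrum of the ground field. -/
noncomputable abbrev Pt : Scheme.{u} := Spec (.of k)

/-- Projective `n`-space over the field `k`. -/
noncomputable abbrev PSpace (n : ℕ) : Scheme.{u} :=
  Proj (MvPolynomial.homogeneousSubmodule (Fin (n + 1)) k)

/-- The structure morphism of projective `n`-space. -/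
noncomputable def PSpace.toSpec (n : ℕ) : PSpace k n ⟶ Pt k :=
  Proj.toSpecZero (MvPolynomial.homogeneousSubmodule (Fin (n + 1)) k) ≫
    Spec.map (CommRingCat.ofHom
      (algebraMap k (MvPolynomial.homogeneousSubmodule (Fin (n + 1)) k 0)))

variable {k}

/-- `V` is a variety over `k`: integral, separated and of finite type. -/
structure IsVariety {V : Scheme.{u}} (s : V ⟶ Pt k) : Prop where
  isIntegral : IsIntegral V
  isSeparated : IsSeparated s
  locallyOfFiniteType : LocallyOfFiniteType s
  quasiCompact : QuasiCompact s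

variable (k)

/-- The data of a family: a scheme `X` with a morphism to `B × ℙⁿ`. -/
structure FamilyData where
  /-- the base -/
  B : Scheme.{u}
  /-- the structure morphism of the base -/
  sB : B ⟶ Pt k
  /-- the dimension of the ambient projective space -/
  n : ℕ
  /-- the total space -/
  X : Scheme.{u}
  /-- the inclusion `X ⊆ B × ℙⁿ` -/
  incl : X ⟶ FP sB (PSpace.toSpec k n)

variable {k}

/-- The family as a morphism `f : X → B`. -/
noncomputable def FamilyData.f (F : FamilyData k) : F.X ⟶ F.B :=
  F.incl ≫ FP.fst F.sB (PSpace.toSpec k F.n)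

variable (k)

/-- A projective flat family `f : X → B` with `X ⊆ B × ℙⁿ` closed and integral, over a base
variety `B`, all of whose fibres over `k`-points are varieties, birational to one another
over `k`. -/
structure Family extends FamilyData k where
  isVariety_base : IsVariety sB
  isIntegral_total : IsIntegral X
  isClosedImmersion_incl : IsClosedImmersion incl
  flat : Flat toFamilyData.f
  isVariety_fibre : ∀ b : Pt k ⟶ B, b ≫ sB = 𝟙 _ → IsVariety (FP.snd toFamilyData.f b)
  birational_fibres : ∀ b c : Pt k ⟶ B, b ≫ sB = 𝟙 _ → c ≫ sB = 𝟙 _ →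
    Scheme.BirationalOver (FP.snd toFamilyData.f b) (FP.snd toFamilyData.f c)

variable {k}

/-- A birational trivialization of the family `F` at the point `b` of the base, with model
`s₀ : X₀ → Spec k`. -/
structure Trivialization (F : Family k) (b : Pt k ⟶ F.B) {X₀ : Scheme.{u}}
    (s₀ : X₀ ⟶ Pt k) where
  /-- a Zariski open subset of the base (containing `b`, by `comp_b'`) -/
  U : F.B.Opens
  /-- an irreducible variety `B'` -/
  B' : Scheme.{u}
  /-- a finite surjective morphism `B' → U` -/
  π : B' ⟶ U.toScheme
  isFinite : IsFinite π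
  surjective : Surjective π
  isVariety : IsVariety (π ≫ U.ι ≫ F.sB)
  /-- a point `b'` of `B'` -/
  b' : Pt k ⟶ B'
  /-- `b'` lies over `b` -/
  comp_b' : b' ≫ π ≫ U.ι = b
  /-- an isomorphism between a dense open subset of `X ×_B B'` and a dense open subset of
  `B' × X₀` -/
  Φ : Scheme.PartialIso (FP F.f (π ≫ U.ι)) (FP (π ≫ U.ι ≫ F.sB) s₀)
  /-- `Φ` is a map over `B'` -/
  isOver : Φ.IsOver (FP.snd F.f (π ≫ U.ι)) (FP.fst (π ≫ U.ι ≫ F.sB) s₀)
  /-- the generic point of the fibre of `X ×_B B'` over `b'` -/
  η : (FP F.f (π ≫ U.ι) : Scheme.{u})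
  isGenericPoint : IsGenericPoint η
    (⇑(FP.snd F.f (π ≫ U.ι)) ⁻¹' {b' (IsLocalRing.closedPoint k)})
  /-- `Φ` is defined at `η` -/
  mem_source : η ∈ Φ.source

end Pool.Agent.H72.BT
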