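import Pool.Agent.H72.BT.Alg

/-!
# Integrality of the coordinate rings and the key algebraic statement
-/

open Polynomial

namespace Pool.Agent.H72.BT

section dom

variable {k : Type*} [Field k] [IsAlgClosed k] {S : Type*} [CommRing S] [IsDomain S]
  (φ : k →+* S) {ε δ : ℕ} (hg : Good k ε δ)

include φ hg

lemma Cr_isDomain : IsDomain (Cr S ε δ) := by
  let K := FractionRing S
  let M := FractionRing K[X]
  let i : S[X] →+* M := (algebraMap K[X] M).comp (mapRingHom (algebraMap S K))
  have hi : Function.Injective i :=
    (IsFractionRing.injective K[X] M).comp (map_injective _ (IsFractionRing.injective S K))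
  refine quad_isDomain i hi _ _ ?_
  intro r hr
  have e : r ^ 2 + ε * r = (algebraMap K[X] M X) ^ 3 + δ * (algebraMap K[X] M X) := by
    rw [map_natCast] at hr
    rw [hr, map_add, map_pow, map_mul, map_natCast]
    simp only [i, RingHom.comp_apply, coe_mapRingHom, map_X]
  obtain ⟨a, ha⟩ := const_of_curve (L := K) (M := M) ((algebraMap S K).comp φ) hg _ _ e
  have h1 := IsFractionRing.injective K[X] M ha
  have h2 := congrArg natDegree h1
  rw [natDegree_X, natDegree_C] at h2
  exact absurd h2 one_ne_zero

lemma Dy_isDomain (τ : S) : IsDomain (Dy ε δ τ) := by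
  let L := FractionRing S[X]
  let M := FractionRing L[X]
  let i : S[X][X] →+* M := (algebraMap L[X] M).comp (mapRingHom (algebraMap S[X] L))
  have hi : Function.Injective i :=
    (IsFractionRing.injective L[X] M).comp (map_injective _ (IsFractionRing.injective S[X] L))
  refine quad_isDomain i hi _ _ ?_
  intro r hr
  have e : r ^ 2 + ε * r = (i (cc τ)) ^ 3 + δ * (i (cc τ)) := by
    rw [map_natCast] at hr
    rw [hr, gg, map_add, map_pow, map_mul, map_natCast]
  obtain ⟨a, ha⟩ := const_of_curve (L := L) (M := M) ((algebraMap S[X] L).comp (C.comp φ)) hg _ _ e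
  have h1 : mapRingHom (algebraMap S[X] L) (cc τ) = C a := IsFractionRing.injective L[X] M ha
  have h2 := congrArg natDegree h1
  rw [natDegree_C] at h2
  have h3 : (mapRingHom (algebraMap S[X] L) (cc τ)).natDegree = 2 := by
    have : mapRingHom (algebraMap S[X] L) (cc τ) = X ^ 2 - C (algebraMap S[X] L (C τ * X)) := by
      rw [cc, map_sub, map_pow]
      simp only [coe_mapRingHom, map_X, map_C]
    rw [this]
    exact natDegree_X_pow_sub_C
  rw [h3] at h2
  exact absurd h2 two_ne_zero

end dom

end Pool.Agent.H72.BT
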