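import Mathlib

/-!
# Points of `Proj` with values in a ring

A ring homomorphism `e : A → E` from a graded ring and a homogeneous element `x` of positive
degree whose image in `E` is a unit give a morphism `Spec E → Proj A`, which does not depend
on `x`.
-/

open CategoryTheory Limits AlgebraicGeometry HomogeneousLocalization

universe u

namespace Pool.Agent.H72.BT

section ev

variable {A : Type u} [CommRing A] {σ : Type*} [SetLike σ A] [AddSubgroupClass σ A]
  (𝒜 : ℕ → σ) [GradedRing 𝒜] {E : Type u} [CommRing E] (e : A →+* E)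

/-- The ring homomorphism `a / xⁿ ↦ e a / (e x)ⁿ`. -/
noncomputable def evA (x : A) (hx : IsUnit (e x)) : Away 𝒜 x →+* E :=
  (IsLocalization.Away.lift x hx : Localization.Away x →+* E).comp
    (algebraMap (Away 𝒜 x) (Localization.Away x))

variable {𝒜}

lemma evA_spec {x : A} (hx : IsUnit (e x)) {d : ℕ} (hd : x ∈ 𝒜 d) (n : ℕ) (a : A)
    (ha : a ∈ 𝒜 (n • d)) : evA 𝒜 e x hx (Away.mk 𝒜 hd n a ha) * e x ^ n = e a := by
  have h1 : algebraMap (Away 𝒜 x) (Localization.Away x) (Away.mk 𝒜 hd n a ha) *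
      algebraMap A (Localization.Away x) (x ^ n) = algebraMap A (Localization.Away x) a := by
    rw [HomogeneousLocalization.algebraMap_apply, Away.val_mk, Localization.mk_eq_mk']
    exact IsLocalization.mk'_spec _ a (⟨x ^ n, n, rfl⟩ : Submonoid.powers x)
  have h2 := congrArg (IsLocalization.Away.lift x hx : Localization.Away x →+* E) h1
  rw [map_mul, IsLocalization.Away.lift_eq, IsLocalization.Away.lift_eq, map_pow] at h2
  exact h2

lemma evA_awayMap {x g y : A} (hx : IsUnit (e x)) (hy : IsUnit (e y))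
    {d d' : ℕ} (hd : x ∈ 𝒜 d) (hg : g ∈ 𝒜 d') (hxy : y = x * g) :
    (evA 𝒜 e y hy).comp (awayMap 𝒜 hg hxy) = evA 𝒜 e x hx := by
  ext a
  obtain ⟨n, a, ha, rfl⟩ := Away.mk_surjective 𝒜 hd a
  rw [RingHom.comp_apply, awayMap_mk (𝒜 := 𝒜) hg hxy n hd a ha]
  have h1 := evA_spec e hx hd n a ha
  have h2 := evA_spec e hy (hxy ▸ SetLike.mul_mem_graded hd hg) n (a * g ^ n)
    (by rw [smul_add]; exact SetLike.mul_mem_graded ha (SetLike.pow_mem_graded n hg))
  apply (hy.pow n).mul_right_cancel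
  rw [h2, hxy, map_mul, map_mul, map_pow, mul_pow, ← mul_assoc, h1]

variable {e}

lemma comp_evA {E' : Type u} [CommRing E'] (φ : E →+* E') {x : A} (hx : IsUnit (e x))
    (hx' : IsUnit (φ.comp e x)) :
    φ.comp (evA 𝒜 e x hx) = evA 𝒜 (φ.comp e) x hx' := by
  unfold evA
  rw [← RingHom.comp_assoc]
  congr 1
  apply IsLocalization.ringHom_ext (Submonoid.powers x)
  ext a
  simp only [RingHom.comp_apply, IsLocalization.Away.lift_eq]

variable (e)

/-- The morphism `Spec E → Proj A` defined by `e`. -/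
noncomputable def Ev {x : A} (hx : IsUnit (e x)) {d : ℕ} (hd : x ∈ 𝒜 d) (h0 : 0 < d) :
    Spec (.of E) ⟶ Proj 𝒜 :=
  Spec.map (CommRingCat.ofHom (evA 𝒜 e x hx)) ≫ Proj.awayι 𝒜 x hd h0

lemma Ev_mul {x g y : A} (hx : IsUnit (e x)) (hy : IsUnit (e y))
    {d d' d'' : ℕ} (hd : x ∈ 𝒜 d) (h0 : 0 < d) (hg : g ∈ 𝒜 d') (hxy : y = x * g)
    (hdy : y ∈ 𝒜 d'') (h0' : 0 < d'') (hdd : d'' = d + d') :
    Ev e hx hd h0 = Ev e hy hdy h0' := by
  subst hdd
  unfold Ev
  rw [← evA_awayMap e hx hy hd hg hxy, CommRingCat.ofHom_comp, Spec.map_comp, Category.assoc,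
    Proj.SpecMap_awayMap_awayι 𝒜 hd h0 hg hxy]

/-- The morphism does not depend on the chart. -/
lemma Ev_eq {x y : A} (hx : IsUnit (e x)) (hy : IsUnit (e y))
    {d d' : ℕ} (hd : x ∈ 𝒜 d) (h0 : 0 < d) (hd' : y ∈ 𝒜 d') (h0' : 0 < d') :
    Ev e hx hd h0 = Ev e hy hd' h0' := by
  have hxy : IsUnit (e (x * y)) := by rw [map_mul]; exact hx.mul hy
  rw [Ev_mul e hx hxy hd h0 hd' rfl (SetLike.mul_mem_graded hd hd') (by lia) rfl,
    Ev_mul e hy hxy hd' h0' hd (mul_comm x y) (SetLike.mul_mem_graded hd hd') (by lia)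
      (add_comm d d')]

lemma comp_Ev {E' : Type u} [CommRing E'] (φ : E →+* E') {x : A} (hx : IsUnit (e x))
    {d : ℕ} (hd : x ∈ 𝒜 d) (h0 : 0 < d) (hx' : IsUnit (φ.comp e x)) :
    Spec.map (CommRingCat.ofHom φ) ≫ Ev e hx hd h0 = Ev (φ.comp e) hx' hd h0 := by
  unfold Ev
  rw [← comp_evA φ hx hx', CommRingCat.ofHom_comp, Spec.map_comp, Category.assoc]

end ev

end Pool.Agent.H72.BT
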