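import Pool.Agent.H72.BT.Ev

/-!
# Values of sections of the structure sheaf of `Proj` at ring-valued points
-/

open CategoryTheory Limits AlgebraicGeometry HomogeneousLocalization

universe u

namespace Pool.Agent.H72.BT

section ev

variable {A : Type u} [CommRing A] {σ : Type*} [SetLike σ A] [AddSubgroupClass σ A]
  {𝒜 : ℕ → σ} [GradedRing 𝒜] {E : Type u} [CommRing E] (e : A →+* E)

lemma awayι_le {x : A} {d : ℕ} (hd : x ∈ 𝒜 d) (h0 : 0 < d) :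
    (⊤ : (Spec (.of (Away 𝒜 x))).Opens) ≤ Proj.awayι 𝒜 x hd h0 ⁻¹ᵁ (Proj.basicOpen 𝒜 x) := by
  rw [← Proj.opensRange_awayι 𝒜 x hd h0, Scheme.Hom.preimage_opensRange]

lemma awayι_appLE {x : A} {d : ℕ} (hd : x ∈ 𝒜 d) (h0 : 0 < d) :
    Proj.awayToSection 𝒜 x ≫ (Proj.awayι 𝒜 x hd h0).appLE (Proj.basicOpen 𝒜 x) ⊤
      (awayι_le hd h0) = (Scheme.ΓSpecIso _).inv := by
  have h1 : (Proj.basicOpenIsoSpec 𝒜 x hd h0).hom.appTop =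
      (Scheme.ΓSpecIso _).hom ≫ Proj.awayToSection 𝒜 x ≫ (Proj.basicOpen 𝒜 x).topIso.inv :=
    Proj.basicOpenToSpec_app_top 𝒜 x
  have h2 : (Proj.basicOpenIsoSpec 𝒜 x hd h0).hom.appTop ≫
      (Proj.basicOpenIsoSpec 𝒜 x hd h0).inv.appTop = 𝟙 _ := by
    rw [← Scheme.Hom.comp_appTop, Iso.inv_hom_id, Scheme.Hom.id_appTop]
  have h3 : (Proj.awayι 𝒜 x hd h0).appLE (Proj.basicOpen 𝒜 x) ⊤ (awayι_le hd h0) =
      (Proj.basicOpen 𝒜 x).topIso.inv ≫ (Proj.basicOpenIsoSpec 𝒜 x hd h0).inv.appTop := by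
    unfold Proj.awayι
    have h4 := Scheme.Hom.appLE_comp_appLE (Proj.basicOpenIsoSpec 𝒜 x hd h0).inv
      (Proj.basicOpen 𝒜 x).ι (Proj.basicOpen 𝒜 x) ⊤ ⊤ (by simp) le_top
    rw [← h4]
    congr 1
  rw [h3]
  have h5 : Proj.awayToSection 𝒜 x ≫ (Proj.basicOpen 𝒜 x).topIso.inv =
      (Scheme.ΓSpecIso _).inv ≫ (Proj.basicOpenIsoSpec 𝒜 x hd h0).hom.appTop := by
    rw [h1, Iso.inv_hom_id_assoc]
  rw [reassoc_of% h5, h2]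
  exact Category.comp_id _

lemma Ev_le {x : A} (hx : IsUnit (e x)) {d : ℕ} (hd : x ∈ 𝒜 d) (h0 : 0 < d) :
    (⊤ : (Spec (.of E)).Opens) ≤ Ev e hx hd h0 ⁻¹ᵁ (Proj.basicOpen 𝒜 x) := by
  unfold Ev
  rw [Scheme.Hom.comp_preimage]
  exact le_trans (by simp) ((Spec.map (CommRingCat.ofHom (evA 𝒜 e x hx))).preimage_mono
    (awayι_le hd h0))

lemma Ev_appLE {x : A} (hx : IsUnit (e x)) {d : ℕ} (hd : x ∈ 𝒜 d) (h0 : 0 < d) :
    Proj.awayToSection 𝒜 x ≫ (Ev e hx hd h0).appLE (Proj.basicOpen 𝒜 x) ⊤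
      (Ev_le e hx hd h0) = CommRingCat.ofHom (evA 𝒜 e x hx) ≫ (Scheme.ΓSpecIso _).inv := by
  have h4 := Scheme.Hom.appLE_comp_appLE (Spec.map (CommRingCat.ofHom (evA 𝒜 e x hx)))
      (Proj.awayι 𝒜 x hd h0) (Proj.basicOpen 𝒜 x) ⊤ ⊤ (awayι_le hd h0) le_top
  have h5 : (Ev e hx hd h0).appLE (Proj.basicOpen 𝒜 x) ⊤ (Ev_le e hx hd h0) = 
      (Proj.awayι 𝒜 x hd h0).appLE (Proj.basicOpen 𝒜 x) ⊤ (awayι_le hd h0) ≫
      (Spec.map (CommRingCat.ofHom (evA 𝒜 e x hx))).appTop := by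
    have h6 : (Spec.map (CommRingCat.ofHom (evA 𝒜 e x hx))).appTop =
        (Spec.map (CommRingCat.ofHom (evA 𝒜 e x hx))).appLE ⊤ ⊤ le_top :=
      Scheme.Hom.app_eq_appLE _
    rw [h6, h4]
    rfl
  rw [h5, reassoc_of% (awayι_appLE (𝒜 := 𝒜) hd h0)]
  exact (Scheme.ΓSpecIso_inv_naturality _).symm

end ev

end Pool.Agent.H72.BT
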