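import Pool.Agent.H72.BT.Alg2
import Pool.Agent.H72.BT.Bir

/-!
# The special fibre maps to the elliptic curve by a linear fractional function of `u`
-/

open Polynomial

namespace Pool.Agent.H72.BT

universe u

lemma exists_xy {k : Type u} [Field k] [IsAlgClosed k] {ε δ : ℕ} (hg : Good k ε δ) {κ : Type u}
    [Field κ] (ι : Dy ε δ (0 : k) →+* κ) (hι : Function.Injective ι) :
    ∃ (x y : κ) (a b c d : k), y ^ 2 + ε * y = x ^ 3 + δ * x ∧ a * d - b * c ≠ 0 ∧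
      (ι (Dy.sc ε δ 0 a) * ι (Dy.uu ε δ 0) + ι (Dy.sc ε δ 0 b)) * x =
        ι (Dy.sc ε δ 0 c) * ι (Dy.uu ε δ 0) + ι (Dy.sc ε δ 0 d) := by
  have e0 := congrArg ι (Dy.eqn ε δ (0 : k))
  rw [map_zero, zero_mul] at e0
  simp only [map_add, map_mul, map_pow, map_sub, map_natCast, map_zero] at e0
  rcases hg with ⟨rfl, rfl, h2⟩ | ⟨rfl, rfl, h2⟩
  · obtain ⟨ζ, hζ⟩ := IsAlgClosed.exists_pow_nat_eq (-1 : k) (n := 4) (by norm_num)
    obtain ⟨r, hr⟩ := IsAlgClosed.exists_pow_nat_eq (2 : k) (n := 2) (by norm_num)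
    have hζ0 : ζ ≠ 0 := by
      rintro rfl
      rw [zero_pow (by norm_num)] at hζ
      exact one_ne_zero (neg_eq_zero.1 hζ.symm)
    have hz : ι (Dy.sc 0 1 0 ζ) ^ 4 = -1 := by
      rw [← map_pow, ← map_pow, hζ, map_neg, map_neg, map_one, map_one]
    have hr' : ι (Dy.sc 0 1 0 r) ^ 2 = 2 := by
      rw [← map_pow, ← map_pow, hr, map_ofNat, map_ofNat]
    have hu : ι (Dy.uu 0 1 (0 : k)) ≠ 0 := by
      rw [Ne, map_eq_zero_iff ι hι]
      exact Dy.uu_ne_zero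
    have huz : ι (Dy.uu 0 1 (0 : k)) + ι (Dy.sc 0 1 0 ζ) ≠ 0 := by
      rw [← map_add, Ne, map_eq_zero_iff ι hι]
      intro h
      have h1 := (Dy.indep (ε := 0) (δ := 1) (τ := (0 : k))
        (Polynomial.X + Polynomial.C (Polynomial.C ζ)) 0 (by
          rw [map_zero, zero_mul, add_zero, map_add]; exact h)).1
      have h3 := congrArg (fun p => Polynomial.coeff p 1) h1
      simp at h3
    have e1 : ι (Dy.yy 0 1 0) ^ 2 = ι (Dy.uu 0 1 0) ^ 6 + ι (Dy.uu 0 1 0) ^ 2 := by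
      push_cast at e0
      linear_combination e0
    refine ⟨(ι (Dy.uu 0 1 0) - ι (Dy.sc 0 1 0 ζ)) * (ι (Dy.uu 0 1 0) + ι (Dy.sc 0 1 0 ζ))⁻¹,
      ι (Dy.sc 0 1 0 r) * ι (Dy.yy 0 1 0) * (ι (Dy.uu 0 1 0))⁻¹ *
        (ι (Dy.uu 0 1 0) + ι (Dy.sc 0 1 0 ζ))⁻¹ ^ 2, 1, ζ, 1, -ζ, ?_, ?_, ?_⟩
    · have h4 := alg2 (ι (Dy.sc 0 1 0 ζ)) (ι (Dy.sc 0 1 0 r)) (ι (Dy.uu 0 1 0)) (ι (Dy.yy 0 1 0))
        (ι (Dy.uu 0 1 0) + ι (Dy.sc 0 1 0 ζ))⁻¹ (ι (Dy.uu 0 1 0))⁻¹ hz hr' e1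
        (inv_mul_cancel₀ huz) (inv_mul_cancel₀ hu)
      push_cast
      linear_combination h4
    · intro h
      apply hζ0
      have h5 : (2 : k) * ζ = 0 := by linear_combination -h
      exact (mul_eq_zero.1 h5).resolve_left h2
    · rw [map_one, map_one, one_mul, map_neg, map_neg]
      field_simp
      ring
  · have e1 : ι (Dy.yy 1 0 0) ^ 2 + ι (Dy.yy 1 0 0) = ι (Dy.uu 1 0 0) ^ 6 := by
      push_cast at e0
      linear_combination e0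
    have h0 : (2 : κ) = 0 := by
      have := congrArg (fun a => ι (Dy.sc 1 0 (0 : k) a)) h2
      simpa only [map_ofNat, map_zero] using this
    refine ⟨ι (Dy.uu 1 0 0), ι (Dy.yy 1 0 0) + ι (Dy.uu 1 0 0) ^ 3, 0, 1, 1, 0, ?_, ?_, ?_⟩
    · push_cast
      linear_combination e1 + (ι (Dy.uu 1 0 (0 : k)) ^ 6 + ι (Dy.yy 1 0 (0 : k)) *
          ι (Dy.uu 1 0 (0 : k)) ^ 3) * h0
    · rw [zero_mul, one_mul, zero_sub]
      exact neg_ne_zero.2 one_ne_zero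
    · rw [map_zero, map_zero, map_one, map_one]
      ring

end Pool.Agent.H72.BT
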