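import Pool.Agent.H72.BT.Chart

/-!
# The family: total space and fibres
-/

open CategoryTheory Limits AlgebraicGeometry

universe u

attribute [local instance] MvPolynomial.gradedAlgebra

namespace Pool.Agent.H72.BT

section general

/-- Restriction of a dominant morphism to sections is injective. -/
lemma appLE_injective {X Y : Scheme.{u}} (f : X ⟶ Y) [IsSchemeTheoreticallyDominant f]
    [QuasiCompact f] (U : Y.Opens) (h : ⊤ ≤ f ⁻¹ᵁ U) :
    Function.Injective (f.appLE U ⊤ h).hom := by
  have e : f ⁻¹ᵁ U = ⊤ := top_le_iff.1 h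
  have h1 : f.appLE U ⊤ h = f.app U ≫ X.presheaf.map (eqToHom e.symm).op := rfl
  have h2 : Function.Injective (X.presheaf.map (eqToHom e.symm).op).hom :=
    (asIso (X.presheaf.map (eqToHom e.symm).op)).commRingCatIsoToRingEquiv.injective
  have h3 : Function.Injective (f.app U).hom := f.app_injective U
  rw [h1]
  intro x y hxy
  apply h3
  apply h2
  exact hxy

lemma iSup_basicOpen (k : Type u) [Field k] :
    ⨆ i, Proj.basicOpen (MvPolynomial.homogeneousSubmodule (Fin (3 + 1)) k)
      (MvPolynomial.X i) = ⊤ := by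
  apply Proj.iSup_basicOpen_eq_top'
  · exact fun i => ⟨1, X_mem i⟩
  · rw [eq_top_iff]
    rintro p -
    have h1 : p ∈ Algebra.adjoin k (Set.range
        (MvPolynomial.X : Fin (3 + 1) → MvPolynomial (Fin (3 + 1)) k)) := by
      rw [MvPolynomial.adjoin_range_X]; trivial
    induction h1 using Algebra.adjoin_induction with
    | mem x hx => exact Algebra.subset_adjoin hx
    | algebraMap r =>
      exact Subalgebra.algebraMap_mem _ (algebraMap k
        (MvPolynomial.homogeneousSubmodule (Fin (3 + 1)) k 0) r)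
    | add x y _ _ hx hy => exact add_mem hx hy
    | mul x y _ _ hx hy => exact mul_mem hx hy

variable {k : Type u} [Field k]

/-- The section of `B × ℙ³ → ℙ³` given by a point of `B`. -/
noncomputable def sa {B : Scheme.{u}} (sB : B ⟶ Spec (.of k)) (b : Spec (.of k) ⟶ B)
    (hb : b ≫ sB = 𝟙 _) : PSpace k 3 ⟶ pullback sB (PSpace.toSpec k 3) :=
  pullback.lift (PSpace.toSpec k 3 ≫ b) (𝟙 _) (by rw [Category.assoc, hb]; simp)

lemma isPullback_sa {B : Scheme.{u}} (sB : B ⟶ Spec (.of k)) (b : Spec (.of k) ⟶ B)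
    (hb : b ≫ sB = 𝟙 _) : IsPullback (sa sB b hb) (PSpace.toSpec k 3)
      (pullback.fst sB (PSpace.toSpec k 3)) b := by
  have h1 : IsPullback (pullback.snd sB (PSpace.toSpec k 3)) (pullback.fst sB (PSpace.toSpec k 3))
    (PSpace.toSpec k 3) sB := (IsPullback.of_hasPullback _ _).flip
  refine IsPullback.of_right (h₁₂ := pullback.snd sB (PSpace.toSpec k 3))
    (v₁₃ := PSpace.toSpec k 3) (h₂₂ := sB) ?_ ?_ h1
  · rw [sa, pullback.lift_snd, hb]
    exact IsPullback.of_id_fst
  · rw [sa, pullback.lift_fst]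

/-- The inclusion of the fibre in projective space. -/
noncomputable def iZ {B X : Scheme.{u}} (sB : B ⟶ Spec (.of k))
    (incl : X ⟶ pullback sB (PSpace.toSpec k 3)) (b : Spec (.of k) ⟶ B) :
    pullback (incl ≫ pullback.fst sB (PSpace.toSpec k 3)) b ⟶ PSpace k 3 :=
  pullback.fst _ _ ≫ incl ≫ pullback.snd _ _

lemma iZ_toSpec {B X : Scheme.{u}} (sB : B ⟶ Spec (.of k))
    (incl : X ⟶ pullback sB (PSpace.toSpec k 3)) (b : Spec (.of k) ⟶ B)
    (hb : b ≫ sB = 𝟙 _) : iZ sB incl b ≫ PSpace.toSpec k 3 = pullback.snd _ _ := by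
  rw [iZ, Category.assoc, Category.assoc, ← pullback.condition,
    ← Category.assoc incl, pullback.condition_assoc, hb, Category.comp_id]

lemma isClosedImmersion_iZ {B X : Scheme.{u}} (sB : B ⟶ Spec (.of k))
    (incl : X ⟶ pullback sB (PSpace.toSpec k 3)) [IsClosedImmersion incl]
    (b : Spec (.of k) ⟶ B) (hb : b ≫ sB = 𝟙 _) : IsClosedImmersion (iZ sB incl b) := by
  have h1 : IsPullback (iZ sB incl b) (pullback.fst _ _) (sa sB b hb) incl := by
    refine IsPullback.of_right (h₁₂ := PSpace.toSpec k 3) (v₁₃ := b)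
      (h₂₂ := pullback.fst sB (PSpace.toSpec k 3)) ?_ ?_ (isPullback_sa sB b hb).flip
    · rw [iZ_toSpec sB incl b hb]
      exact (IsPullback.of_hasPullback _ _).flip
    · apply pullback.hom_ext
      · rw [Category.assoc, sa, pullback.lift_fst, Category.assoc, ← Category.assoc (iZ _ _ _),
          iZ_toSpec sB incl b hb]
        exact pullback.condition.symm
      · rw [Category.assoc, sa, pullback.lift_snd, Category.comp_id, iZ, Category.assoc]
  exact MorphismProperty.of_isPullback (P := @IsClosedImmersion) h1.flip inferInstance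

end general

end Pool.Agent.H72.BT
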