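import Pool.Agent.H72.BT.Total

/-!
# The fibres of the family are integral
-/

open CategoryTheory Limits AlgebraicGeometry HomogeneousLocalization

universe u

attribute [local instance] MvPolynomial.gradedAlgebra

namespace Pool.Agent.H72.BT

variable (k : Type u) [Field k] (ε δ : ℕ)

/-- Specialization of the coordinate ring. -/
noncomputable def spa (a : k) : DD k ε δ →+* Dy ε δ a :=
  Dy.lift ((Dy.sc ε δ a).comp (Polynomial.evalRingHom a)) (Dy.uu ε δ a) (Dy.yy ε δ a)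
    (Dy.ww ε δ a) (by
      have h1 : ((Dy.sc ε δ a).comp (Polynomial.evalRingHom a)) Polynomial.X =
          Dy.sc ε δ a a := by
        rw [RingHom.comp_apply, Polynomial.coe_evalRingHom, Polynomial.eval_X]
      rw [h1]
      exact Dy.eqn ε δ a)

lemma spa_sc (a : k) : (spa k ε δ a).comp (Dy.sc ε δ Polynomial.X) =
    (Dy.sc ε δ a).comp (Polynomial.evalRingHom a) :=
  RingHom.ext fun x => by rw [RingHom.comp_apply, spa, Dy.lift_sc]

lemma spa_ev (a : k) : (spa k ε δ a).comp (ev Polynomial.C ε δ Polynomial.X) =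
    ev (RingHom.id k) ε δ a := by
  apply MvPolynomial.ringHom_ext
  · intro r
    rw [RingHom.comp_apply, ev_C, ev_C]
    have h1 : spa k ε δ a (Dy.sc ε δ Polynomial.X (Polynomial.C r)) =
        Dy.sc ε δ a (Polynomial.evalRingHom a (Polynomial.C r)) := Dy.lift_sc ..
    rw [h1, Polynomial.coe_evalRingHom, Polynomial.eval_C]
    rfl
  · intro i
    rw [RingHom.comp_apply]
    fin_cases i
    · exact (congrArg _ (ev_zero ..)).trans ((Dy.lift_uu ..).trans (ev_zero ..).symm)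
    · exact (congrArg _ (ev_one ..)).trans ((Dy.lift_yy ..).trans (ev_one ..).symm)
    · exact (congrArg _ (ev_two ..)).trans ((Dy.lift_ww ..).trans (ev_two ..).symm)
    · exact (congrArg _ (ev_three ..)).trans ((map_one _).trans (ev_three ..).symm)

lemma Ev_congr {A : Type u} [CommRing A] {σ : Type*} [SetLike σ A] [AddSubgroupClass σ A]
    {𝒜 : ℕ → σ} [GradedRing 𝒜] {E : Type u} [CommRing E] {e e' : A →+* E} (h : e = e') {x : A}
    (hx : IsUnit (e x)) (hx' : IsUnit (e' x)) {d : ℕ} (hd : x ∈ 𝒜 d) (h0 : 0 < d) :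
    Ev e hx hd h0 = Ev e' hx' hd h0 := by
  subst h; rfl

lemma spa_gP (a : k) : Spec.map (CommRingCat.ofHom (spa k ε δ a)) ≫
    gP Polynomial.C ε δ Polynomial.X = gP (RingHom.id k) ε δ a := by
  have h1 : IsUnit (((spa k ε δ a).comp (ev Polynomial.C ε δ Polynomial.X))
      (MvPolynomial.X 3)) := by
    rw [spa_ev]; exact isUnit_ev _ _ _ _
  rw [gP, comp_Ev _ _ _ _ _ h1, gP]
  exact Ev_congr (spa_ev k ε δ a) _ _ _ _

/-- The inclusion of the affine chart of the fibre. -/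
noncomputable def jZ (a : k) : Spec (.of (Dy ε δ a)) ⟶ ZZ k ε δ a :=
  pullback.lift (Spec.map (CommRingCat.ofHom (spa k ε δ a)) ≫ jX k ε δ)
    (Spec.map (CommRingCat.ofHom (Dy.sc ε δ a))) (by
      rw [Category.assoc, jX_fX, ← Spec.map_comp, ← Spec.map_comp, ← CommRingCat.ofHom_comp,
        ← CommRingCat.ofHom_comp, spa_sc])

lemma jZ_fst (a : k) : jZ k ε δ a ≫ pullback.fst _ _ =
    Spec.map (CommRingCat.ofHom (spa k ε δ a)) ≫ jX k ε δ := pullback.lift_fst _ _ _

lemma jZ_snd (a : k) : jZ k ε δ a ≫ pullback.snd _ _ =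
    Spec.map (CommRingCat.ofHom (Dy.sc ε δ a)) := pullback.lift_snd _ _ _

lemma jZ_iZZ (a : k) : jZ k ε δ a ≫ iZZ k ε δ a = gP (RingHom.id k) ε δ a := by
  rw [iZZ, iZ, ← Category.assoc, jZ_fst, Category.assoc, jX_qX, spa_gP]

lemma ker_eq [IsDomain (DD k ε δ)] (a : k) [IsDomain (Dy ε δ a)] :
    (iZZ k ε δ a).ker = (gP (RingHom.id k) ε δ a).imageι.ker := by
  rw [Scheme.IdealSheafData.ker_subschemeι]
  apply le_antisymm
  · rw [← jZ_iZZ]
    exact Scheme.Hom.le_ker_comp _ _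
  · exact ker_le ε δ a (iZZ k ε δ a) (Phi_ZZ k ε δ a)

lemma exists_iso [IsDomain (DD k ε δ)] (a : k) [IsDomain (Dy ε δ a)] :
    ∃ e : (gP (RingHom.id k) ε δ a).image ⟶ ZZ k ε δ a, IsIso e ∧
      (gP (RingHom.id k) ε δ a).toImage ≫ e = jZ k ε δ a := by
  refine ⟨IsClosedImmersion.lift (iZZ k ε δ a) (gP (RingHom.id k) ε δ a).imageι
    (ker_eq k ε δ a).le, IsClosedImmersion.isIso_lift _ _ (ker_eq k ε δ a), ?_⟩
  rw [← cancel_mono (iZZ k ε δ a), Category.assoc, IsClosedImmersion.lift_fac, jZ_iZZ,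
    Scheme.Hom.toImage_imageι]

instance isIntegral_ZZ [IsDomain (DD k ε δ)] (a : k) [IsDomain (Dy ε δ a)] :
    IsIntegral (ZZ k ε δ a) := by
  obtain ⟨e, he, -⟩ := exists_iso k ε δ a
  have := isIntegral_image (gP (RingHom.id k) ε δ a)
  exact IsIntegral.of_isIso e

instance isOpenImmersion_jZ [IsDomain (DD k ε δ)] (a : k) [IsDomain (Dy ε δ a)] :
    IsOpenImmersion (jZ k ε δ a) := by
  obtain ⟨e, he, h⟩ := exists_iso k ε δ a
  rw [← h]
  infer_instance

instance isDominant_jZ [IsDomain (DD k ε δ)] (a : k) [IsDomain (Dy ε δ a)] :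
    IsDominant (jZ k ε δ a) := by
  obtain ⟨e, he, h⟩ := exists_iso k ε δ a
  rw [← h]
  infer_instance

end Pool.Agent.H72.BT
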