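import Mathlib

/-!
# Generic points with values in fields, and a base change lemma
-/

open CategoryTheory Limits AlgebraicGeometry IsLocalRing

universe u

namespace Pool.Agent.H72.BT

/-- A morphism from the spectrum of a field which is the inclusion of a local ring of the target
that is a field. -/
def IsGen {K : Type u} [Field K] {X : Scheme.{u}} (γ : Spec (.of K) ⟶ X) : Prop :=
  Function.Bijective (Scheme.stalkClosedPointTo γ).hom

section

variable {K : Type u} [Field K] {X Y : Scheme.{u}}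

lemma isGen_comp_iff (γ : Spec (.of K) ⟶ X) (f : X ⟶ Y) [IsOpenImmersion f] :
    IsGen (γ ≫ f) ↔ IsGen γ := by
  have h1 : Function.Bijective (f.stalkMap (γ (closedPoint K))).hom :=
    ConcreteCategory.bijective_of_isIso (f.stalkMap (γ (closedPoint K)))
  have h2 : ⇑(Scheme.stalkClosedPointTo (γ ≫ f)).hom =
      ⇑(Scheme.stalkClosedPointTo γ).hom ∘ ⇑(f.stalkMap (γ (closedPoint K))).hom := by
    funext z
    have h3 := Scheme.stalkClosedPointTo_comp γ f
    exact congrArg (fun e => e.hom z) h3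
  unfold IsGen
  rw [h2]
  exact Function.Bijective.of_comp_iff _ h1

lemma isGen_fractionRing (A : Type u) [CommRing A] [IsDomain A] :
    IsGen (Spec.map (CommRingCat.ofHom (algebraMap A (FractionRing A)))) := by
  let K := FractionRing A
  let γ : Spec (.of K) ⟶ Spec (.of A) := Spec.map (CommRingCat.ofHom (algebraMap A K))
  let x : Spec (.of A) := γ (closedPoint K)
  let s : (Spec (.of A)).presheaf.stalk x →+* K := (Scheme.stalkClosedPointTo γ).hom
  have hs : IsLocalHom s := Scheme.isLocalHom_stalkClosedPointTo γ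
  let alg : Algebra A ((Spec (.of A)).presheaf.stalk x) := StructureSheaf.stalkAlgebra A x
  have hloc : IsLocalization.AtPrime ((Spec (.of A)).presheaf.stalk x) x.asIdeal :=
    StructureSheaf.IsLocalization.to_stalk A x
  have hα : ∀ a : A, s (algebraMap A _ a) = algebraMap A K a := by
    intro a
    have h1 := Scheme.germ_stalkClosedPointTo_Spec (CommRingCat.ofHom (algebraMap A K))
    have h2 := congrArg (fun e => e.hom ((Scheme.ΓSpecIso (.of A)).inv.hom a)) h1
    have h3 : (Scheme.ΓSpecIso (.of A)).hom.hom ((Scheme.ΓSpecIso (.of A)).inv.hom a) = a :=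
      congrArg (fun e => e.hom a) (Scheme.ΓSpecIso (.of A)).inv_hom_id
    have h4 : ((Scheme.ΓSpecIso (.of A)).hom ≫ CommRingCat.ofHom (algebraMap A K)).hom
      ((Scheme.ΓSpecIso (.of A)).inv.hom a) = algebraMap A K a := congrArg (algebraMap A K) h3
    exact h2.trans h4
  have hinj : Function.Injective (algebraMap A K) := IsFractionRing.injective A K
  constructor
  · rw [injective_iff_map_eq_zero]
    intro z hz
    obtain ⟨⟨a, b⟩, hab⟩ := IsLocalization.surj (M := x.asIdeal.primeCompl) z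
    have h1 : s (algebraMap A _ a) = 0 := by
      rw [← hab, map_mul]
      have h2 : s z = 0 := hz
      rw [h2, zero_mul]
    rw [hα, map_eq_zero_iff _ hinj] at h1
    rw [h1, map_zero] at hab
    have h3 : IsUnit (algebraMap A ((Spec (.of A)).presheaf.stalk x) b) :=
      IsLocalization.map_units _ b
    exact (h3.mul_left_eq_zero).1 hab
  · intro z
    obtain ⟨a, b, hb, rfl⟩ := IsFractionRing.div_surjective (A := A) z
    have hb0 : algebraMap A K b ≠ 0 := by
      rw [Ne, map_eq_zero_iff _ hinj]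
      exact nonZeroDivisors.ne_zero hb
    have h1 : IsUnit (s (algebraMap A _ b)) := by
      rw [hα]
      exact isUnit_iff_ne_zero.2 hb0
    obtain ⟨v, hv⟩ := (isUnit_of_map_unit s _ h1).exists_right_inv
    refine ⟨algebraMap A _ a * v, ?_⟩
    have h2 : s (algebraMap A _ a * v) = algebraMap A K a / algebraMap A K b := by
      rw [map_mul, hα, div_eq_mul_inv]
      congr 1
      rw [← mul_right_inj' hb0, mul_inv_cancel₀ hb0, ← hα, ← map_mul, hv, map_one]
    exact h2

lemma IsGen.bijective {γ : Spec (.of K) ⟶ X} (hγ : IsGen γ) (x : X)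
    (hx : γ (closedPoint K) = x) (χ : X.presheaf.stalk x ⟶ .of K)
    (hχ : Spec.map χ ≫ X.fromSpecStalk x = γ) : Function.Bijective χ.hom := by
  subst hx
  have h1 : χ = Scheme.stalkClosedPointTo γ := by
    apply Spec.map_injective
    rw [← cancel_mono (X.fromSpecStalk (γ (closedPoint K))), hχ]
    exact (Scheme.Spec_stalkClosedPointTo_fromSpecStalk γ).symm
  rw [h1]
  exact hγ

end

section fibre

variable {K : Type u} [Field K] {X' Y' B' X₀ T G : Scheme.{u}}

lemma isGen_fibre (p₂ : X' ⟶ B') (q₁ : Y' ⟶ B') (q₂ : Y' ⟶ X₀) (sB' : B' ⟶ T) (s₀ : X₀ ⟶ T)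
    (sq : IsPullback q₁ q₂ sB' s₀) (b' : T ⟶ B') (hb' : b' ≫ sB' = 𝟙 T)
    {W : Scheme.{u}} (w : W ⟶ X') [IsOpenImmersion w] (g : W ⟶ Y') [IsOpenImmersion g]
    (hg : g ≫ q₁ = w ≫ p₂) (iG : G ⟶ X') (tG : G ⟶ T) (sqG : IsPullback iG tG p₂ b')
    (γ : Spec (.of K) ⟶ G) (hγ : IsGen γ) (γW : Spec (.of K) ⟶ W) (hγW : γW ≫ w = γ ≫ iG) :
    IsGen (γW ≫ g ≫ q₂) := by
  let iH := pullback.fst q₁ b'
  let tH := pullback.snd q₁ b'
  have sqH : IsPullback iH tH q₁ b' := IsPullback.of_hasPullback q₁ b'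
  have h1 : IsIso (iH ≫ q₂) := by
    have h2 : IsPullback tH (iH ≫ q₂) (b' ≫ sB') s₀ := sqH.flip.paste_vert sq
    rw [hb'] at h2
    exact h2.isIso_snd_of_isIso
  let a := pullback.fst iG w
  let b := pullback.snd iG w
  have sqa : IsPullback a b iG w := IsPullback.of_hasPullback iG w
  let c : pullback iG w ⟶ pullback q₁ b' := pullback.lift (b ≫ g) (a ≫ tG) (by
    rw [Category.assoc, hg, ← Category.assoc, ← sqa.w, Category.assoc, sqG.w, Category.assoc])
  have hcf : c ≫ iH = b ≫ g := pullback.lift_fst _ _ _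
  have hcs : c ≫ tH = a ≫ tG := pullback.lift_snd _ _ _
  have hc : IsPullback c b iH g := by
    refine IsPullback.of_right (h₁₂ := tH) (v₁₃ := b') (h₂₂ := q₁) ?_ hcf sqH.flip
    rw [hcs, hg]
    exact sqa.paste_horiz sqG.flip
  have hc' : IsOpenImmersion c := MorphismProperty.of_isPullback hc.flip inferInstance
  have hc'' : IsOpenImmersion (c ≫ iH ≫ q₂) := inferInstance
  let γ' : Spec (.of K) ⟶ pullback iG w := pullback.lift γ γW hγW.symm
  have h3 : γ' ≫ a = γ := pullback.lift_fst _ _ _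
  have h4 : γ' ≫ b = γW := pullback.lift_snd _ _ _
  have h5 : γW ≫ g ≫ q₂ = γ' ≫ (c ≫ iH ≫ q₂) := by
    rw [← Category.assoc c, hcf, ← h4, Category.assoc, Category.assoc]
  have h6 : IsOpenImmersion a := inferInstance
  rw [h5, isGen_comp_iff, ← isGen_comp_iff γ' a, h3]
  exact hγ

end fibre

end Pool.Agent.H72.BT
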