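import Pool.Agent.H72.BT.Exist
import Pool.Agent.H72.BT.Gen

/-!
# No birational trivialization at the special point
-/

open CategoryTheory Limits AlgebraicGeometry IsLocalRing

universe u

attribute [local instance] MvPolynomial.gradedAlgebra

namespace Pool.Agent.H72.BT

section chart

variable (k : Type u) [Field k] (ε δ : ℕ)

/-- The coordinate ring of the chart after base change to `S`. -/
noncomputable def bcRing {S : Type u} [CommRing S] (θ : Polynomial k →+* S) :
    DD k ε δ →+* Dy ε δ (θ Polynomial.X) :=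
  Dy.lift ((Dy.sc ε δ (θ Polynomial.X)).comp θ) (Dy.uu ε δ (θ Polynomial.X))
    (Dy.yy ε δ (θ Polynomial.X)) (Dy.ww ε δ (θ Polynomial.X)) (Dy.eqn ε δ (θ Polynomial.X))

lemma bcRing_sc {S : Type u} [CommRing S] (θ : Polynomial k →+* S) :
    (bcRing k ε δ θ).comp (Dy.sc ε δ Polynomial.X) = (Dy.sc ε δ (θ Polynomial.X)).comp θ :=
  RingHom.ext fun s => by rw [RingHom.comp_apply, bcRing, Dy.lift_sc]

lemma redDy_bcRing {S : Type u} [CommRing S] (θ : Polynomial k →+* S) (e₀ : S →+* k)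
    (h0 : e₀ (θ Polynomial.X) = 0) (h1 : e₀.comp θ = Polynomial.evalRingHom 0) :
    (redDy (ε := ε) (δ := δ) e₀ h0).comp (bcRing k ε δ θ) = spa k ε δ 0 := by
  refine Dy.hom_ext (RingHom.ext fun s => ?_) ?_ ?_ ?_
  · have h2 : bcRing k ε δ θ (Dy.sc ε δ Polynomial.X s) = Dy.sc ε δ (θ Polynomial.X) (θ s) :=
      Dy.lift_sc _ _ _ _ _ s
    have h3 : redDy (ε := ε) (δ := δ) e₀ h0 (Dy.sc ε δ (θ Polynomial.X) (θ s)) =
      Dy.sc ε δ 0 (e₀ (θ s)) := Dy.lift_sc _ _ _ _ _ _
    have h4 : spa k ε δ 0 (Dy.sc ε δ Polynomial.X s) =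
      Dy.sc ε δ 0 (Polynomial.evalRingHom 0 s) := Dy.lift_sc _ _ _ _ _ _
    rw [RingHom.comp_apply, RingHom.comp_apply, RingHom.comp_apply, h2, h3, h4, ← h1]
    rfl
  · have h2 : bcRing k ε δ θ (Dy.uu ε δ Polynomial.X) = Dy.uu ε δ (θ Polynomial.X) :=
      Dy.lift_uu _ _ _ _ _
    have h3 : redDy (ε := ε) (δ := δ) e₀ h0 (Dy.uu ε δ (θ Polynomial.X)) = Dy.uu ε δ 0 :=
      Dy.lift_uu _ _ _ _ _
    have h4 : spa k ε δ 0 (Dy.uu ε δ Polynomial.X) = Dy.uu ε δ 0 := Dy.lift_uu _ _ _ _ _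
    rw [RingHom.comp_apply, h2, h3, h4]
  · have h2 : bcRing k ε δ θ (Dy.yy ε δ Polynomial.X) = Dy.yy ε δ (θ Polynomial.X) :=
      Dy.lift_yy _ _ _ _ _
    have h3 : redDy (ε := ε) (δ := δ) e₀ h0 (Dy.yy ε δ (θ Polynomial.X)) = Dy.yy ε δ 0 :=
      Dy.lift_yy _ _ _ _ _
    have h4 : spa k ε δ 0 (Dy.yy ε δ Polynomial.X) = Dy.yy ε δ 0 := Dy.lift_yy _ _ _ _ _
    rw [RingHom.comp_apply, h2, h3, h4]
  · have h2 : bcRing k ε δ θ (Dy.ww ε δ Polynomial.X) = Dy.ww ε δ (θ Polynomial.X) :=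
      Dy.lift_ww _ _ _ _ _
    have h3 : redDy (ε := ε) (δ := δ) e₀ h0 (Dy.ww ε δ (θ Polynomial.X)) = Dy.ww ε δ 0 :=
      Dy.lift_ww _ _ _ _ _
    have h4 : spa k ε δ 0 (Dy.ww ε δ Polynomial.X) = Dy.ww ε δ 0 := Dy.lift_ww _ _ _ _ _
    rw [RingHom.comp_apply, h2, h3, h4]

lemma redDy_sc {S : Type u} [CommRing S] {τ : S} (e₀ : S →+* k) (h0 : e₀ τ = 0) :
    (redDy (ε := ε) (δ := δ) e₀ h0).comp (Dy.sc ε δ τ) = (Dy.sc ε δ 0).comp e₀ :=
  RingHom.ext fun s => by rw [RingHom.comp_apply, redDy, Dy.lift_sc]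

end chart

section final

variable {k : Type u} [Field k] [IsAlgClosed k] {ε δ : ℕ} (hg : Good k ε δ)

lemma isDominant_fromSpecStalk {X : Scheme.{u}} [IsIntegral X] (x : X) :
    IsDominant (X.fromSpecStalk x) := by
  refine ⟨?_⟩
  have h1 : genericPoint X ∈ Set.range (X.fromSpecStalk x) := by
    rw [Scheme.range_fromSpecStalk]
    exact genericPoint_specializes x
  rw [DenseRange, dense_iff_closure_eq, Set.eq_univ_iff_forall]
  intro y
  have h3 : y ∈ closure {genericPoint X} := by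
    rw [genericPoint_closure]; trivial
  exact closure_mono (Set.singleton_subset_iff.2 h1) h3

omit [IsAlgClosed k] in
lemma range_Spec_field {X : Scheme.{u}} (f : Spec (.of k) ⟶ X) :
    Set.range f = {f (closedPoint k)} := by
  ext z
  constructor
  · rintro ⟨y, rfl⟩
    have : y = closedPoint k := Subsingleton.elim (α := PrimeSpectrum k) _ _
    rw [this]
    rfl
  · rintro rfl
    exact ⟨_, rfl⟩

lemma range_comp_iso {X Y Z : Scheme.{u}} (e : X ≅ Y) (f : Y ⟶ Z) :
    Set.range (e.hom ≫ f) = Set.range f := by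
  ext z
  constructor
  · rintro ⟨y, rfl⟩
    exact ⟨e.hom y, (Scheme.Hom.comp_apply _ _ _).symm⟩
  · rintro ⟨y, rfl⟩
    refine ⟨e.inv y, ?_⟩
    rw [← Scheme.Hom.comp_apply, Iso.inv_hom_id_assoc]

lemma isGenericPoint_of_dominant {K : Type u} [Field K] {G X : Scheme.{u}}
    (γ : Spec (.of K) ⟶ G) [IsDominant γ] (i : G ⟶ X) {Z : Set X} (hZ : Set.range i = Z)
    (hc : IsClosed Z) : IsGenericPoint ((γ ≫ i) (closedPoint K)) Z := by
  rw [isGenericPoint_def]
  apply subset_antisymm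
  · rw [hc.closure_subset_iff, Set.singleton_subset_iff, ← hZ]
    exact ⟨γ (closedPoint K), (Scheme.Hom.comp_apply _ _ _).symm⟩
  · rw [← hZ]
    rintro _ ⟨z, rfl⟩
    have h1 : z ∈ closure (Set.range γ) := γ.denseRange z
    rw [range_Spec_field] at h1
    have h2 := image_closure_subset_closure_image i.continuous (Set.mem_image_of_mem i h1)
    rw [Set.image_singleton] at h2
    exact h2

include hg in
theorem no_triv {B' X₀ : Scheme.{u}} [IsIntegral B'] (h : B' ⟶ BB k) [IsDominant h]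
    (b' : Spec (.of k) ⟶ B') (hb : b' ≫ h = pt k 0) (sB' : B' ⟶ Spec (.of k))
    (hs : sB' = h ≫ sBB k) (s₀ : X₀ ⟶ Spec (.of k))
    (Φ : Scheme.PartialIso (pullback (fX k ε δ) h) (pullback sB' s₀))
    (hΦ : Φ.IsOver (pullback.snd (fX k ε δ) h) (pullback.fst sB' s₀))
    (η : (pullback (fX k ε δ) h : Scheme.{u}))
    (hη : IsGenericPoint η (⇑(pullback.snd (fX k ε δ) h) ⁻¹' {b' (closedPoint k)}))
    (hmem : η ∈ Φ.source) : False := by
  have hDD := isDomain_DD hg
  have hD0 := isDomain_Dy hg (0 : k)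
  -- the local ring of `B'` at `b'`
  let S := B'.presheaf.stalk (b' (closedPoint k))
  let fS : Spec S ⟶ B' := B'.fromSpecStalk (b' (closedPoint k))
  have hSdom : IsDomain S := inferInstance
  have hfS : IsDominant fS := isDominant_fromSpecStalk _
  obtain ⟨θ, hθ⟩ := Spec.map_surjective (fS ≫ h)
  have hθinj : Function.Injective θ.hom := by
    have : IsDominant (Spec.map θ) := by rw [hθ]; infer_instance
    exact injective_of_isDominant θ
  let e : S ⟶ .of k := Scheme.stalkClosedPointTo b'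
  have he : Spec.map e ≫ fS = b' := Scheme.Spec_stalkClosedPointTo_fromSpecStalk b'
  have heθ : θ ≫ e = CommRingCat.ofHom (Polynomial.evalRingHom 0) := by
    apply Spec.map_injective
    rw [Spec.map_comp, hθ, ← Category.assoc, he, hb]
  let τ : S := θ.hom Polynomial.X
  have hτ : τ ≠ 0 := by
    intro h1
    apply Polynomial.X_ne_zero (R := k)
    apply hθinj
    rw [map_zero]
    exact h1
  let e₀ : S →+* k := e.hom
  have heθ' : e₀.comp θ.hom = Polynomial.evalRingHom 0 := congrArg (fun f => f.hom) heθ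
  have h0 : e₀ τ = 0 := by
    have := RingHom.congr_fun heθ' Polynomial.X
    rw [Polynomial.coe_evalRingHom, Polynomial.eval_X] at this
    exact this
  -- the chart of the base change
  let p₁ := pullback.fst (fX k ε δ) h
  let p₂ := pullback.snd (fX k ε δ) h
  have hp : p₁ ≫ fX k ε δ = p₂ ≫ h := pullback.condition
  let β : DD k ε δ →+* Dy ε δ τ := bcRing k ε δ θ.hom
  let ch : Spec (.of (Dy ε δ τ)) ⟶ pullback (fX k ε δ) h :=
    pullback.lift (Spec.map (CommRingCat.ofHom β) ≫ jX k ε δ)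
      (Spec.map (CommRingCat.ofHom (Dy.sc ε δ τ)) ≫ fS) (by
        rw [Category.assoc, Category.assoc, jX_fX, ← hθ, ← Spec.map_comp, ← Spec.map_comp,
          ← CommRingCat.ofHom_comp, bcRing_sc, CommRingCat.ofHom_comp]
        rfl)
  have ch1 : ch ≫ p₁ = Spec.map (CommRingCat.ofHom β) ≫ jX k ε δ := pullback.lift_fst _ _ _
  have ch2 : ch ≫ p₂ = Spec.map (CommRingCat.ofHom (Dy.sc ε δ τ)) ≫ fS := pullback.lift_snd _ _ _
  -- the function field of the special fibre
  let κ : Type u := FractionRing (Dy ε δ (0 : k))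
  let ι : Dy ε δ (0 : k) →+* κ := algebraMap _ _
  have hι : Function.Injective ι := IsFractionRing.injective _ _
  let redK : Dy ε δ τ →+* κ := ι.comp (redDy (ε := ε) (δ := δ) e₀ h0)
  have hprime : (RingHom.ker redK).IsPrime := RingHom.ker_isPrime _
  let Loc : Type u := Localization.AtPrime (RingHom.ker redK)
  have hunit : ∀ y : (RingHom.ker redK).primeCompl, IsUnit (redK y) := by
    rintro ⟨y, hy⟩
    exact isUnit_iff_ne_zero.2 hy
  let res : Loc →+* κ := IsLocalization.lift (M := (RingHom.ker redK).primeCompl) hunit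
  have hres : ∀ d, res (algebraMap (Dy ε δ τ) Loc d) = redK d := IsLocalization.lift_eq hunit
  have hres' : res.comp (algebraMap (Dy ε δ τ) Loc) = redK := RingHom.ext hres
  have hlocal : IsLocalHom res := by
    constructor
    intro z hz
    obtain ⟨⟨a, s⟩, hs⟩ := IsLocalization.surj (RingHom.ker redK).primeCompl z
    have h1 : res z * redK s = redK a := by
      rw [← hres, ← hres, ← map_mul, hs]
    have h2 : IsUnit (redK a) := by
      rw [← h1]; exact hz.mul (hunit s)
    have h3 : a ∈ (RingHom.ker redK).primeCompl := fun h4 => h2.ne_zero h4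
    have h4 : IsUnit (algebraMap (Dy ε δ τ) Loc a) :=
      IsLocalization.map_units (M := (RingHom.ker redK).primeCompl) Loc ⟨a, h3⟩
    rw [← hs] at h4
    exact isUnit_of_mul_isUnit_left h4
  let rs : Spec (.of κ) ⟶ Spec (.of Loc) := Spec.map (CommRingCat.ofHom res)
  have hrs : rs (closedPoint κ) = closedPoint Loc := IsLocalRing.comap_closedPoint res
  let eL : Spec (.of Loc) ⟶ pullback (fX k ε δ) h :=
    Spec.map (CommRingCat.ofHom (algebraMap (Dy ε δ τ) Loc)) ≫ ch
  -- the fibre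
  let iG : ZZ k ε δ 0 ⟶ pullback (fX k ε δ) h :=
    pullback.lift (pullback.fst _ _) (pullback.snd _ _ ≫ b') (by
      rw [pullback.condition, Category.assoc, hb])
  have iG1 : iG ≫ p₁ = pullback.fst _ _ := pullback.lift_fst _ _ _
  have iG2 : iG ≫ p₂ = pullback.snd _ _ ≫ b' := pullback.lift_snd _ _ _
  have sqG : IsPullback iG (pullback.snd (fX k ε δ) (pt k 0)) p₂ b' := by
    refine IsPullback.of_right (h₁₂ := p₁) (v₁₃ := fX k ε δ) (h₂₂ := h) ?_ iG2
      (IsPullback.of_hasPullback _ _)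
    rw [iG1, hb]
    exact IsPullback.of_hasPullback _ _
  let γG : Spec (.of κ) ⟶ ZZ k ε δ 0 := Spec.map (CommRingCat.ofHom ι) ≫ jZ k ε δ 0
  have hgenG : IsGen γG := (isGen_comp_iff _ _).2 (isGen_fractionRing _)
  have hfac : rs ≫ eL = γG ≫ iG := by
    apply pullback.hom_ext
    · change (rs ≫ eL) ≫ p₁ = (γG ≫ iG) ≫ p₁
      rw [Category.assoc, Category.assoc, Category.assoc, ch1, iG1, Category.assoc, jZ_fst]
      rw [← Category.assoc, ← Category.assoc, ← Category.assoc, ← Spec.map_comp, ← Spec.map_comp,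
        ← Spec.map_comp, ← CommRingCat.ofHom_comp, ← CommRingCat.ofHom_comp,
        ← CommRingCat.ofHom_comp, hres', RingHom.comp_assoc, redDy_bcRing k ε δ θ.hom e₀ h0 heθ']
    · change (rs ≫ eL) ≫ p₂ = (γG ≫ iG) ≫ p₂
      rw [Category.assoc, Category.assoc, Category.assoc, ch2, iG2, Category.assoc, ← Category.assoc
        (jZ k ε δ 0), jZ_snd, ← he]
      rw [← Category.assoc, ← Category.assoc, ← Category.assoc, ← Category.assoc,
        ← Spec.map_comp, ← Spec.map_comp,
        ← Spec.map_comp, ← Spec.map_comp]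
      have h5 : (res.comp (algebraMap (Dy ε δ τ) Loc)).comp (Dy.sc ε δ τ) =
          (ι.comp (Dy.sc ε δ 0)).comp e₀ := by
        rw [hres', RingHom.comp_assoc, redDy_sc, RingHom.comp_assoc]
      have h6 : CommRingCat.ofHom (Dy.sc ε δ τ) ≫
          CommRingCat.ofHom (algebraMap (Dy ε δ τ) Loc) ≫ CommRingCat.ofHom res =
          e ≫ CommRingCat.ofHom (Dy.sc ε δ 0) ≫ CommRingCat.ofHom ι := by
        have he' : e = CommRingCat.ofHom e₀ := (CommRingCat.ofHom_hom e).symm
        rw [he', ← CommRingCat.ofHom_comp, ← CommRingCat.ofHom_comp, ← CommRingCat.ofHom_comp,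
          ← CommRingCat.ofHom_comp, h5]
      rw [h6]
  -- the closed point of `Loc` is the generic point of the fibre
  have hpt : eL (closedPoint Loc) = (γG ≫ iG) (closedPoint κ) := by
    have h7 : (rs ≫ eL) (closedPoint κ) = eL (rs (closedPoint κ)) := Scheme.Hom.comp_apply ..
    rw [hfac, hrs] at h7
    exact h7.symm
  have hrange : Set.range iG = ⇑p₂ ⁻¹' {b' (closedPoint k)} := by
    have h8 : Set.range iG = Set.range (pullback.fst p₂ b') := by
      rw [← sqG.isoPullback_hom_fst]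
      exact range_comp_iso _ _
    rw [h8, Scheme.Pullback.range_fst, range_Spec_field]
  have hdom : IsDominant γG := by
    have := isDominant_Spec_map ι hι
    infer_instance
  have hξ : IsGenericPoint ((γG ≫ iG) (closedPoint κ)) (⇑p₂ ⁻¹' {b' (closedPoint k)}) :=
    isGenericPoint_of_dominant γG iG hrange (by rw [← hη.def]; exact isClosed_closure)
  have hη' : eL (closedPoint Loc) = η := by
    rw [hpt]; exact hξ.eq hη
  -- factor through the domain of definition
  let w := Φ.source.ι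
  have hrangeL : Set.range eL ⊆ Set.range w := by
    rw [← hη'] at hmem
    have h9 := Scheme.preimage_eq_top_of_closedPoint_mem eL hmem
    rw [Scheme.Opens.range_ι]
    rintro _ ⟨z, rfl⟩
    have h10 : z ∈ eL ⁻¹ᵁ Φ.source := by rw [h9]; trivial
    exact h10
  let eW : Spec (.of Loc) ⟶ Φ.source.toScheme := IsOpenImmersion.lift w eL hrangeL
  have heW : eW ≫ w = eL := IsOpenImmersion.lift_fac _ _ _
  let g : Φ.source.toScheme ⟶ pullback sB' s₀ := Φ.iso.hom ≫ Φ.target.ι
  let q₁ := pullback.fst sB' s₀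
  let q₂ := pullback.snd sB' s₀
  have hg' : g ≫ q₁ = w ≫ p₂ := by
    rw [Category.assoc]; exact hΦ
  have hbs : b' ≫ sB' = 𝟙 _ := by
    rw [hs, ← Category.assoc, hb, pt_sBB]
  have hgen : IsGen ((rs ≫ eW) ≫ g ≫ q₂) := by
    refine isGen_fibre p₂ q₁ q₂ sB' s₀ (IsPullback.of_hasPullback _ _) b' hbs w g hg' iG
      (pullback.snd (fX k ε δ) (pt k 0)) sqG γG hgenG (rs ≫ eW) ?_
    rw [Category.assoc, heW, hfac]
  -- the local ring of `X₀`
  let mL : Spec (.of Loc) ⟶ X₀ := eW ≫ g ≫ q₂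
  let χ : X₀.presheaf.stalk (mL (closedPoint Loc)) ⟶ .of Loc := Scheme.stalkClosedPointTo mL
  have hχ : Spec.map χ ≫ X₀.fromSpecStalk _ = mL := Scheme.Spec_stalkClosedPointTo_fromSpecStalk mL
  have hbij : Function.Bijective (χ ≫ CommRingCat.ofHom res).hom := by
    refine hgen.bijective (mL (closedPoint Loc)) ?_ _ ?_
    · rw [Category.assoc, Scheme.Hom.comp_apply]
      exact congrArg mL hrs
    · rw [Spec.map_comp, Category.assoc, hχ, Category.assoc]
  -- conclusion
  obtain ⟨x, y, a, b, c, d, hxy, hdet, hx⟩ := exists_xy hg ι hι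
  obtain ⟨x', hx'⟩ := hbij.2 x
  obtain ⟨y', hy'⟩ := hbij.2 y
  have hrel : y' ^ 2 + ε * y' = x' ^ 3 + δ * x' := by
    apply hbij.1
    simp only [map_add, map_mul, map_pow, map_natCast]
    rw [hx', hy']
    exact hxy
  have hrel' : (χ.hom y') ^ 2 + ε * χ.hom y' = (χ.hom x') ^ 3 + δ * χ.hom x' := by
    have := congrArg χ.hom hrel
    simpa only [map_add, map_mul, map_pow, map_natCast] using this
  have hresx : res (χ.hom x') = x := hx'
  refine key' (Loc := Loc) e₀ h0 hg (θ.hom.comp Polynomial.C) ?_ hτ ι hι res hres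
    (χ.hom x') (χ.hom y') hrel' a b c d hdet ?_
  · intro a
    have := RingHom.congr_fun heθ' (Polynomial.C a)
    rw [Polynomial.coe_evalRingHom, Polynomial.eval_C] at this
    exact this
  · rw [hresx]; exact hx

end final

end Pool.Agent.H72.BT
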