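import Pool.Agent.H72.BT.Fibre

/-!
# The family is flat, and base and fibres are varieties
-/

open CategoryTheory Limits AlgebraicGeometry HomogeneousLocalization

universe u

attribute [local instance] MvPolynomial.gradedAlgebra

namespace Pool.Agent.H72.BT

/-- A nonempty open subscheme of an irreducible scheme is dense. -/
lemma isDominant_of_isOpenImmersion {X Y : Scheme.{u}} (f : X ⟶ Y) [IsOpenImmersion f]
    [Nonempty X] [IrreducibleSpace Y] : IsDominant f := by
  refine ⟨?_⟩
  have h1 : IsOpen (Set.range f) := f.isOpenEmbedding.isOpen_range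
  exact h1.dense (Set.range_nonempty _)

lemma injective_of_isDominant {R S : CommRingCat.{u}} [IsReduced R] (φ : R ⟶ S)
    [IsDominant (Spec.map φ)] : Function.Injective φ.hom := by
  have h1 : DenseRange (PrimeSpectrum.comap φ.hom) := (Spec.map φ).denseRange
  rw [PrimeSpectrum.denseRange_comap_iff_ker_le_nilRadical, nilradical_eq_bot_iff.2 inferInstance,
    le_bot_iff] at h1
  exact (RingHom.injective_iff_ker_eq_bot _).2 h1

lemma flat_Spec {R : Type u} [CommRing R] [IsDedekindDomain R] {S : CommRingCat.{u}}
    (f : Spec S ⟶ Spec (.of R)) [IsIntegral (Spec S)] [IsDominant f] : Flat f := by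
  obtain ⟨φ, rfl⟩ := Spec.map_surjective f
  rw [HasRingHomProperty.Spec_iff (P := @Flat)]
  have h1 := injective_of_isDominant φ
  have h2 : IsDomain S := (affine_isIntegral_iff S).1 inferInstance
  algebraize [φ.hom]
  change Module.Flat R S
  have : Module.IsTorsionFree R S := by
    have : FaithfulSMul R S := (faithfulSMul_iff_algebraMap_injective R S).2 h1
    infer_instance
  infer_instance

/-- A dominant morphism from an integral scheme to the spectrum of a Dedekind domain is flat. -/
lemma flat_of_dominant {R : Type u} [CommRing R] [IsDedekindDomain R] {X : Scheme.{u}}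
    [IsIntegral X] (f : X ⟶ Spec (.of R)) [IsDominant f] : Flat f := by
  refine (IsZariskiLocalAtSource.iff_of_openCover (P := @Flat) X.affineCover).mpr fun i ↦ ?_
  by_cases hne : Nonempty (X.affineCover.X i)
  · have hint : IsIntegral (X.affineCover.X i) := isIntegral_of_isOpenImmersion (X.affineCover.f i)
    have hdom : IsDominant (X.affineCover.f i) := isDominant_of_isOpenImmersion _
    have hdom2 : IsDominant (X.affineCover.f i ≫ f) := inferInstance
    exact @flat_Spec R _ _ _ _ hint hdom2
  · have : IsEmpty (X.affineCover.X i) := not_nonempty_iff.1 hne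
    infer_instance

lemma Dy.sc_injective {S : Type*} [CommRing S] [Nontrivial S] {ε δ : ℕ} {τ : S} :
    Function.Injective (Dy.sc ε δ τ) := by
  rw [injective_iff_map_eq_zero]
  intro s hs
  have h1 : Dy.qc ε δ τ (Polynomial.C (Polynomial.C s)) + Dy.qc ε δ τ 0 * Dy.yy ε δ τ = 0 := by
    rw [map_zero, zero_mul, add_zero]
    exact hs
  have h2 := (Dy.indep _ _ h1).1
  exact Polynomial.C_eq_zero.1 (Polynomial.C_eq_zero.1 h2)

variable (k : Type u) [Field k] (ε δ : ℕ)

instance isDominant_fX : IsDominant (fX k ε δ) := by
  have h1 : IsDominant (jX k ε δ ≫ fX k ε δ) := by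
    rw [jX_fX]
    exact isDominant_Spec_map _ Dy.sc_injective
  exact IsDominant.of_comp (jX k ε δ) (fX k ε δ)

lemma flat_fX [IsDomain (DD k ε δ)] : Flat (fX k ε δ) := flat_of_dominant (fX k ε δ)

lemma isVariety_base : IsVariety (sBB k) where
  isIntegral := inferInstance
  isSeparated := inferInstance
  locallyOfFiniteType := by
    rw [HasRingHomProperty.Spec_iff (P := @LocallyOfFiniteType)]
    exact (RingHom.finiteType_algebraMap).2 (inferInstance : Algebra.FiniteType k (Polynomial k))
  quasiCompact := inferInstance

lemma isVariety_fibre [IsDomain (DD k ε δ)] (a : k) [IsDomain (Dy ε δ a)] :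
    IsVariety (pullback.snd (fX k ε δ) (pt k a)) where
  isIntegral := isIntegral_ZZ k ε δ a
  isSeparated := inferInstance
  locallyOfFiniteType := inferInstance
  quasiCompact := inferInstance

end Pool.Agent.H72.BT
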