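import Mathlib

/-!
# No nonconstant rational functions satisfy the equation of the elliptic curve

The curve is `y² + ε y = x³ + δ x` with `(ε, δ) = (0, 1)` if `2 ≠ 0` and `(1, 0)` if `2 = 0`.
-/

open Polynomial

namespace Pool.Agent.H72.BT

/-- The admissible pairs of coefficients. -/
def Good (k : Type*) [Field k] (ε δ : ℕ) : Prop :=
  (ε = 0 ∧ δ = 1 ∧ (2 : k) ≠ 0) ∨ (ε = 1 ∧ δ = 0 ∧ (2 : k) = 0)

lemma good_map {k L : Type*} [Field k] [Field L] (φ : k →+* L) {ε δ : ℕ} (h : Good k ε δ) :
    Good L ε δ := by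
  rcases h with ⟨h1, h2, h3⟩ | ⟨h1, h2, h3⟩
  · left
    refine ⟨h1, h2, ?_⟩
    intro h
    apply h3
    apply φ.injective
    rw [map_ofNat, h, map_zero]
  · right
    refine ⟨h1, h2, ?_⟩
    have := congrArg φ h3
    rwa [map_ofNat, map_zero] at this

section

variable {L M : Type*} [Field L] [Field M] [Algebra L[X] M] [IsFractionRing L[X] M]

lemma exists_num_denom (s : M) : ∃ p q : L[X], q ≠ 0 ∧ IsCoprime p q ∧
    s * algebraMap L[X] M q = algebraMap L[X] M p := by
  obtain ⟨a, b, hab, hs⟩ := IsFractionRing.exists_reduced_fraction L[X] s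
  refine ⟨a, b, nonZeroDivisors.ne_zero b.2, ?_, ?_⟩
  · exact hab.isCoprime
  · rw [← hs]
    exact IsLocalization.mk'_spec _ _ _

lemma exists_poly_of_pow (v : M) (n : ℕ) (hn : 0 < n) (p : L[X])
    (h : v ^ n = algebraMap L[X] M p) : ∃ r : L[X], algebraMap L[X] M r = v := by
  have : IsIntegral L[X] (v ^ n) := by rw [h]; exact isIntegral_algebraMap
  exact IsIntegrallyClosed.isIntegral_iff.1 (IsIntegral.of_pow hn this)

lemma algebraMap_inj : Function.Injective (algebraMap L[X] M) :=
  IsFractionRing.injective L[X] M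

/-- `v² = s⁴ + 1` has only constant solutions in `L(X)`, characteristic not two. -/
lemma quartic (h2 : (2 : L) ≠ 0) (s v : M) (h : v ^ 2 = s ^ 4 + 1) :
    ∃ a : L, s = algebraMap L[X] M (C a) := by
  obtain ⟨p, q, hq, hpq, hs⟩ := exists_num_denom (L := L) s
  have h1 : (v * algebraMap L[X] M q ^ 2) ^ 2 = algebraMap L[X] M (p ^ 4 + q ^ 4) := by
    rw [map_add, map_pow, map_pow, ← hs]
    linear_combination (algebraMap L[X] M q ^ 4) * h
  obtain ⟨r, hr⟩ := exists_poly_of_pow _ 2 (by norm_num) _ h1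
  have h2' : r ^ 2 = p ^ 4 + q ^ 4 := by
    apply algebraMap_inj (M := M)
    rw [map_pow, hr, h1]
  have hq0 : algebraMap L[X] M q ≠ 0 := by
    intro h0
    exact hq (algebraMap_inj (M := M) (by rw [h0, map_zero]))
  -- it suffices that `p` and `q` have degree zero
  suffices hd : p.natDegree = 0 ∧ q.natDegree = 0 by
    obtain ⟨hp, hq'⟩ := hd
    rw [natDegree_eq_zero] at hp hq'
    obtain ⟨a, rfl⟩ := hp
    obtain ⟨b, rfl⟩ := hq'
    refine ⟨a / b, ?_⟩
    have hb : b ≠ 0 := by rintro rfl; simp at hq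
    apply mul_right_cancel₀ hq0
    rw [hs, ← map_mul, ← C_mul, div_mul_cancel₀ _ hb]
  by_cases hp0 : p = 0
  · subst hp0
    have : IsUnit q := by
      have := isCoprime_zero_left.1 hpq
      exact this
    exact ⟨by simp, natDegree_eq_zero_of_isUnit this⟩
  by_cases hr0 : r = 0
  · subst hr0
    have e : p ^ 4 = - q ^ 4 := by linear_combination -h2'
    have hqu : IsUnit q := by
      refine hpq.symm.pow_right (n := 4) |>.isUnit_of_dvd' dvd_rfl ?_
      rw [e]
      exact (dvd_pow_self q (by norm_num)).neg_right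
    have hpu : IsUnit p := by
      refine hpq.pow_right (n := 4) |>.isUnit_of_dvd' dvd_rfl ?_
      have : q ^ 4 = - p ^ 4 := by linear_combination -h2'
      rw [this]
      exact (dvd_pow_self p (by norm_num)).neg_right
    exact ⟨natDegree_eq_zero_of_isUnit hpu, natDegree_eq_zero_of_isUnit hqu⟩
  have h4 : ((4 : ℕ) : L) ≠ 0 := by
    have : ((4 : ℕ) : L) = 2 * 2 := by norm_num
    rw [this]; exact mul_ne_zero h2 h2
  have h2n : ((2 : ℕ) : L) ≠ 0 := by exact_mod_cast h2
  have := Polynomial.flt_catalan (k := L) (p := 4) (q := 4) (r := 2) (by norm_num) (by norm_num)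
    (by norm_num) (by norm_num) h4 h4 h2n hp0 hq hr0 hpq (u := 1) (v := 1) (w := -1)
    one_ne_zero one_ne_zero (neg_ne_zero.2 one_ne_zero) (by
      simp only [map_neg, map_one]
      linear_combination -h2')
  exact ⟨this.1, this.2.1⟩

/-- `Y³ + (Y + 1)³ = α³` has only solutions with constant `α` in characteristic two. -/
lemma cubic (h2 : (2 : L) = 0) (Y α : M) (h : Y ^ 3 + (Y + 1) ^ 3 = α ^ 3) :
    ∃ a : L, α = algebraMap L[X] M (C a) := by
  obtain ⟨p, q, hq, hpq, hs⟩ := exists_num_denom (L := L) Y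
  have h1 : (α * algebraMap L[X] M q) ^ 3 = algebraMap L[X] M (p ^ 3 + (p + q) ^ 3) := by
    rw [map_add, map_pow, map_pow, map_add, ← hs]
    linear_combination -(algebraMap L[X] M q ^ 3) * h
  obtain ⟨r, hr⟩ := exists_poly_of_pow _ 3 (by norm_num) _ h1
  have h2' : p ^ 3 + (p + q) ^ 3 = r ^ 3 := by
    apply algebraMap_inj (M := M)
    rw [map_pow, hr, h1]
  have hq0 : algebraMap L[X] M q ≠ 0 := by
    intro h0
    exact hq (algebraMap_inj (M := M) (by rw [h0, map_zero]))
  suffices hd : r.natDegree = 0 ∧ q.natDegree = 0 by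
    obtain ⟨hp, hq'⟩ := hd
    rw [natDegree_eq_zero] at hp hq'
    obtain ⟨a, rfl⟩ := hp
    obtain ⟨b, rfl⟩ := hq'
    refine ⟨a / b, ?_⟩
    have hb : b ≠ 0 := by rintro rfl; simp at hq
    apply mul_right_cancel₀ hq0
    rw [← hr, ← map_mul, ← C_mul, div_mul_cancel₀ _ hb]
  have h3 : ((3 : ℕ) : L) ≠ 0 := by
    have : ((3 : ℕ) : L) = 2 + 1 := by norm_num
    rw [this, h2, zero_add]; exact one_ne_zero
  have hcop : IsCoprime p (p + q) := by
    rw [add_comm]
    exact (IsCoprime.add_mul_left_right hpq 1 |>.mul_right isCoprime_one_right |> fun h => by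
      simpa [mul_one] using h)
  -- degrees of `p`, `q` zero imply that of `r`
  have key : p.natDegree = 0 → q.natDegree = 0 → r.natDegree = 0 := by
    intro hp hq
    rw [natDegree_eq_zero] at hp hq
    obtain ⟨a, rfl⟩ := hp
    obtain ⟨b, rfl⟩ := hq
    have : (r ^ 3).natDegree = 0 := by
      rw [← h2', ← C_pow, ← C_add, ← C_pow, ← C_add, natDegree_C]
    rw [natDegree_pow] at this
    lia
  by_cases hp0 : p = 0
  · subst hp0
    have hqu : IsUnit q := isCoprime_zero_left.1 hpq
    exact ⟨key (by simp) (natDegree_eq_zero_of_isUnit hqu), natDegree_eq_zero_of_isUnit hqu⟩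
  by_cases hpq0 : p + q = 0
  · have hpu : IsUnit p := by
      rw [hpq0] at hcop
      exact isCoprime_zero_right.1 hcop
    have hqe : q = -p := by linear_combination hpq0
    have hqd : q.natDegree = 0 := by
      rw [hqe, natDegree_neg]; exact natDegree_eq_zero_of_isUnit hpu
    exact ⟨key (natDegree_eq_zero_of_isUnit hpu) hqd, hqd⟩
  by_cases hr0 : r = 0
  · subst hr0
    have e : p ^ 3 = - (p + q) ^ 3 := by linear_combination h2'
    have hpu : IsUnit p := by
      refine hcop.pow_right (n := 3) |>.isUnit_of_dvd' dvd_rfl ?_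
      have : (p + q) ^ 3 = - p ^ 3 := by linear_combination h2'
      rw [this]
      exact (dvd_pow_self p (by norm_num)).neg_right
    have hqu : IsUnit (p + q) := by
      refine hcop.symm.pow_right (n := 3) |>.isUnit_of_dvd' dvd_rfl ?_
      rw [e]
      exact (dvd_pow_self (p + q) (by norm_num)).neg_right
    have hpd := natDegree_eq_zero_of_isUnit hpu
    have hpqd := natDegree_eq_zero_of_isUnit hqu
    refine ⟨by simp, ?_⟩
    rw [natDegree_eq_zero] at hpd hpqd ⊢
    obtain ⟨a, ha⟩ := hpd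
    obtain ⟨b, hb⟩ := hpqd
    exact ⟨b - a, by rw [C_sub, ha, hb]; ring⟩
  have := Polynomial.flt (k := L) (n := 3) le_rfl h3 hp0 hpq0 hr0 hcop h2'
  obtain ⟨hpd, hpqd, hrd⟩ := this
  refine ⟨hrd, ?_⟩
  rw [natDegree_eq_zero] at hpd hpqd ⊢
  obtain ⟨a, ha⟩ := hpd
  obtain ⟨b, hb⟩ := hpqd
  exact ⟨b - a, by rw [C_sub, ha, hb]; ring⟩

/-- Main lemma: solutions of the equation of the curve in `L(X)` are constant. -/
theorem const_of_curve {k : Type*} [Field k] [IsAlgClosed k] (φ : k →+* L) {ε δ : ℕ}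
    (hg : Good k ε δ) (α β : M) (h : β ^ 2 + ε * β = α ^ 3 + δ * α) :
    ∃ a : L, α = algebraMap L[X] M (C a) := by
  have hL := good_map φ hg
  rcases hL with ⟨rfl, rfl, h2⟩ | ⟨rfl, rfl, h2⟩
  · simp only [Nat.cast_zero, zero_mul, add_zero, Nat.cast_one, one_mul] at h
    obtain ⟨z, hz⟩ := IsAlgClosed.exists_pow_nat_eq (-1 : k) (n := 4) (by norm_num)
    obtain ⟨r, hr⟩ := IsAlgClosed.exists_pow_nat_eq (2 : k) (n := 2) (by norm_num)
    set ψ : k →+* M := (algebraMap L[X] M).comp (C.comp φ) with hψ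
    have hz' : ψ z ^ 4 = -1 := by rw [← map_pow, hz, map_neg, map_one]
    have hr' : ψ r ^ 2 = 2 := by rw [← map_pow, hr, map_ofNat]
    have h2M : (2 : M) ≠ 0 := by
      intro h0
      apply h2
      have h3 : algebraMap L[X] M (C (2 : L)) = 0 := by
        rw [map_ofNat, map_ofNat, h0]
      have h4 := algebraMap_inj (M := M) (h3.trans (map_zero _).symm)
      exact C_eq_zero.1 h4
    by_cases h1 : (1 : M) - α = 0
    · refine ⟨1, ?_⟩
      rw [C_1, map_one]
      linear_combination -h1
    · have hq : (2 * ψ r * ψ z ^ 2 * β / (1 - α) ^ 2) ^ 2 =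
          (ψ z * (1 + α) / (1 - α)) ^ 4 + 1 := by
        field_simp
        linear_combination (4 * β ^ 2 * ψ z ^ 4) * hr' +
          (8 * β ^ 2 - (1 + α) ^ 4) * hz' - 8 * h
      obtain ⟨a, ha⟩ := quartic h2 _ _ hq
      -- `s = ζ (1+α)/(1-α)`, so `α = (s-ζ)/(s+ζ)`
      have hz0 : ψ z ≠ 0 := by
        intro h0
        rw [h0] at hz'
        norm_num at hz'
      have hs : (algebraMap L[X] M (C a)) * (1 - α) = ψ z * (1 + α) := by
        rw [← ha]; field_simp
      have hden : algebraMap L[X] M (C (a + φ z)) ≠ 0 := by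
        intro h0
        have e1 : algebraMap L[X] M (C a) = - ψ z := by
          rw [C_add, map_add] at h0
          rw [hψ]
          simp only [RingHom.coe_comp, Function.comp_apply]
          linear_combination h0
        rw [e1] at hs
        have : 2 * ψ z = 0 := by linear_combination -hs
        rcases mul_eq_zero.1 this with h | h
        · exact h2M h
        · exact hz0 h
      have hden' : a + φ z ≠ 0 := by
        intro h0; apply hden; rw [h0, C_0, map_zero]
      refine ⟨(a - φ z) / (a + φ z), ?_⟩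
      apply mul_right_cancel₀ hden
      rw [← map_mul, ← C_mul, div_mul_cancel₀ _ hden', C_add, C_sub, map_add, map_sub]
      have : ψ z = algebraMap L[X] M (C (φ z)) := rfl
      rw [← this]
      linear_combination -hs
  · simp only [Nat.cast_one, one_mul, Nat.cast_zero, zero_mul, add_zero] at h
    have hk2 : (2 : k) = 0 := by
      apply φ.injective
      rw [map_ofNat, h2, map_zero]
    obtain ⟨w, hw⟩ : ∃ w : k, w ^ 2 + w + 1 = 0 := by
      have hdeg : (X ^ 2 + X + 1 : k[X]).degree ≠ 0 := by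
        have : (X ^ 2 + X + 1 : k[X]).natDegree = 2 := by compute_degree!
        intro h0
        have := natDegree_eq_of_degree_eq_some (n := 0) (by simpa using h0)
        lia
      obtain ⟨w, hw⟩ := IsAlgClosed.exists_root _ hdeg
      exact ⟨w, by simpa [IsRoot.def] using hw⟩
    set ψ : k →+* M := (algebraMap L[X] M).comp (C.comp φ) with hψ
    have hw' : ψ w ^ 2 + ψ w + 1 = 0 := by
      rw [← map_pow, ← map_add, ← map_one ψ, ← map_add, hw, map_zero]
    have h2M : (2 : M) = 0 := by
      have := congrArg ψ hk2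
      rwa [map_ofNat, map_zero] at this
    apply cubic h2 (β + ψ w) α
    linear_combination h + hw' + ((β + ψ w) ^ 3 + (β + ψ w) ^ 2 + (β + ψ w) + β * ψ w) * h2M

end

end Pool.Agent.H72.BT
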