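import Mathlib

/-!
# Scheme-theoretic images of integral schemes
-/

open CategoryTheory Limits AlgebraicGeometry

universe u

namespace Pool.Agent.H72.BT

variable {X Y : Scheme.{u}} (f : X ⟶ Y) [QuasiCompact f]

lemma toImage_dominant : IsSchemeTheoreticallyDominant f.toImage := by
  rw [isSchemeTheoreticallyDominant_iff]
  refine Scheme.IdealSheafData.ext_of_iSup_eq_top
    (fun U : Y.affineOpens => ⟨f.imageι ⁻¹ᵁ U, U.2.preimage f.imageι⟩) ?_ ?_
  · have := AlgebraicGeometry.iSup_affineOpens_eq_top Y
    have h2 := congrArg (fun V => f.imageι ⁻¹ᵁ V) this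
    simpa using h2
  · intro U
    rw [Scheme.Hom.ker_apply]
    simp only [Scheme.IdealSheafData.ideal_bot, Pi.bot_apply]
    exact (RingHom.injective_iff_ker_eq_bot _).1 (f.toImage_app_injective U)

lemma isIntegral_of_dominant {X Y : Scheme.{u}} (f : X ⟶ Y) [QuasiCompact f] [IsIntegral X]
    [IsSchemeTheoreticallyDominant f] : IsIntegral Y := by
  have h1 : IsReduced Y := IsSchemeTheoreticallyDominant.isReduced f
  have h2 : IrreducibleSpace Y := by
    have h3 : IsIrreducible (Set.univ : Set X) := IrreducibleSpace.isIrreducible_univ X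
    have h4 := (h3.image f f.continuous.continuousOn).closure
    rw [Set.image_univ, f.denseRange.closure_eq] at h4
    have : Nonempty Y := ⟨f (Classical.arbitrary X)⟩
    exact { isPreirreducible_univ := h4.2, toNonempty := this }
  exact isIntegral_of_irreducibleSpace_of_isReduced Y

lemma isIntegral_image [IsIntegral X] : IsIntegral f.image := by
  have := toImage_dominant f
  exact isIntegral_of_dominant f.toImage

end Pool.Agent.H72.BT
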