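import Pool.Agent.H72.BT.Key

/-!
# Homogeneous forms vanishing on a fibre
-/

open Polynomial

namespace Pool.Agent.H72.BT

/-- The sextic form
`y² z⁴ + ε y z⁵ - (u² - a w z)³ - δ (u² - a w z) z⁴` in the variables `u, y, w, z`. -/
noncomputable def sextic {A : Type*} [CommRing A] (ε δ : ℕ) (a : A) : MvPolynomial (Fin (3 + 1)) A :=
  MvPolynomial.X 1 ^ 2 * MvPolynomial.X 3 ^ 4
    + (ε : MvPolynomial (Fin (3 + 1)) A) * MvPolynomial.X 1 * MvPolynomial.X 3 ^ 5
    - (MvPolynomial.X 0 ^ 2 - MvPolynomial.C a * MvPolynomial.X 2 * MvPolynomial.X 3) ^ 3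
    - (δ : MvPolynomial (Fin (3 + 1)) A) *
      (MvPolynomial.X 0 ^ 2 - MvPolynomial.C a * MvPolynomial.X 2 * MvPolynomial.X 3)
        * MvPolynomial.X 3 ^ 4

section

variable {k : Type*} [CommRing k] {S : Type*} [CommRing S] (φ : k →+* S) (ε δ : ℕ) (τ : S)

/-- The evaluation of a polynomial at the point `(u, y, w, 1)`. -/
noncomputable def ev : MvPolynomial (Fin (3 + 1)) k →+* Dy ε δ τ :=
  MvPolynomial.eval₂Hom ((Dy.sc ε δ τ).comp φ)
    ![Dy.uu ε δ τ, Dy.yy ε δ τ, Dy.ww ε δ τ, 1]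

@[simp] lemma ev_zero : ev φ ε δ τ (MvPolynomial.X 0) = Dy.uu ε δ τ := by
  rw [ev, MvPolynomial.coe_eval₂Hom, MvPolynomial.eval₂_X]; rfl
@[simp] lemma ev_one : ev φ ε δ τ (MvPolynomial.X 1) = Dy.yy ε δ τ := by
  rw [ev, MvPolynomial.coe_eval₂Hom, MvPolynomial.eval₂_X]; rfl
@[simp] lemma ev_two : ev φ ε δ τ (MvPolynomial.X 2) = Dy.ww ε δ τ := by
  rw [ev, MvPolynomial.coe_eval₂Hom, MvPolynomial.eval₂_X]; rfl
@[simp] lemma ev_three : ev φ ε δ τ (MvPolynomial.X 3) = 1 := by
  rw [ev, MvPolynomial.coe_eval₂Hom, MvPolynomial.eval₂_X]; rfl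
@[simp] lemma ev_C (a : k) : ev φ ε δ τ (MvPolynomial.C a) = Dy.sc ε δ τ (φ a) := by
  rw [ev, MvPolynomial.coe_eval₂Hom, MvPolynomial.eval₂_C]; rfl

end

section ker

variable {k : Type*} [Field k] (ε δ : ℕ) (a : k)

lemma eval₂_smul_homogeneous {A B : Type*} [CommRing A] [CommRing B] (ι : A →+* B)
    (x : Fin (3 + 1) → B) (c : B) (h : MvPolynomial (Fin (3 + 1)) A) (n : ℕ) (hn : h.IsHomogeneous n) :
    MvPolynomial.eval₂ ι (fun i => x i * c) h = MvPolynomial.eval₂ ι x h * c ^ n := by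
  rw [MvPolynomial.eval₂_eq', MvPolynomial.eval₂_eq', Finset.sum_mul]
  refine Finset.sum_congr rfl fun d hd => ?_
  have h1 := hn (MvPolynomial.mem_support_iff.1 hd)
  have h2 : ∑ i, d i = n := by
    rw [← h1, Finsupp.weight_apply, Finsupp.sum_fintype]
    · simp
    · intro i; simp
  simp only [mul_pow]
  rw [Finset.prod_mul_distrib, Finset.prod_pow_eq_pow_sum, h2]
  ring

theorem sextic_dvd (h : MvPolynomial (Fin (3 + 1)) k) (n : ℕ) (hn : h.IsHomogeneous n)
    (h0 : ev (RingHom.id k) ε δ a h = 0) : sextic ε δ a ∣ h := by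
  let A := MvPolynomial (Fin (3 + 1)) k
  let z : A := MvPolynomial.X 3
  let Az := Localization.Away z
  let ι : A →+* Az := algebraMap A Az
  let zi : Az := IsLocalization.Away.invSelf z
  have hzi : ι z * zi = 1 := IsLocalization.Away.mul_invSelf z
  have hι : Function.Injective ι := by
    apply IsLocalization.injective Az (M := Submonoid.powers z)
    apply powers_le_nonZeroDivisors_of_noZeroDivisors
    exact MvPolynomial.X_prime.ne_zero
  let x0 : Az := ι (MvPolynomial.X 0) * zi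
  let x1 : Az := ι (MvPolynomial.X 1) * zi
  let x2 : Az := ι (MvPolynomial.X 2) * zi
  -- the map from the iterated polynomial ring
  let lam : k[X][X][X] →+* Az :=
    eval₂RingHom (eval₂RingHom (eval₂RingHom (ι.comp MvPolynomial.C) x2) x0) x1
  let vT : Fin (3 + 1) → k[X][X][X] := ![C X, X, C (C X), 1]
  let evT : A →+* k[X][X][X] := MvPolynomial.eval₂Hom
    ((C : k[X][X] →+* k[X][X][X]).comp ((C : k[X] →+* k[X][X]).comp (C : k →+* k[X]))) vT
  have hev : ev (RingHom.id k) ε δ a h = Dy.mk ε δ a (evT h) := by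
    have : ev (RingHom.id k) ε δ a = (Dy.mk ε δ a).comp evT := by
      apply MvPolynomial.ringHom_ext
      · intro r
        rw [ev_C, RingHom.comp_apply, MvPolynomial.coe_eval₂Hom, MvPolynomial.eval₂_C,
          RingHom.comp_apply, Dy.mk_C]
        rfl
      · intro i
        rw [RingHom.comp_apply, MvPolynomial.coe_eval₂Hom, MvPolynomial.eval₂_X]
        fin_cases i
        · exact (ev_zero ..).trans (Dy.mk_C ..).symm
        · exact (ev_one ..).trans (Dy.mk_X ..).symm
        · exact (ev_two ..).trans (Dy.mk_C ..).symm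
        · exact (ev_three ..).trans (map_one _).symm
    rw [this]; rfl
  rw [hev, Dy.mk_eq_zero] at h0
  obtain ⟨q, hq⟩ := h0
  have h1 : lam (evT h) = ι h * zi ^ n := by
    have e1 : lam.comp evT = MvPolynomial.eval₂Hom (ι.comp MvPolynomial.C)
        (fun i => ι (MvPolynomial.X i) * zi) := by
      apply MvPolynomial.ringHom_ext
      · intro r
        rw [RingHom.comp_apply, MvPolynomial.coe_eval₂Hom, MvPolynomial.eval₂_C,
          MvPolynomial.coe_eval₂Hom, MvPolynomial.eval₂_C]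
        simp only [lam, RingHom.comp_apply, coe_eval₂RingHom, eval₂_C]
      · intro i
        rw [RingHom.comp_apply, MvPolynomial.coe_eval₂Hom, MvPolynomial.eval₂_X,
          MvPolynomial.coe_eval₂Hom, MvPolynomial.eval₂_X]
        fin_cases i
        · change lam (C X) = _
          simp only [lam, coe_eval₂RingHom, eval₂_C, eval₂_X]; rfl
        · change lam X = _
          simp only [lam, coe_eval₂RingHom, eval₂_C, eval₂_X]; rfl
        · change lam (C (C X)) = _
          simp only [lam, coe_eval₂RingHom, eval₂_C, eval₂_X]; rfl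
        · change lam 1 = _
          rw [map_one]; exact hzi.symm
    have e2 : lam (evT h) = MvPolynomial.eval₂ (ι.comp MvPolynomial.C)
        (fun i => ι (MvPolynomial.X i) * zi) h := RingHom.congr_fun e1 h
    rw [e2, eval₂_smul_homogeneous _ _ _ _ n hn]
    congr 1
    have e3 : MvPolynomial.eval₂Hom (ι.comp MvPolynomial.C)
        (fun i => ι (MvPolynomial.X i)) = ι := by
      apply MvPolynomial.ringHom_ext
      · intro r; rw [MvPolynomial.coe_eval₂Hom, MvPolynomial.eval₂_C]; rfl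
      · intro i; rw [MvPolynomial.coe_eval₂Hom, MvPolynomial.eval₂_X]
    exact RingHom.congr_fun e3 h
  have h2 : lam (quad (ε : k[X][X]) (gg δ a)) = ι (sextic ε δ a) * zi ^ 6 := by
    have e1 : lam (quad (ε : k[X][X]) (gg δ a)) =
        x1 ^ 2 + ε * x1 - ((x0 ^ 2 - ι (MvPolynomial.C a) * x2) ^ 3 +
          δ * (x0 ^ 2 - ι (MvPolynomial.C a) * x2)) := by
      simp only [lam, quad, gg, cc, coe_eval₂RingHom, eval₂_sub, eval₂_add, eval₂_pow, eval₂_mul,
        eval₂_X, eval₂_C, eval₂_natCast, RingHom.comp_apply]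
    rw [e1, sextic]
    simp only [map_sub, map_add, map_mul, map_pow, map_natCast]
    have ez : ι (MvPolynomial.X 3) = ι z := rfl
    have e3 : x0 = ι (MvPolynomial.X 0) * zi := rfl
    have e4 : x1 = ι (MvPolynomial.X 1) * zi := rfl
    have e5 : x2 = ι (MvPolynomial.X 2) * zi := rfl
    rw [ez, e3, e4, e5]
    generalize ι (MvPolynomial.X 0) = X0
    generalize ι (MvPolynomial.X 1) = X1
    generalize ι (MvPolynomial.X 2) = X2
    generalize ι (MvPolynomial.C a) = A0
    generalize ι z = z0 at hzi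
    have p4 : z0 ^ 4 * zi ^ 4 = 1 := by rw [← mul_pow, hzi, one_pow]
    have p5 : z0 ^ 5 * zi ^ 5 = 1 := by rw [← mul_pow, hzi, one_pow]
    have e6 : A0 * (X2 * zi) = A0 * X2 * z0 * zi ^ 2 := by
      linear_combination -(A0 * X2 * zi) * hzi
    rw [e6]
    linear_combination -(X1 ^ 2 * zi ^ 2) * p4 - (ε : Az) * X1 * zi * p5 +
      δ * (X0 ^ 2 - A0 * X2 * z0) * zi ^ 2 * p4
  -- clear denominators
  obtain ⟨⟨q', ⟨_, N, rfl⟩⟩, hq'⟩ := IsLocalization.surj (Submonoid.powers z) (lam q)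
  simp only at hq'
  have h3 : h * z ^ (6 + N) = sextic ε δ a * (z ^ n * q') := by
    apply hι
    rw [map_mul, map_mul, map_mul, map_pow, map_pow]
    have e1 : ι h * zi ^ n = ι (sextic ε δ a) * zi ^ 6 * lam q := by
      rw [← h1, ← h2, ← map_mul, ← hq]
    have hq'' : lam q * ι z ^ N = ι q' := by rw [← map_pow]; exact hq'
    have pn : zi ^ n * ι z ^ n = 1 := by rw [← mul_pow, mul_comm zi, hzi, one_pow]
    have p6 : zi ^ 6 * ι z ^ 6 = 1 := by rw [← mul_pow, mul_comm zi, hzi, one_pow]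
    rw [pow_add]
    calc ι h * (ι z ^ 6 * ι z ^ N) = (ι h * zi ^ n) * (ι z ^ n * ι z ^ 6 * ι z ^ N) := by
          linear_combination -(ι h * ι z ^ 6 * ι z ^ N) * pn
      _ = ι (sextic ε δ a) * zi ^ 6 * lam q * (ι z ^ n * ι z ^ 6 * ι z ^ N) := by rw [e1]
      _ = ι (sextic ε δ a) * (ι z ^ n * ι q') := by
          rw [← hq'']
          linear_combination (ι (sextic ε δ a) * lam q * ι z ^ n * ι z ^ N) * p6
  have hz : Prime z := MvPolynomial.X_prime
  have hnd : ¬ z ∣ sextic ε δ a := by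
    rintro ⟨g, hg⟩
    have := congrArg (MvPolynomial.eval ![(1 : k), 0, 0, 0]) hg
    simp [sextic, z] at this
  have h4 : z ^ (6 + N) ∣ z ^ n * q' := by
    refine hz.pow_dvd_of_dvd_mul_left _ hnd ?_
    exact ⟨h, by rw [← h3]; ring⟩
  obtain ⟨g, hg⟩ := h4
  refine ⟨g, ?_⟩
  apply mul_right_cancel₀ (pow_ne_zero (6 + N) hz.ne_zero)
  rw [h3, hg]
  ring

end ker

end Pool.Agent.H72.BT
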