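import Pool.Agent.H72.BT.Dom

/-!
# The key algebraic statement

The local ring of the family at the generic point of the special fibre contains no pair of
functions satisfying the equation of the curve and generating the function field of the
special fibre.
-/

open Polynomial

namespace Pool.Agent.H72.BT

lemma parity {L : Type*} [CommRing L] (f g : L[X]) (h : expand L 2 f + expand L 2 g * X = 0) :
    f = 0 ∧ g = 0 := by
  constructor
  · ext n
    have h1 := congrArg (fun p => p.coeff (2 * n)) h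
    simp only [coeff_add, coeff_zero] at h1
    rw [mul_comm 2 n, coeff_expand_mul (by norm_num)] at h1
    rcases n with _ | n
    · simpa using h1
    · rw [show (n + 1) * 2 = (2 * n + 1) + 1 by ring, coeff_mul_X,
        coeff_expand (by norm_num), if_neg (by lia)] at h1
      simpa using h1
  · ext n
    have h1 := congrArg (fun p => p.coeff (2 * n + 1)) h
    simp only [coeff_add, coeff_zero, coeff_mul_X] at h1
    rw [coeff_expand (by norm_num), if_neg (by lia), mul_comm 2 n,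
      coeff_expand_mul (by norm_num)] at h1
    simpa using h1

section sub

variable {S : Type*} [CommRing S] {ε δ : ℕ} {L : Type*} [Field L] (i : Cr S ε δ →+* L) (τ : S)

/-- The substitution `w ↦ (X - x) / τ`. -/
noncomputable def psub : (Cr S ε δ)[X] →+* L[X] :=
  eval₂RingHom (C.comp i) (C (i (Cr.sc τ))⁻¹ * (X - C (i Cr.xx)))

lemma psub_injective (hi : Function.Injective i) (hτ : i (Cr.sc τ) ≠ 0) :
    Function.Injective (psub i τ) := by
  rw [injective_iff_map_eq_zero]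
  intro p hp
  have h1 : psub i τ p = (p.map i).comp (C (i (Cr.sc τ))⁻¹ * (X - C (i Cr.xx))) := by
    rw [psub, coe_eval₂RingHom, Polynomial.comp, eval₂_map]
  rw [h1, comp_eq_zero_iff] at hp
  rcases hp with h | ⟨-, h⟩
  · exact (Polynomial.map_eq_zero_iff hi).1 h
  · exfalso
    have h2 := congrArg (fun f => f.coeff 1) h
    simp only [coeff_C_mul, coeff_sub, coeff_X_one, coeff_C_succ, sub_zero, mul_one] at h2
    exact inv_ne_zero hτ h2

/-- The embedding of `Du` into a polynomial ring. -/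
noncomputable def rho (hτ : i (Cr.sc τ) ≠ 0) : Du ε δ τ →+* L[X] :=
  Du.lift (C.comp (i.comp Cr.sc)) X (C (i Cr.yy)) (C (i (Cr.sc τ))⁻¹ * (X ^ 2 - C (i Cr.xx))) (by
    have e : (X : L[X]) ^ 2 - (C.comp (i.comp Cr.sc)) τ *
        (C (i (Cr.sc τ))⁻¹ * (X ^ 2 - C (i Cr.xx))) = C (i Cr.xx) := by
      rw [RingHom.comp_apply, RingHom.comp_apply, ← mul_assoc, ← C_mul, mul_inv_cancel₀ hτ, C_1,
        one_mul]
      ring
    rw [e]
    have h1 := congrArg (fun a => (C : L →+* L[X]) (i a)) (Cr.eqn (S := S) (ε := ε) (δ := δ))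
    simp only [map_add, map_mul, map_pow, map_natCast] at h1
    exact h1)

lemma rho_qc (hτ : i (Cr.sc τ) ≠ 0) (p : (Cr S ε δ)[X]) :
    rho i τ hτ (Du.qc ε δ τ p) = expand L 2 (psub i τ p) := by
  have : (rho i τ hτ).comp (Du.qc ε δ τ) = ((expand L 2 : L[X] →ₐ[L] L[X]) : L[X] →+* L[X]).comp
      (psub i τ) := by
    apply Polynomial.ringHom_ext'
    · apply Cr.hom_ext
      · ext1 s
        have h1 : rho i τ hτ (Du.sc ε δ τ s) = C (i (Cr.sc s)) := Du.lift_sc ..
        have h2 : psub i τ (C (Cr.sc s)) = C (i (Cr.sc s)) := by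
          rw [psub, coe_eval₂RingHom, eval₂_C]; rfl
        change rho i τ hτ (Du.sc ε δ τ s) = expand L 2 (psub i τ (C (Cr.sc s)))
        rw [h1, h2, expand_C]
      · have h1 : rho i τ hτ (Du.xx ε δ τ) = C (i Cr.xx) := by
          rw [Du.xx_eq, map_sub, map_pow, map_mul]
          have h1 : rho i τ hτ (Du.sc ε δ τ τ) = C (i (Cr.sc τ)) := Du.lift_sc ..
          have h2 : rho i τ hτ (Du.uu ε δ τ) = X := Du.lift_uu ..
          have h3 : rho i τ hτ (Du.ww ε δ τ) = C (i (Cr.sc τ))⁻¹ * (X ^ 2 - C (i Cr.xx)) :=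
            Du.lift_ww ..
          rw [h1, h2, h3, ← mul_assoc, ← C_mul, mul_inv_cancel₀ hτ, C_1, one_mul]
          ring
        have h2 : psub i τ (C Cr.xx) = C (i Cr.xx) := by
          rw [psub, coe_eval₂RingHom, eval₂_C]; rfl
        change rho i τ hτ (Du.xx ε δ τ) = expand L 2 (psub i τ (C Cr.xx))
        rw [h1, h2, expand_C]
      · have h1 : rho i τ hτ (Du.yy ε δ τ) = C (i Cr.yy) := Du.lift_yy ..
        have h2 : psub i τ (C Cr.yy) = C (i Cr.yy) := by
          rw [psub, coe_eval₂RingHom, eval₂_C]; rfl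
        change rho i τ hτ (Du.yy ε δ τ) = expand L 2 (psub i τ (C Cr.yy))
        rw [h1, h2, expand_C]
    · have h1 : rho i τ hτ (Du.ww ε δ τ) = C (i (Cr.sc τ))⁻¹ * (X ^ 2 - C (i Cr.xx)) :=
        Du.lift_ww ..
      have h2 : psub i τ X = C (i (Cr.sc τ))⁻¹ * (X - C (i Cr.xx)) := by
        rw [psub, coe_eval₂RingHom, eval₂_X]
      change rho i τ hτ (Du.ww ε δ τ) = expand L 2 (psub i τ X)
      rw [h1, h2, map_mul, map_sub, expand_C, expand_C, expand_X]
  exact RingHom.congr_fun this p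

lemma rho_uu (hτ : i (Cr.sc τ) ≠ 0) : rho i τ hτ (Du.uu ε δ τ) = X := Du.lift_uu ..

end sub

lemma Du_exists {S : Type*} [CommRing S] [Nontrivial S] {ε δ : ℕ} [Nontrivial (Cr S ε δ)] (τ : S)
    (d : Du ε δ τ) : ∃ p q : (Cr S ε δ)[X], d = Du.qc ε δ τ p + Du.qc ε δ τ q * Du.uu ε δ τ :=
  quad_exists (0 : (Cr S ε δ)[X]) (C (Cr.sc τ) * X + C Cr.xx) d

lemma Du_indep {S : Type*} [CommRing S] [Nontrivial S] {ε δ : ℕ} [Nontrivial (Cr S ε δ)] (τ : S)
    (p q : (Cr S ε δ)[X]) (h : Du.qc ε δ τ p + Du.qc ε δ τ q * Du.uu ε δ τ = 0) :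
    p = 0 ∧ q = 0 :=
  quad_indep (0 : (Cr S ε δ)[X]) (C (Cr.sc τ) * X + C Cr.xx) p q h

lemma Cr_sc_injective {S : Type*} [CommRing S] [Nontrivial S] {ε δ : ℕ} :
    Function.Injective (Cr.sc : S →+* Cr S ε δ) := by
  rw [injective_iff_map_eq_zero]
  intro s hs
  have h1 : Cr.qc (C s) + Cr.qc 0 * (Cr.yy : Cr S ε δ) = 0 := by
    rw [map_zero, zero_mul, add_zero]
    exact hs
  have h2 := (quad_indep (ε : S[X]) (X ^ 3 + (δ : S[X]) * X) _ _ h1).1
  exact C_eq_zero.1 h2

section key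

variable {k : Type*} [Field k] [IsAlgClosed k] {S : Type*} [CommRing S] [IsDomain S]
  (φ : k →+* S) {ε δ : ℕ} (hg : Good k ε δ) (τ : S) (hτ : τ ≠ 0)

include φ hg hτ in
theorem key {κ : Type*} [Field κ] (red : Du ε δ τ →+* κ)
    (hind : ∀ p q : (Cr S ε δ)[X],
      red (Du.qc ε δ τ p) + red (Du.qc ε δ τ q) * red (Du.uu ε δ τ) = 0 →
      red (Du.qc ε δ τ p) = 0 ∧ red (Du.qc ε δ τ q) = 0)
    {Loc : Type*} [CommRing Loc] [Algebra (Du ε δ τ) Loc]
    [(RingHom.ker red).IsPrime] [IsLocalization.AtPrime Loc (RingHom.ker red)]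
    (res : Loc →+* κ) (hres : ∀ d, res (algebraMap (Du ε δ τ) Loc d) = red d)
    (x y : Loc) (hxy : y ^ 2 + ε * y = x ^ 3 + δ * x)
    (a b c d : k) (hdet : a * d - b * c ≠ 0)
    (hx : (red (Du.sc ε δ τ (φ a)) * red (Du.uu ε δ τ) + red (Du.sc ε δ τ (φ b))) * res x =
      red (Du.sc ε δ τ (φ c)) * red (Du.uu ε δ τ) + red (Du.sc ε δ τ (φ d))) : False := by
  have hC : IsDomain (Cr S ε δ) := Cr_isDomain φ hg
  let L := FractionRing (Cr S ε δ)
  let M := FractionRing L[X]
  let i : Cr S ε δ →+* L := algebraMap _ _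
  have hi : Function.Injective i := IsFractionRing.injective _ _
  have hτ' : i (Cr.sc τ) ≠ 0 := by
    intro h
    apply hτ
    apply Cr_sc_injective (ε := ε) (δ := δ)
    apply hi
    rw [h, map_zero, map_zero]
  have hps := psub_injective i τ hi hτ'
  -- injectivity of rho
  have hrho : Function.Injective (rho i τ hτ') := by
    rw [injective_iff_map_eq_zero]
    intro e he
    obtain ⟨p, q, rfl⟩ := Du_exists τ e
    rw [map_add, map_mul, rho_qc, rho_qc, rho_uu] at he
    obtain ⟨h1, h2⟩ := parity _ _ he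
    have hp : p = 0 := hps (by rw [h1, map_zero])
    have hq : q = 0 := hps (by rw [h2, map_zero])
    rw [hp, hq, map_zero, zero_mul, add_zero]
  let ρM : Du ε δ τ →+* M := (algebraMap L[X] M).comp (rho i τ hτ')
  have hρM : Function.Injective ρM := (IsFractionRing.injective L[X] M).comp hrho
  have hunit : ∀ e : (RingHom.ker red).primeCompl, IsUnit (ρM e) := by
    rintro ⟨e, he⟩
    rw [isUnit_iff_ne_zero]
    intro h0
    apply he
    have : e = 0 := hρM (by rw [h0, map_zero])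
    rw [this]
    exact Ideal.zero_mem _
  let ρl : Loc →+* M := IsLocalization.lift (M := (RingHom.ker red).primeCompl) hunit
  have hρl : ∀ e, ρl (algebraMap (Du ε δ τ) Loc e) = ρM e := fun e =>
    IsLocalization.lift_eq hunit e
  -- constancy
  obtain ⟨α, hα⟩ := const_of_curve (L := L) (M := M) ((i.comp Cr.sc).comp φ) hg (ρl x) (ρl y) (by
    have := congrArg ρl hxy
    simpa only [map_add, map_pow, map_mul, map_natCast] using this)
  obtain ⟨⟨d₁, d₂⟩, hd⟩ := IsLocalization.surj (RingHom.ker red).primeCompl x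
  simp only at hd
  have h1 : C α * rho i τ hτ' d₂ = rho i τ hτ' d₁ := by
    apply IsFractionRing.injective L[X] M
    have := congrArg ρl hd
    rw [map_mul, hρl, hρl, hα] at this
    rw [map_mul]
    exact this
  obtain ⟨p₁, q₁, h₁⟩ := Du_exists τ d₁
  obtain ⟨p₂, q₂, h₂⟩ := Du_exists τ (d₂ : Du ε δ τ)
  rw [h₁, h₂, map_add, map_mul, rho_qc, rho_qc, rho_uu, map_add, map_mul, rho_qc, rho_qc,
    rho_uu] at h1
  have h2 : expand L 2 (C α * psub i τ p₂ - psub i τ p₁) +
      expand L 2 (C α * psub i τ q₂ - psub i τ q₁) * X = 0 := by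
    rw [map_sub, map_sub, map_mul, map_mul, expand_C]
    linear_combination h1
  obtain ⟨h3, h4⟩ := parity _ _ h2
  have h5 : p₁ * q₂ = q₁ * p₂ := by
    apply hps
    rw [map_mul, map_mul]
    linear_combination (psub i τ p₂) * h4 - (psub i τ q₂) * h3
  -- now reduce
  have h6 : red (Du.qc ε δ τ p₁) * red (Du.qc ε δ τ q₂) =
      red (Du.qc ε δ τ q₁) * red (Du.qc ε δ τ p₂) := by
    rw [← map_mul, ← map_mul, ← map_mul, ← map_mul, h5]
  have h7 : res x * (red (Du.qc ε δ τ p₂) + red (Du.qc ε δ τ q₂) * red (Du.uu ε δ τ)) =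
      red (Du.qc ε δ τ p₁) + red (Du.qc ε δ τ q₁) * red (Du.uu ε δ τ) := by
    have := congrArg res hd
    rw [map_mul, hres, hres, h₁, h₂, map_add, map_mul, map_add, map_mul] at this
    exact this
  have h8 : red (Du.qc ε δ τ p₂) + red (Du.qc ε δ τ q₂) * red (Du.uu ε δ τ) ≠ 0 := by
    intro h0
    apply d₂.2
    change red d₂ = 0
    rw [h₂, map_add, map_mul, h0]
  -- a fraction
  obtain ⟨P, R, hR, hPR⟩ : ∃ P R : (Cr S ε δ)[X], red (Du.qc ε δ τ R) ≠ 0 ∧
      res x * red (Du.qc ε δ τ R) = red (Du.qc ε δ τ P) := by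
    by_cases hp : red (Du.qc ε δ τ p₂) = 0
    · have hq : red (Du.qc ε δ τ q₂) ≠ 0 := by
        intro hq; apply h8; rw [hp, hq]; ring
      refine ⟨q₁, q₂, hq, ?_⟩
      apply mul_right_cancel₀ h8
      linear_combination (red (Du.qc ε δ τ q₂)) * h7 + h6
    · refine ⟨p₁, p₂, hp, ?_⟩
      apply mul_right_cancel₀ h8
      linear_combination (red (Du.qc ε δ τ p₂)) * h7 - (red (Du.uu ε δ τ)) * h6
  -- conclusion
  have hs : ∀ s : k, red (Du.sc ε δ τ (φ s)) = red (Du.qc ε δ τ (C (Cr.sc (φ s)))) := fun s => rfl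
  have h9 : red (Du.qc ε δ τ (C (Cr.sc (φ b)) * P - C (Cr.sc (φ d)) * R)) +
      red (Du.qc ε δ τ (C (Cr.sc (φ a)) * P - C (Cr.sc (φ c)) * R)) * red (Du.uu ε δ τ) = 0 := by
    simp only [map_sub, map_mul]
    simp only [hs] at hx
    linear_combination (red (Du.qc ε δ τ R)) * hx -
      (red (Du.qc ε δ τ (C (Cr.sc (φ a)))) * red (Du.uu ε δ τ) +
        red (Du.qc ε δ τ (C (Cr.sc (φ b))))) * hPR
  obtain ⟨h10, h11⟩ := hind _ _ h9
  simp only [map_sub, map_mul] at h10 h11
  have h12 : red (Du.qc ε δ τ (C (Cr.sc (φ (a * d - b * c))))) * red (Du.qc ε δ τ R) = 0 := by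
    simp only [map_sub, map_mul]
    linear_combination (red (Du.qc ε δ τ (C (Cr.sc (φ b))))) * h11 -
      (red (Du.qc ε δ τ (C (Cr.sc (φ a))))) * h10
  rcases mul_eq_zero.1 h12 with h | h
  · have hu : IsUnit (a * d - b * c) := isUnit_iff_ne_zero.2 hdet
    have := ((((hu.map φ).map Cr.sc).map (C : Cr S ε δ →+* _)).map (Du.qc ε δ τ)).map red
    rw [h] at this
    exact not_isUnit_zero this
  · exact hR h

end key

end Pool.Agent.H72.BT
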