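import Pool.Agent.H72.BT.Defs
import Pool.Agent.H72.BT.EvApp
import Pool.Agent.H72.BT.Ker
import Pool.Agent.H72.BT.Image

/-!
# Projective space over a field
-/

open CategoryTheory Limits AlgebraicGeometry

universe u

attribute [local instance] MvPolynomial.gradedAlgebra

namespace Pool.Agent.H72.BT

variable (k : Type u) [Field k] (n : ℕ)

lemma algebraMap_zero_surjective : Function.Surjective
    (algebraMap k (MvPolynomial.homogeneousSubmodule (Fin (n + 1)) k 0)) := by
  rintro ⟨p, hp⟩
  have h1 : p.IsHomogeneous 0 := hp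
  refine ⟨MvPolynomial.coeff 0 p, Subtype.ext ?_⟩
  change MvPolynomial.C (MvPolynomial.coeff 0 p) = p
  exact (MvPolynomial.totalDegree_eq_zero_iff_eq_C.1
    (Nat.le_zero.1 h1.totalDegree_le)).symm

instance : IsScalarTower k (MvPolynomial.homogeneousSubmodule (Fin (n + 1)) k 0)
    (MvPolynomial (Fin (n + 1)) k) :=
  ⟨fun a b c => smul_mul_assoc a b.1 c⟩

instance : Algebra.FiniteType (MvPolynomial.homogeneousSubmodule (Fin (n + 1)) k 0)
    (MvPolynomial (Fin (n + 1)) k) :=
  Algebra.FiniteType.of_restrictScalars_finiteType k _ _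

instance : IsSeparated (PSpace.toSpec k n) := by
  unfold PSpace.toSpec; infer_instance

instance : QuasiCompact (PSpace.toSpec k n) := by
  unfold PSpace.toSpec; infer_instance

instance : LocallyOfFiniteType (PSpace.toSpec k n) := by
  unfold PSpace.toSpec
  have : LocallyOfFiniteType (Spec.map (CommRingCat.ofHom
      (algebraMap k (MvPolynomial.homogeneousSubmodule (Fin (n + 1)) k 0)))) := by
    rw [HasRingHomProperty.Spec_iff (P := @LocallyOfFiniteType)]
    exact RingHom.FiniteType.of_surjective _ (algebraMap_zero_surjective k n)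
  infer_instance

variable {k n}

lemma Ev_toSpec {E : Type u} [CommRing E] (e : MvPolynomial (Fin (n + 1)) k →+* E)
    {x : MvPolynomial (Fin (n + 1)) k} (hx : IsUnit (e x)) {d : ℕ}
    (hd : x ∈ MvPolynomial.homogeneousSubmodule (Fin (n + 1)) k d) (h0 : 0 < d) :
    Ev e hx hd h0 ≫ PSpace.toSpec k n = Spec.map (CommRingCat.ofHom (e.comp MvPolynomial.C)) := by
  unfold Ev PSpace.toSpec
  rw [Category.assoc, Proj.awayι_toSpecZero_assoc, ← Spec.map_comp, ← Spec.map_comp,
    ← CommRingCat.ofHom_comp, ← CommRingCat.ofHom_comp]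
  congr 2
  ext a
  rw [RingHom.comp_apply, RingHom.comp_apply]
  have h1 := evA_spec (𝒜 := MvPolynomial.homogeneousSubmodule (Fin (n + 1)) k) e hx hd 0
    (MvPolynomial.C a) (by simp [MvPolynomial.isHomogeneous_C])
  rw [pow_zero, mul_one] at h1
  rw [RingHom.comp_apply, ← h1]
  congr 1
  ext
  simp [HomogeneousLocalization.Away.val_mk, HomogeneousLocalization.fromZeroRingHom]

end Pool.Agent.H72.BT
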