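import Pool.Agent.H72.BT.Fam

/-!
# The equation of the family on the charts of projective space
-/

open CategoryTheory Limits AlgebraicGeometry HomogeneousLocalization

universe u

attribute [local instance] MvPolynomial.gradedAlgebra

namespace Pool.Agent.H72.BT

section sx

variable {A : Type*} [CommRing A] (ε δ : ℕ)

/-- The coefficients of the sextic form, as a polynomial in the parameter. -/
noncomputable def sx (A : Type*) [CommRing A] (ε δ : ℕ) :
    ℕ → MvPolynomial (Fin (3 + 1)) A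
  | 0 => MvPolynomial.X 1 ^ 2 * MvPolynomial.X 3 ^ 4
      + (ε : MvPolynomial (Fin (3 + 1)) A) * MvPolynomial.X 1 * MvPolynomial.X 3 ^ 5
      - MvPolynomial.X 0 ^ 6 - (δ : MvPolynomial (Fin (3 + 1)) A) * MvPolynomial.X 0 ^ 2 *
        MvPolynomial.X 3 ^ 4
  | 1 => 3 * MvPolynomial.X 0 ^ 4 * MvPolynomial.X 2 * MvPolynomial.X 3
      + (δ : MvPolynomial (Fin (3 + 1)) A) * MvPolynomial.X 2 * MvPolynomial.X 3 ^ 5
  | 2 => - (3 * MvPolynomial.X 0 ^ 2 * MvPolynomial.X 2 ^ 2 * MvPolynomial.X 3 ^ 2)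
  | 3 => MvPolynomial.X 2 ^ 3 * MvPolynomial.X 3 ^ 3
  | _ => 0

lemma sextic_eq (a : A) : sextic ε δ a =
    ∑ m ∈ Finset.range 4, MvPolynomial.C a ^ m * sx A ε δ m := by
  simp only [Finset.sum_range_succ, Finset.sum_range_zero, sx, sextic]
  ring

lemma isHomogeneous_natCast_mul (n : ℕ) {p : MvPolynomial (Fin (3 + 1)) A} {d : ℕ}
    (hp : p.IsHomogeneous d) : ((n : MvPolynomial (Fin (3 + 1)) A) * p).IsHomogeneous d := by
  have := (MvPolynomial.isHomogeneous_C (Fin (3 + 1)) (n : A)).mul hp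
  rw [zero_add] at this
  simpa using this

lemma sx_homogeneous (m : ℕ) : (sx A ε δ m).IsHomogeneous 6 := by
  have hX : ∀ (i : Fin (3 + 1)) (n : ℕ), (MvPolynomial.X i ^ n :
      MvPolynomial (Fin (3 + 1)) A).IsHomogeneous n := fun i n => by
    have := (MvPolynomial.isHomogeneous_X A i).pow n
    simpa using this
  have hX1 : ∀ (i : Fin (3 + 1)), (MvPolynomial.X i :
      MvPolynomial (Fin (3 + 1)) A).IsHomogeneous 1 := fun i => MvPolynomial.isHomogeneous_X A i
  match m with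
  | 0 =>
    refine (((((hX 1 2).mul (hX 3 4))).add ?_).sub (hX 0 6)).sub ?_
    · rw [mul_assoc]
      exact isHomogeneous_natCast_mul _ ((hX1 1).mul (hX 3 5))
    · rw [mul_assoc]
      exact isHomogeneous_natCast_mul _ ((hX 0 2).mul (hX 3 4))
  | 1 =>
    refine MvPolynomial.IsHomogeneous.add ?_ ?_
    · rw [mul_assoc, mul_assoc]
      exact isHomogeneous_natCast_mul 3 ((hX 0 4).mul ((hX1 2).mul (hX1 3)))
    · rw [mul_assoc]
      exact isHomogeneous_natCast_mul _ ((hX1 2).mul (hX 3 5))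
  | 2 =>
    refine MvPolynomial.IsHomogeneous.neg ?_
    rw [mul_assoc, mul_assoc]
    exact isHomogeneous_natCast_mul 3 ((hX 0 2).mul ((hX 2 2).mul (hX 3 2)))
  | 3 => exact (hX 2 3).mul (hX 3 3)
  | (n + 4) => exact MvPolynomial.isHomogeneous_zero _ _ _

lemma sextic_homogeneous (a : A) : (sextic ε δ a).IsHomogeneous 6 := by
  rw [sextic_eq]
  refine MvPolynomial.IsHomogeneous.sum _ _ _ fun m _ => ?_
  rw [← map_pow]
  have := (MvPolynomial.isHomogeneous_C (Fin (3 + 1)) (a ^ m)).mul (sx_homogeneous (A := A) ε δ m)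
  rwa [zero_add] at this

lemma sum_ev_sx {k S : Type*} [CommRing k] [CommRing S] (φ : k →+* S) (τ : S) :
    ∑ m ∈ Finset.range 4, Dy.sc ε δ τ τ ^ m * ev φ ε δ τ (sx k ε δ m) = 0 := by
  simp only [Finset.sum_range_succ, Finset.sum_range_zero, sx, map_add, map_sub, map_mul, map_pow,
    map_natCast, map_neg, ev_zero, ev_one, ev_two, ev_three, map_ofNat]
  linear_combination Dy.eqn ε δ τ

end sx

section phi

variable {k : Type u} [Field k] (ε δ : ℕ)


/-- The function `F_m / x_i⁶` on the `i`-th chart. -/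
noncomputable def sg (m : ℕ) (i : Fin (3 + 1)) : Away (MvPolynomial.homogeneousSubmodule (Fin (3 + 1)) k) (MvPolynomial.X i) :=
  Away.mk (MvPolynomial.homogeneousSubmodule (Fin (3 + 1)) k) (X_mem i) 6 (sx k ε δ m) (sx_homogeneous ε δ m)

/-- The value of the equation of the family at a point of `B × ℙ³` with values in a scheme. -/
noncomputable def Phi {T : Scheme.{u}} (q : T ⟶ PSpace k 3) (t : Γ(T, ⊤)) (i : Fin (3 + 1))
    (U : T.Opens) (h : U ≤ q ⁻¹ᵁ Proj.basicOpen (MvPolynomial.homogeneousSubmodule (Fin (3 + 1)) k) (MvPolynomial.X i)) : Γ(T, U) :=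
  ∑ m ∈ Finset.range 4, ((T.presheaf.map (homOfLE le_top).op).hom t) ^ m *
    (Proj.awayToSection (MvPolynomial.homogeneousSubmodule (Fin (3 + 1)) k) (MvPolynomial.X i) ≫
      q.appLE (Proj.basicOpen (MvPolynomial.homogeneousSubmodule (Fin (3 + 1)) k) (MvPolynomial.X i)) U h).hom (sg ε δ m i)

lemma Phi_naturality {T T' : Scheme.{u}} (p : T' ⟶ T) (q : T ⟶ PSpace k 3) (t : Γ(T, ⊤))
    (i : Fin (3 + 1)) (U : T.Opens) (h : U ≤ q ⁻¹ᵁ Proj.basicOpen (MvPolynomial.homogeneousSubmodule (Fin (3 + 1)) k) (MvPolynomial.X i))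
    (U' : T'.Opens) (h' : U' ≤ p ⁻¹ᵁ U)
    (h'' : U' ≤ (p ≫ q) ⁻¹ᵁ Proj.basicOpen (MvPolynomial.homogeneousSubmodule (Fin (3 + 1)) k) (MvPolynomial.X i)) :
    (p.appLE U U' h').hom (Phi ε δ q t i U h) = Phi ε δ (p ≫ q) (p.appTop.hom t) i U' h'' := by
  unfold Phi
  rw [map_sum]
  refine Finset.sum_congr rfl fun m _ => ?_
  rw [map_mul, map_pow]
  congr 1
  · congr 1
    rw [← CommRingCat.comp_apply, ← CommRingCat.comp_apply, Scheme.Hom.map_appLE]
    rfl
  · rw [← CommRingCat.comp_apply, Category.assoc, Scheme.Hom.appLE_comp_appLE]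

lemma Phi_congr {T : Scheme.{u}} {q q' : T ⟶ PSpace k 3} (hq : q = q') (t : Γ(T, ⊤))
    (i : Fin (3 + 1)) (U : T.Opens) (h : U ≤ q ⁻¹ᵁ Proj.basicOpen (MvPolynomial.homogeneousSubmodule (Fin (3 + 1)) k) (MvPolynomial.X i))
    (h' : U ≤ q' ⁻¹ᵁ Proj.basicOpen (MvPolynomial.homogeneousSubmodule (Fin (3 + 1)) k) (MvPolynomial.X i)) :
    Phi ε δ q t i U h = Phi ε δ q' t i U h' := by
  subst hq; rfl

lemma Phi_Ev {E : Type u} [CommRing E] (e : MvPolynomial (Fin (3 + 1)) k →+* E)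
    (i : Fin (3 + 1)) (hi : IsUnit (e (MvPolynomial.X i))) (t : E)
    (ht : ∑ m ∈ Finset.range 4, t ^ m * e (sx k ε δ m) = 0) :
    Phi ε δ (Ev e hi (X_mem i) one_pos) ((Scheme.ΓSpecIso (.of E)).inv.hom t) i ⊤
      (Ev_le e hi (X_mem i) one_pos) = 0 := by
  unfold Phi
  rw [Ev_appLE]
  have h1 : ∀ m, evA (MvPolynomial.homogeneousSubmodule (Fin (3 + 1)) k) e (MvPolynomial.X i) hi (sg ε δ m i) * e (MvPolynomial.X i) ^ 6 =
      e (sx k ε δ m) := fun m => evA_spec e hi (X_mem i) 6 _ _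
  have h2 : ∑ m ∈ Finset.range 4, t ^ m * evA (MvPolynomial.homogeneousSubmodule (Fin (3 + 1)) k) e (MvPolynomial.X i) hi (sg ε δ m i) = 0 := by
    apply (hi.pow 6).mul_right_cancel
    rw [zero_mul, Finset.sum_mul, ← ht]
    refine Finset.sum_congr rfl fun m _ => ?_
    rw [mul_assoc, h1]
  have h3 := congrArg (Scheme.ΓSpecIso (.of E)).inv.hom h2
  rw [map_zero, map_sum] at h3
  rw [← h3]
  refine Finset.sum_congr rfl fun m _ => ?_
  rw [map_mul, map_pow]
  refine congrArg₂ (· * ·) (congrArg (· ^ m) ?_) rfl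
  exact congrArg (fun f => f.hom ((Scheme.ΓSpecIso (.of E)).inv.hom t))
    ((Spec (.of E)).presheaf.map_id _)

/-- Constants on the charts. -/
noncomputable def cst (i : Fin (3 + 1)) : k →+* Away (MvPolynomial.homogeneousSubmodule (Fin (3 + 1)) k) (MvPolynomial.X i) :=
  (fromZeroRingHom (MvPolynomial.homogeneousSubmodule (Fin (3 + 1)) k) (Submonoid.powers (MvPolynomial.X i))).comp (algebraMap k ((MvPolynomial.homogeneousSubmodule (Fin (3 + 1)) k) 0))

lemma awayι_injective (i : Fin (3 + 1)) : Function.Injective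
    ((Proj.awayι (MvPolynomial.homogeneousSubmodule (Fin (3 + 1)) k) (MvPolynomial.X i) (X_mem i) one_pos).appLE
      (Proj.basicOpen (MvPolynomial.homogeneousSubmodule (Fin (3 + 1)) k) (MvPolynomial.X i)) ⊤ (awayι_le (X_mem i) one_pos)).hom := by
  have h1 := awayι_appLE (𝒜 := (MvPolynomial.homogeneousSubmodule (Fin (3 + 1)) k)) (X_mem i) one_pos
  have h2 : IsIso (Proj.awayToSection (MvPolynomial.homogeneousSubmodule (Fin (3 + 1)) k) (MvPolynomial.X i)) := by
    rw [← Proj.basicOpenIsoAway_hom (MvPolynomial.homogeneousSubmodule (Fin (3 + 1)) k) _ (X_mem i) one_pos]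
    infer_instance
  have h3 : (Proj.awayι (MvPolynomial.homogeneousSubmodule (Fin (3 + 1)) k) (MvPolynomial.X i) (X_mem i) one_pos).appLE
      (Proj.basicOpen (MvPolynomial.homogeneousSubmodule (Fin (3 + 1)) k) (MvPolynomial.X i)) ⊤ (awayι_le (X_mem i) one_pos) =
      inv (Proj.awayToSection (MvPolynomial.homogeneousSubmodule (Fin (3 + 1)) k) (MvPolynomial.X i)) ≫ (Scheme.ΓSpecIso _).inv := by
    rw [← h1, IsIso.inv_hom_id_assoc]
  have h4 : IsIso ((Proj.awayι (MvPolynomial.homogeneousSubmodule (Fin (3 + 1)) k) (MvPolynomial.X i) (X_mem i) one_pos).appLE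
      (Proj.basicOpen (MvPolynomial.homogeneousSubmodule (Fin (3 + 1)) k) (MvPolynomial.X i)) ⊤ (awayι_le (X_mem i) one_pos)) := by
    rw [h3]; infer_instance
  exact (asIso ((Proj.awayι (MvPolynomial.homogeneousSubmodule (Fin (3 + 1)) k) (MvPolynomial.X i) (X_mem i) one_pos).appLE
      (Proj.basicOpen (MvPolynomial.homogeneousSubmodule (Fin (3 + 1)) k) (MvPolynomial.X i)) ⊤
        (awayι_le (X_mem i) one_pos))).commRingCatIsoToRingEquiv.injective

lemma awayToSection_cst (i : Fin (3 + 1)) (a : k) :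
    (Proj.awayToSection (MvPolynomial.homogeneousSubmodule (Fin (3 + 1)) k) (MvPolynomial.X i)).hom (cst i a) =
      ((PSpace k 3).presheaf.map (homOfLE (le_top :
        Proj.basicOpen (MvPolynomial.homogeneousSubmodule (Fin (3 + 1)) k) (MvPolynomial.X i) ≤ ⊤)).op).hom
        ((PSpace.toSpec k 3).appTop.hom ((Scheme.ΓSpecIso (.of k)).inv.hom a)) := by
  have h1 : Proj.awayι (MvPolynomial.homogeneousSubmodule (Fin (3 + 1)) k) (MvPolynomial.X i) (X_mem i) one_pos ≫ PSpace.toSpec k 3 =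
      Spec.map (CommRingCat.ofHom (cst i)) := by
    rw [PSpace.toSpec, Proj.awayι_toSpecZero_assoc, ← Spec.map_comp]
    rfl
  have h2 : (PSpace.toSpec k 3).appTop ≫
      (Proj.awayι (MvPolynomial.homogeneousSubmodule (Fin (3 + 1)) k) (MvPolynomial.X i) (X_mem i) one_pos).appLE ⊤ ⊤ le_top =
      (Spec.map (CommRingCat.ofHom (cst i))).appTop := by
    rw [← h1, Scheme.Hom.comp_appTop]
    congr 1
  have h3 : CommRingCat.ofHom (cst i) ≫ (Scheme.ΓSpecIso _).inv =
      (Scheme.ΓSpecIso (.of k)).inv ≫ (PSpace.toSpec k 3).appTop ≫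
      (Proj.awayι (MvPolynomial.homogeneousSubmodule (Fin (3 + 1)) k) (MvPolynomial.X i) (X_mem i) one_pos).appLE ⊤ ⊤ le_top := by
    rw [h2]
    exact Scheme.ΓSpecIso_inv_naturality _
  apply awayι_injective i
  rw [← CommRingCat.comp_apply, awayι_appLE, ← CommRingCat.comp_apply, ← CommRingCat.comp_apply,
    Scheme.Hom.map_appLE]
  exact congrArg (fun f => f.hom a) h3

lemma val_mk_mul {A : Type*} [CommRing A] {σ : Type*} [SetLike σ A] [AddSubgroupClass σ A]
    (𝒜 : ℕ → σ) [GradedRing 𝒜] {x : A} {d : ℕ} (hd : x ∈ 𝒜 d) (n : ℕ) (a : A)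
    (ha : a ∈ 𝒜 (n • d)) : (Away.mk 𝒜 hd n a ha).val * algebraMap A (Localization.Away x) x ^ n =
      algebraMap A (Localization.Away x) a := by
  rw [Away.val_mk, Localization.mk_eq_mk', ← map_pow]
  exact IsLocalization.mk'_spec _ a (⟨x ^ n, n, rfl⟩ : Submonoid.powers x)

/-- The function `F_a / x_i⁶` on the `i`-th chart. -/
noncomputable def sF (a : k) (i : Fin (3 + 1)) : Away (MvPolynomial.homogeneousSubmodule (Fin (3 + 1)) k) (MvPolynomial.X i) :=
  Away.mk (MvPolynomial.homogeneousSubmodule (Fin (3 + 1)) k) (X_mem i) 6 (sextic ε δ a) (sextic_homogeneous ε δ a)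

lemma sF_eq (a : k) (i : Fin (3 + 1)) : sF ε δ a i =
    ∑ m ∈ Finset.range 4, cst i a ^ m * sg ε δ m i := by
  apply HomogeneousLocalization.val_injective
  have hu : IsUnit (algebraMap (MvPolynomial (Fin (3 + 1)) k)
      (Localization.Away (MvPolynomial.X i : MvPolynomial (Fin (3 + 1)) k))
        (MvPolynomial.X i)) := IsLocalization.Away.algebraMap_isUnit _
  apply (hu.pow 6).mul_right_cancel
  rw [sF, val_mk_mul, sextic_eq, map_sum,
    ← HomogeneousLocalization.algebraMap_apply, map_sum, Finset.sum_mul]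
  refine Finset.sum_congr rfl fun m _ => ?_
  rw [map_mul, map_pow, map_mul, map_pow, mul_assoc]
  have h1 := val_mk_mul (MvPolynomial.homogeneousSubmodule (Fin (3 + 1)) k) (X_mem i) 6 (sx k ε δ m) (sx_homogeneous ε δ m)
  rw [HomogeneousLocalization.algebraMap_apply, HomogeneousLocalization.algebraMap_apply]
  refine congrArg₂ (· * ·) rfl h1.symm

end phi

end Pool.Agent.H72.BT
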