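import Pool.Agent.H72.BT.Van

/-!
# The total space of the family and its fibres
-/

open CategoryTheory Limits AlgebraicGeometry HomogeneousLocalization

universe u

attribute [local instance] MvPolynomial.gradedAlgebra

namespace Pool.Agent.H72.BT

variable (k : Type u) [Field k] (ε δ : ℕ)


/-- The base of the family: the affine line. -/
noncomputable abbrev BB : Scheme.{u} := Spec (.of (Polynomial k))

/-- The structure morphism of the base. -/
noncomputable abbrev sBB : BB k ⟶ Spec (.of k) :=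
  Spec.map (CommRingCat.ofHom (Polynomial.C : k →+* Polynomial k))

/-- The coordinate ring of the affine chart of the family. -/
noncomputable abbrev DD : Type u := Dy ε δ (Polynomial.X : Polynomial k)

/-- The immersion of the affine chart. -/
noncomputable abbrev gX : Spec (.of (DD k ε δ)) ⟶ pullback (sBB k) (PSpace.toSpec k 3) :=
  gg3 (Polynomial.C : k →+* Polynomial k) ε δ (Polynomial.X : Polynomial k)

/-- The total space of the family. -/
noncomputable abbrev XX : Scheme.{u} := (gX k ε δ).image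

/-- The inclusion of the total space. -/
noncomputable abbrev inclX : XX k ε δ ⟶ pullback (sBB k) (PSpace.toSpec k 3) := (gX k ε δ).imageι

/-- The inclusion of the affine chart. -/
noncomputable abbrev jX : Spec (.of (DD k ε δ)) ⟶ XX k ε δ := (gX k ε δ).toImage

/-- The morphism to the base. -/
noncomputable abbrev fX : XX k ε δ ⟶ BB k :=
  inclX k ε δ ≫ pullback.fst (sBB k) (PSpace.toSpec k 3)

/-- The morphism to projective space. -/
noncomputable abbrev qX : XX k ε δ ⟶ PSpace k 3 :=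
  inclX k ε δ ≫ pullback.snd (sBB k) (PSpace.toSpec k 3)

lemma jX_fX : jX k ε δ ≫ fX k ε δ =
    Spec.map (CommRingCat.ofHom (Dy.sc ε δ (Polynomial.X : Polynomial k))) := by
  rw [fX, ← Category.assoc, Scheme.Hom.toImage_imageι, gg3_fst]

lemma jX_qX : jX k ε δ ≫ qX k ε δ = gP Polynomial.C ε δ (Polynomial.X : Polynomial k) := by
  rw [qX, ← Category.assoc, Scheme.Hom.toImage_imageι, gg3_snd]

instance : IsOpenImmersion (jX k ε δ) := inferInstance

instance [IsDomain (DD k ε δ)] : IsIntegral (XX k ε δ) := isIntegral_image _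

lemma isDominant_Spec_map {R S : Type u} [CommRing R] [CommRing S] (φ : R →+* S)
    (h : Function.Injective φ) : IsDominant (Spec.map (CommRingCat.ofHom φ)) := by
  refine ⟨(PrimeSpectrum.denseRange_comap_iff_ker_le_nilRadical φ).2 ?_⟩
  rw [(RingHom.injective_iff_ker_eq_bot φ).1 h]
  exact bot_le

lemma Phi_XX [IsDomain (DD k ε δ)] (i : Fin (3 + 1)) :
    Phi ε δ (qX k ε δ) ((fX k ε δ).appTop.hom
      ((Scheme.ΓSpecIso (.of (Polynomial k))).inv.hom Polynomial.X)) i
      ((qX k ε δ) ⁻¹ᵁ Proj.basicOpen (MvPolynomial.homogeneousSubmodule (Fin (3 + 1)) k) (MvPolynomial.X i)) le_rfl = 0 := by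
  let K := FractionRing (DD k ε δ)
  have hψ : Function.Injective (algebraMap (DD k ε δ) K) := IsFractionRing.injective _ _
  let κ : Spec (.of K) ⟶ XX k ε δ :=
    Spec.map (CommRingCat.ofHom (algebraMap (DD k ε δ) K)) ≫ jX k ε δ
  have h1 : IsDominant (Spec.map (CommRingCat.ofHom (algebraMap (DD k ε δ) K))) :=
    isDominant_Spec_map _ hψ
  have h1' : IsDominant κ := inferInstance
  have h2 : IsSchemeTheoreticallyDominant κ := .of_isDominant κ
  have h2' : QuasiCompact κ := inferInstance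
  have hκ : κ ≫ qX k ε δ = Ev ((algebraMap (DD k ε δ) K).comp (ev Polynomial.C ε δ Polynomial.X))
      (comp_ev_X_unit ε δ _ hψ i) (X_mem i) one_pos := by
    rw [Category.assoc, jX_qX]
    exact comp_gP ε δ _ hψ i
  have h3 : (⊤ : (Spec (.of K)).Opens) ≤ κ ⁻¹ᵁ ((qX k ε δ) ⁻¹ᵁ Proj.basicOpen (MvPolynomial.homogeneousSubmodule (Fin (3 + 1)) k)
      (MvPolynomial.X i)) := by
    rw [← Scheme.Hom.comp_preimage, hκ]
    exact Ev_le _ _ _ _
  apply appLE_injective κ _ h3
  rw [map_zero, Phi_naturality ε δ κ (qX k ε δ) _ i _ _ ⊤ h3 (by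
    rw [hκ]; exact Ev_le _ _ _ _), Phi_congr ε δ hκ _ i ⊤ _ (Ev_le _ _ _ _)]
  have h4 : κ.appTop.hom ((fX k ε δ).appTop.hom
      ((Scheme.ΓSpecIso (.of (Polynomial k))).inv.hom Polynomial.X)) =
      (Scheme.ΓSpecIso (.of K)).inv.hom
        ((algebraMap (DD k ε δ) K) (Dy.sc ε δ Polynomial.X Polynomial.X)) := by
    rw [← CommRingCat.comp_apply, ← CommRingCat.comp_apply, ← Scheme.Hom.comp_appTop]
    have h5 : κ ≫ fX k ε δ = Spec.map (CommRingCat.ofHom
        ((algebraMap (DD k ε δ) K).comp (Dy.sc ε δ Polynomial.X))) := by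
      rw [Category.assoc, jX_fX, ← Spec.map_comp]
      rfl
    rw [h5, ← Scheme.ΓSpecIso_inv_naturality]
    rfl
  rw [h4]
  apply Phi_Ev
  have h5 := congrArg (algebraMap (DD k ε δ) K)
    (sum_ev_sx ε δ (Polynomial.C : k →+* Polynomial k) (Polynomial.X : Polynomial k))
  rw [map_sum, map_zero] at h5
  simp only [map_mul, map_pow] at h5
  exact h5

/-- The point of the base with coordinate `a`. -/
noncomputable abbrev pt (a : k) : Spec (.of k) ⟶ BB k :=
  Spec.map (CommRingCat.ofHom (Polynomial.evalRingHom a))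

lemma pt_sBB (a : k) : pt k a ≫ sBB k = 𝟙 _ := by
  rw [← Spec.map_comp, ← CommRingCat.ofHom_comp]
  have : (Polynomial.evalRingHom a).comp (Polynomial.C : k →+* Polynomial k) = RingHom.id k := by
    ext x; simp
  rw [this]
  exact Spec.map_id _

lemma exists_pt (b : Spec (.of k) ⟶ BB k) (hb : b ≫ sBB k = 𝟙 _) : ∃ a : k, b = pt k a := by
  obtain ⟨φ, rfl⟩ := Spec.map_surjective b
  refine ⟨φ.hom Polynomial.X, ?_⟩
  congr 1
  ext1
  apply Polynomial.ringHom_ext'
  · rw [← Spec.map_comp, ← Spec.map_id] at hb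
    have h1 := Spec.map_injective hb
    have h2 := congrArg (fun f => f.hom) h1
    refine RingHom.ext fun x => ?_
    have h3 := RingHom.congr_fun h2 x
    change φ.hom (Polynomial.C x) = Polynomial.eval _ (Polynomial.C x)
    rw [Polynomial.eval_C]
    exact h3
  · change φ.hom Polynomial.X = Polynomial.eval _ Polynomial.X
    rw [Polynomial.eval_X]

/-- The fibre over the point `a`. -/
noncomputable abbrev ZZ (a : k) : Scheme.{u} := pullback (fX k ε δ) (pt k a)

/-- The fibre in projective space. -/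
noncomputable abbrev iZZ (a : k) : ZZ k ε δ a ⟶ PSpace k 3 := iZ (sBB k) (inclX k ε δ) (pt k a)

instance (a : k) : IsClosedImmersion (iZZ k ε δ a) :=
  isClosedImmersion_iZ (sBB k) (inclX k ε δ) (pt k a) (pt_sBB k a)

lemma Phi_ZZ [IsDomain (DD k ε δ)] (a : k) (i : Fin (3 + 1)) :
    Phi ε δ (iZZ k ε δ a) ((iZZ k ε δ a ≫ PSpace.toSpec k 3).appTop.hom
      ((Scheme.ΓSpecIso (.of k)).inv.hom a)) i
      ((iZZ k ε δ a) ⁻¹ᵁ Proj.basicOpen (MvPolynomial.homogeneousSubmodule (Fin (3 + 1)) k) (MvPolynomial.X i)) le_rfl = 0 := by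
  have h1 := Phi_XX k ε δ i
  have h2 := congrArg ((pullback.fst (fX k ε δ) (pt k a)).appLE
    ((qX k ε δ) ⁻¹ᵁ Proj.basicOpen (MvPolynomial.homogeneousSubmodule (Fin (3 + 1)) k) (MvPolynomial.X i))
    ((iZZ k ε δ a) ⁻¹ᵁ Proj.basicOpen (MvPolynomial.homogeneousSubmodule (Fin (3 + 1)) k) (MvPolynomial.X i)) le_rfl).hom h1
  rw [map_zero, Phi_naturality ε δ (pullback.fst (fX k ε δ) (pt k a)) (qX k ε δ) _ i _ _
    ((iZZ k ε δ a) ⁻¹ᵁ Proj.basicOpen (MvPolynomial.homogeneousSubmodule (Fin (3 + 1)) k) (MvPolynomial.X i)) le_rfl le_rfl] at h2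
  rw [← h2]
  have h3 : (iZZ k ε δ a ≫ PSpace.toSpec k 3).appTop.hom
      ((Scheme.ΓSpecIso (.of k)).inv.hom a) =
      (pullback.fst (fX k ε δ) (pt k a)).appTop.hom ((fX k ε δ).appTop.hom
      ((Scheme.ΓSpecIso (.of (Polynomial k))).inv.hom Polynomial.X)) := by
    have h4 : pullback.fst (fX k ε δ) (pt k a) ≫ fX k ε δ =
      pullback.snd (fX k ε δ) (pt k a) ≫ pt k a := pullback.condition
    have h5 : (pt k a).appTop.hom ((Scheme.ΓSpecIso (.of (Polynomial k))).inv.hom
        Polynomial.X) = (Scheme.ΓSpecIso (.of k)).inv.hom a := by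
      have h6 := congrArg (fun f => f.hom Polynomial.X)
        (Scheme.ΓSpecIso_inv_naturality (CommRingCat.ofHom (Polynomial.evalRingHom a)))
      have h7 : Polynomial.evalRingHom a Polynomial.X = a := by simp
      refine h6.symm.trans ?_
      change (Scheme.ΓSpecIso (.of k)).inv.hom (Polynomial.evalRingHom a Polynomial.X) = _
      rw [h7]
    rw [iZ_toSpec _ _ _ (pt_sBB k a), ← h5, ← CommRingCat.comp_apply, ← Scheme.Hom.comp_appTop,
      ← CommRingCat.comp_apply (Scheme.Hom.appTop (fX k ε δ)), ← Scheme.Hom.comp_appTop, h4]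
  rw [h3]
  rfl

end Pool.Agent.H72.BT
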