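import Pool.Agent.H72.BT.Phi

/-!
# Kernels of the fibres in projective space
-/

open CategoryTheory Limits AlgebraicGeometry HomogeneousLocalization

universe u

attribute [local instance] MvPolynomial.gradedAlgebra

namespace Pool.Agent.H72.BT

section nonzero

variable {S : Type*} [CommRing S] [Nontrivial S] {ε δ : ℕ} {τ : S}

lemma Dy.indep (p q : Polynomial (Polynomial S))
    (h : Dy.qc ε δ τ p + Dy.qc ε δ τ q * Dy.yy ε δ τ = 0) : p = 0 ∧ q = 0 :=
  quad_indep (ε : Polynomial (Polynomial S)) (gg δ τ) p q h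

lemma Dy.uu_ne_zero : Dy.uu ε δ τ ≠ 0 := by
  intro h
  have := (Dy.indep (ε := ε) (δ := δ) (τ := τ) Polynomial.X 0 (by
    rw [map_zero, zero_mul, add_zero]; exact h)).1
  exact Polynomial.X_ne_zero this

lemma Dy.ww_ne_zero : Dy.ww ε δ τ ≠ 0 := by
  intro h
  have := (Dy.indep (ε := ε) (δ := δ) (τ := τ) (Polynomial.C Polynomial.X) 0 (by
    rw [map_zero, zero_mul, add_zero]; exact h)).1
  exact Polynomial.X_ne_zero (Polynomial.C_eq_zero.1 this)

lemma Dy.yy_ne_zero : Dy.yy ε δ τ ≠ 0 := by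
  intro h
  have := (Dy.indep (ε := ε) (δ := δ) (τ := τ) 0 1 (by
    rw [map_zero, map_one, zero_add, one_mul]; exact h)).2
  exact one_ne_zero this

lemma ev_X_ne_zero {k : Type*} [CommRing k] (φ : k →+* S) (i : Fin (3 + 1)) :
    ev φ ε δ τ (MvPolynomial.X i) ≠ 0 := by
  have : Nontrivial (Dy ε δ τ) := ⟨⟨_, _, Dy.uu_ne_zero (ε := ε) (δ := δ) (τ := τ)⟩⟩
  fin_cases i
  · exact (ev_zero φ ε δ τ).symm ▸ Dy.uu_ne_zero
  · exact (ev_one φ ε δ τ).symm ▸ Dy.yy_ne_zero
  · exact (ev_two φ ε δ τ).symm ▸ Dy.ww_ne_zero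
  · exact (ev_three φ ε δ τ).symm ▸ one_ne_zero

end nonzero

section van

variable {k : Type u} [Field k] (ε δ : ℕ)


lemma sF_vanish {T : Scheme.{u}} (q : T ⟶ PSpace k 3) (a : k) (i : Fin (3 + 1))
    (U : T.Opens) (h : U ≤ q ⁻¹ᵁ Proj.basicOpen (MvPolynomial.homogeneousSubmodule (Fin (3 + 1)) k) (MvPolynomial.X i))
    (h0 : Phi ε δ q ((q ≫ PSpace.toSpec k 3).appTop.hom
      ((Scheme.ΓSpecIso (.of k)).inv.hom a)) i U h = 0) :
    (Proj.awayToSection (MvPolynomial.homogeneousSubmodule (Fin (3 + 1)) k) (MvPolynomial.X i) ≫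
      q.appLE (Proj.basicOpen (MvPolynomial.homogeneousSubmodule (Fin (3 + 1)) k) (MvPolynomial.X i)) U h).hom (sF ε δ a i) = 0 := by
  rw [sF_eq, map_sum, ← h0, Phi]
  refine Finset.sum_congr rfl fun m _ => ?_
  rw [map_mul, map_pow]
  refine congrArg₂ (· * ·) (congrArg (· ^ m) ?_) rfl
  have h1 : (Proj.awayToSection (MvPolynomial.homogeneousSubmodule (Fin (3 + 1)) k) (MvPolynomial.X i) ≫
      q.appLE (Proj.basicOpen (MvPolynomial.homogeneousSubmodule (Fin (3 + 1)) k) (MvPolynomial.X i)) U h).hom (cst i a) =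
      (q.appLE (Proj.basicOpen (MvPolynomial.homogeneousSubmodule (Fin (3 + 1)) k) (MvPolynomial.X i)) U h).hom
        ((Proj.awayToSection (MvPolynomial.homogeneousSubmodule (Fin (3 + 1)) k) (MvPolynomial.X i)).hom (cst i a)) := rfl
  rw [h1, awayToSection_cst, ← CommRingCat.comp_apply, ← CommRingCat.comp_apply,
    ← CommRingCat.comp_apply, Scheme.Hom.map_appLE, Scheme.Hom.comp_appTop]
  rfl

lemma sF_dvd (a : k) {K : Type u} [Field K]
    [Algebra (Dy ε δ a) K] [IsFractionRing (Dy ε δ a) K] (i : Fin (3 + 1))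
    (hi : IsUnit (((algebraMap (Dy ε δ a) K).comp (ev (RingHom.id k) ε δ a)) (MvPolynomial.X i)))
    (s : Away (MvPolynomial.homogeneousSubmodule (Fin (3 + 1)) k) (MvPolynomial.X i))
    (hs : evA (MvPolynomial.homogeneousSubmodule (Fin (3 + 1)) k) ((algebraMap (Dy ε δ a) K).comp (ev (RingHom.id k) ε δ a)) _ hi s = 0) :
    sF ε δ a i ∣ s := by
  obtain ⟨n, h, hh, rfl⟩ := Away.mk_surjective (MvPolynomial.homogeneousSubmodule (Fin (3 + 1)) k) (X_mem i) s
  have h1 := evA_spec ((algebraMap (Dy ε δ a) K).comp (ev (RingHom.id k) ε δ a)) hi (X_mem i)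
    n h hh
  rw [hs, zero_mul] at h1
  have h2 : ev (RingHom.id k) ε δ a h = 0 :=
    IsFractionRing.injective (Dy ε δ a) K (h1.symm.trans (map_zero _).symm)
  have hh' : h.IsHomogeneous n := by
    have := hh
    rw [smul_eq_mul, mul_one] at this
    exact this
  obtain ⟨g, hg⟩ := sextic_dvd ε δ a h n hh' h2
  let x : MvPolynomial (Fin (3 + 1)) k := MvPolynomial.X i
  have hx : x ∈ (MvPolynomial.homogeneousSubmodule (Fin (3 + 1)) k) 1 := X_mem i
  let g' : MvPolynomial (Fin (3 + 1)) k := DirectSum.decompose (MvPolynomial.homogeneousSubmodule (Fin (3 + 1)) k) (g * x ^ 6) n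
  have hg' : g' ∈ (MvPolynomial.homogeneousSubmodule (Fin (3 + 1)) k) (n • 1) := by
    rw [smul_eq_mul, mul_one]
    exact SetLike.coe_mem _
  have e1 : h * x ^ 6 = sextic ε δ a * g' := by
    have e2 : h * x ^ 6 = sextic ε δ a * (g * x ^ 6) := by rw [hg]; ring
    have e3 : sextic ε δ a * (g * x ^ 6) ∈ (MvPolynomial.homogeneousSubmodule (Fin (3 + 1)) k) (6 + n) := by
      rw [← e2]
      have := hh'.mul ((MvPolynomial.isHomogeneous_X k i).pow 6)
      rw [add_comm 6 n]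
      simpa using this
    have e4 := DirectSum.coe_decompose_mul_add_of_left_mem (MvPolynomial.homogeneousSubmodule (Fin (3 + 1)) k) (i := 6) (j := n)
      (a := sextic ε δ a) (b := g * x ^ 6) (sextic_homogeneous ε δ a)
    rw [DirectSum.decompose_of_mem_same (MvPolynomial.homogeneousSubmodule (Fin (3 + 1)) k) e3] at e4
    rw [e2, e4]
  refine ⟨Away.mk (MvPolynomial.homogeneousSubmodule (Fin (3 + 1)) k) hx n g' hg', ?_⟩
  apply HomogeneousLocalization.val_injective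
  have hu : IsUnit (algebraMap (MvPolynomial (Fin (3 + 1)) k) (Localization.Away x) x) :=
    IsLocalization.Away.algebraMap_isUnit _
  apply (hu.pow (n + 6)).mul_right_cancel
  rw [HomogeneousLocalization.val_mul, pow_add]
  have v1 := val_mk_mul (MvPolynomial.homogeneousSubmodule (Fin (3 + 1)) k) (X_mem i) n h hh
  have v2 := val_mk_mul (MvPolynomial.homogeneousSubmodule (Fin (3 + 1)) k) (X_mem i) 6 (sextic ε δ a) (sextic_homogeneous ε δ a)
  have v3 := val_mk_mul (MvPolynomial.homogeneousSubmodule (Fin (3 + 1)) k) hx n g' hg'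
  have v4 := congrArg (algebraMap (MvPolynomial (Fin (3 + 1)) k) (Localization.Away x)) e1
  rw [map_mul, map_mul, map_pow] at v4
  calc _ = ((Away.mk (MvPolynomial.homogeneousSubmodule (Fin (3 + 1)) k) (X_mem i) n h hh).val * algebraMap _ (Localization.Away x) x ^ n) *
        algebraMap _ (Localization.Away x) x ^ 6 := by ring
    _ = ((sF ε δ a i).val * algebraMap _ (Localization.Away x) x ^ 6) *
        ((Away.mk (MvPolynomial.homogeneousSubmodule (Fin (3 + 1)) k) hx n g' hg').val * algebraMap _ (Localization.Away x) x ^ n) := by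
      rw [sF]
      exact (congrArg₂ (· * ·) v1 rfl).trans (v4.trans (congrArg₂ (· * ·) v2.symm v3.symm))
    _ = _ := by ring

lemma comp_ev_X_unit {S : Type u} [CommRing S] [Nontrivial S] {φ : k →+* S} {τ : S}
    {K : Type u} [Field K] (ψ : Dy ε δ τ →+* K) (hψ : Function.Injective ψ) (i : Fin (3 + 1)) :
    IsUnit ((ψ.comp (ev φ ε δ τ)) (MvPolynomial.X i)) := by
  rw [isUnit_iff_ne_zero, RingHom.comp_apply]
  intro h
  exact ev_X_ne_zero φ i (hψ (h.trans (map_zero ψ).symm))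

lemma comp_gP {S : Type u} [CommRing S] [Nontrivial S] {φ : k →+* S} {τ : S}
    {K : Type u} [Field K] (ψ : Dy ε δ τ →+* K) (hψ : Function.Injective ψ) (i : Fin (3 + 1)) :
    Spec.map (CommRingCat.ofHom ψ) ≫ gP φ ε δ τ =
      Ev (ψ.comp (ev φ ε δ τ)) (comp_ev_X_unit ε δ ψ hψ i) (X_mem i) one_pos := by
  rw [gP, comp_Ev (ev φ ε δ τ) ψ (isUnit_ev φ ε δ τ) (X_mem 3) one_pos (comp_ev_X_unit ε δ ψ hψ 3)]
  exact Ev_eq _ _ _ _ _ _ _

lemma ker_le (a : k) [IsDomain (Dy ε δ a)] {T : Scheme.{u}} (q : T ⟶ PSpace k 3)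
    [QuasiCompact q]
    (h0 : ∀ i, Phi ε δ q ((q ≫ PSpace.toSpec k 3).appTop.hom
      ((Scheme.ΓSpecIso (.of k)).inv.hom a)) i (q ⁻¹ᵁ Proj.basicOpen (MvPolynomial.homogeneousSubmodule (Fin (3 + 1)) k) (MvPolynomial.X i))
      le_rfl = 0) : (gP (RingHom.id k) ε δ a).ker ≤ q.ker := by
  refine Scheme.IdealSheafData.le_of_iSup_eq_top
    (fun i : Fin (3 + 1) => ⟨Proj.basicOpen (MvPolynomial.homogeneousSubmodule (Fin (3 + 1)) k) (MvPolynomial.X i),
      Proj.isAffineOpen_basicOpen (MvPolynomial.homogeneousSubmodule (Fin (3 + 1)) k) _ (X_mem i) one_pos⟩) (iSup_basicOpen k) ?_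
  intro i
  rw [Scheme.Hom.ker_apply, Scheme.Hom.ker_apply]
  intro s hs
  rw [RingHom.mem_ker] at hs ⊢
  let K := FractionRing (Dy ε δ a)
  have hψ : Function.Injective (algebraMap (Dy ε δ a) K) := IsFractionRing.injective _ _
  have hu := comp_ev_X_unit (φ := RingHom.id k) ε δ (algebraMap (Dy ε δ a) K) hψ i
  have h2 : IsIso (Proj.awayToSection (MvPolynomial.homogeneousSubmodule (Fin (3 + 1)) k) (MvPolynomial.X i)) := by
    rw [← Proj.basicOpenIsoAway_hom (MvPolynomial.homogeneousSubmodule (Fin (3 + 1)) k) _ (X_mem i) one_pos]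
    infer_instance
  obtain ⟨σ, rfl⟩ : ∃ σ, (Proj.awayToSection (MvPolynomial.homogeneousSubmodule (Fin (3 + 1)) k) (MvPolynomial.X i)).hom σ = s := by
    refine ⟨(inv (Proj.awayToSection (MvPolynomial.homogeneousSubmodule (Fin (3 + 1)) k) (MvPolynomial.X i))).hom s, ?_⟩
    rw [← CommRingCat.comp_apply, IsIso.inv_hom_id]
    rfl
  have h3 := Ev_appLE ((algebraMap (Dy ε δ a) K).comp (ev (RingHom.id k) ε δ a)) hu (X_mem i)
    one_pos
  have h5 : (((gP (RingHom.id k) ε δ a).app (Proj.basicOpen (MvPolynomial.homogeneousSubmodule (Fin (3 + 1)) k) (MvPolynomial.X i))).hom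
      ((Proj.awayToSection (MvPolynomial.homogeneousSubmodule (Fin (3 + 1)) k) (MvPolynomial.X i)).hom σ)) = 0 := hs
  have h6 : (⊤ : (Spec (.of K)).Opens) ≤
      (Spec.map (CommRingCat.ofHom (algebraMap (Dy ε δ a) K))) ⁻¹ᵁ
        ((gP (RingHom.id k) ε δ a) ⁻¹ᵁ (Proj.basicOpen (MvPolynomial.homogeneousSubmodule (Fin (3 + 1)) k) (MvPolynomial.X i))) := by
    rw [← Scheme.Hom.comp_preimage, comp_gP ε δ _ hψ i]
    exact Ev_le _ _ _ _
  have h7 : ((Ev ((algebraMap (Dy ε δ a) K).comp (ev (RingHom.id k) ε δ a)) hu (X_mem i)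
      one_pos).appLE (Proj.basicOpen (MvPolynomial.homogeneousSubmodule (Fin (3 + 1)) k) (MvPolynomial.X i)) ⊤ (Ev_le _ hu (X_mem i) one_pos)).hom
      ((Proj.awayToSection (MvPolynomial.homogeneousSubmodule (Fin (3 + 1)) k) (MvPolynomial.X i)).hom σ) = 0 := by
    have h8 : ∀ (r : Spec (.of K) ⟶ PSpace k 3)
        (_ : r = Spec.map (CommRingCat.ofHom (algebraMap (Dy ε δ a) K)) ≫
          gP (RingHom.id k) ε δ a)
        (hr : ⊤ ≤ r ⁻¹ᵁ (Proj.basicOpen (MvPolynomial.homogeneousSubmodule (Fin (3 + 1)) k) (MvPolynomial.X i))),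
        (r.appLE (Proj.basicOpen (MvPolynomial.homogeneousSubmodule (Fin (3 + 1)) k) (MvPolynomial.X i)) ⊤ hr).hom
          ((Proj.awayToSection (MvPolynomial.homogeneousSubmodule (Fin (3 + 1)) k) (MvPolynomial.X i)).hom σ) = 0 := by
      rintro r rfl hr
      have h9 := Scheme.Hom.appLE_comp_appLE
        (Spec.map (CommRingCat.ofHom (algebraMap (Dy ε δ a) K)))
        (gP (RingHom.id k) ε δ a) (Proj.basicOpen (MvPolynomial.homogeneousSubmodule (Fin (3 + 1)) k) (MvPolynomial.X i)) _ ⊤ le_rfl h6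
      rw [← h9, CommRingCat.comp_apply, ← Scheme.Hom.app_eq_appLE]
      rw [h5, map_zero]
    exact h8 _ (comp_gP ε δ _ hψ i).symm _
  have h8 : evA (MvPolynomial.homogeneousSubmodule (Fin (3 + 1)) k) ((algebraMap (Dy ε δ a) K).comp (ev (RingHom.id k) ε δ a)) _ hu σ = 0 := by
    have h9 := congrArg (fun f => f.hom σ) h3
    have h10 : (Scheme.ΓSpecIso (.of K)).inv.hom (evA (MvPolynomial.homogeneousSubmodule (Fin (3 + 1)) k) ((algebraMap (Dy ε δ a) K).comp
        (ev (RingHom.id k) ε δ a)) _ hu σ) = 0 := h9.symm.trans h7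
    have h11 := congrArg (Scheme.ΓSpecIso (.of K)).hom.hom h10
    rw [map_zero, ← CommRingCat.comp_apply, Iso.inv_hom_id] at h11
    exact h11
  obtain ⟨σ', rfl⟩ := sF_dvd ε δ a i hu σ h8
  have h9 := sF_vanish ε δ q a i _ le_rfl (h0 i)
  rw [map_mul]
  have h10 : ((q.app (Proj.basicOpen (MvPolynomial.homogeneousSubmodule (Fin (3 + 1)) k) (MvPolynomial.X i))).hom
      ((Proj.awayToSection (MvPolynomial.homogeneousSubmodule (Fin (3 + 1)) k) (MvPolynomial.X i)).hom (sF ε δ a i))) = 0 := by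
    rw [← h9, CommRingCat.hom_comp, RingHom.comp_apply, Scheme.Hom.app_eq_appLE]
  change (q.app (Proj.basicOpen (MvPolynomial.homogeneousSubmodule (Fin (3 + 1)) k) (MvPolynomial.X i))).hom _ = 0
  rw [map_mul, h10, zero_mul]

end van

end Pool.Agent.H72.BT
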